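import Mathlib

/-!
# The real Banach space `ℓ₁(I)`: universal property, and bilinear products
-/

set_option autoImplicit false

open scoped ENNReal Topology

namespace Pool.Agent.R608.EllOneR

/-- The Banach space `ℓ₁(I)`. -/
abbrev L1 (I : Type) : Type := lp (fun _ : I => ℝ) 1

variable {I J : Type} {V W : Type} [NormedAddCommGroup V] [NormedSpace ℝ V]
  [NormedAddCommGroup W] [NormedSpace ℝ W]

open Classical in
/-- The unit vector at `i`. -/
noncomputable def dl (i : I) : L1 I := lp.single 1 i 1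

lemma dl_apply_self (i : I) : (dl i : L1 I) i = 1 := by
  classical
  exact lp.single_apply_self 1 i 1

lemma dl_apply_ne {i j : I} (h : j ≠ i) : (dl i : L1 I) j = 0 := by
  classical
  exact lp.single_apply_ne 1 i 1 h

lemma norm_dl (i : I) : ‖(dl i : L1 I)‖ = 1 := by
  classical
  have h := lp.norm_single (E := fun _ : I => ℝ) (p := 1) (by norm_num) i (1 : ℝ)
  rw [norm_one] at h
  exact h

lemma norm_eq (f : L1 I) : ‖f‖ = ∑' i, ‖f i‖ := by
  rw [lp.norm_eq_tsum_rpow (by simp)]
  simp

lemma summable_norm (f : L1 I) : Summable fun i => ‖f i‖ := by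
  have h := (lp.memℓp f).summable (by simp)
  simpa using h

lemma hasSum_dl (f : L1 I) : HasSum (fun i => f i • (dl i : L1 I)) f := by
  classical
  have h := lp.hasSum_single (E := fun _ : I => ℝ) (p := 1) (by simp) f
  convert h using 2 with i
  change f i • (lp.single (E := fun _ : I => ℝ) 1 i (1 : ℝ)) = _
  rw [← lp.single_smul]
  simp


lemma summable_lift [CompleteSpace V] (v : I → V) (hv : ∀ i, ‖v i‖ ≤ 1) (f : L1 I) :
    Summable fun i => f i • v i := by
  refine Summable.of_norm_bounded (summable_norm f) fun i => ?_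
  rw [norm_smul]
  exact mul_le_of_le_one_right (norm_nonneg _) (hv i)

/-- The continuous linear map with values `v i` on the unit vectors. -/
noncomputable def lift [CompleteSpace V] (v : I → V) (hv : ∀ i, ‖v i‖ ≤ 1) : L1 I →L[ℝ] V :=
  LinearMap.mkContinuous
    { toFun := fun f => ∑' i, f i • v i
      map_add' := fun f g => by
        rw [← (summable_lift v hv f).tsum_add (summable_lift v hv g)]
        refine tsum_congr fun i => ?_
        rw [lp.coeFn_add, Pi.add_apply, add_smul]
      map_smul' := fun c f => by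
        rw [RingHom.id_apply, ← (summable_lift v hv f).tsum_const_smul c]
        refine tsum_congr fun i => ?_
        rw [lp.coeFn_smul, Pi.smul_apply, smul_assoc] }
    1 fun f => by
      rw [one_mul, norm_eq]
      change ‖∑' i, f i • v i‖ ≤ _
      refine tsum_of_norm_bounded (summable_norm f).hasSum fun i => ?_
      rw [norm_smul]
      exact mul_le_of_le_one_right (norm_nonneg _) (hv i)

lemma lift_apply [CompleteSpace V] (v : I → V) (hv : ∀ i, ‖v i‖ ≤ 1) (f : L1 I) :
    lift v hv f = ∑' i, f i • v i := rfl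

lemma norm_lift_le [CompleteSpace V] (v : I → V) (hv : ∀ i, ‖v i‖ ≤ 1) : ‖lift v hv‖ ≤ 1 :=
  LinearMap.mkContinuous_norm_le _ zero_le_one _

lemma norm_lift_apply_le [CompleteSpace V] (v : I → V) (hv : ∀ i, ‖v i‖ ≤ 1) (f : L1 I) :
    ‖lift v hv f‖ ≤ ‖f‖ := by
  have h := (lift v hv).le_of_opNorm_le (norm_lift_le v hv) f
  rwa [one_mul] at h

lemma lift_dl [CompleteSpace V] (v : I → V) (hv : ∀ i, ‖v i‖ ≤ 1) (i : I) :
    lift v hv (dl i) = v i := by
  rw [lift_apply, tsum_eq_single i fun j hj => by rw [dl_apply_ne hj, zero_smul], dl_apply_self,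
    one_smul]

lemma ext_clm (A B : L1 I →L[ℝ] V) (h : ∀ i, A (dl i) = B (dl i)) (f : L1 I) : A f = B f := by
  have h1 := (hasSum_dl f).mapL A
  have h2 := (hasSum_dl f).mapL B
  have e : (fun i => A (f i • dl i)) = fun i => B (f i • dl i) := by
    funext i
    rw [map_smul, map_smul, h i]
  rw [e] at h1
  exact h1.unique h2

lemma ext_bilin (A B : L1 I →L[ℝ] L1 J →L[ℝ] V) (h : ∀ i j, A (dl i) (dl j) = B (dl i) (dl j))
    (f : L1 I) (g : L1 J) : A f g = B f g := by
  have h1 : A f = B f := ext_clm A B (fun i => ContinuousLinearMap.ext fun g =>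
    ext_clm (A (dl i)) (B (dl i)) (h i) g) f
  rw [h1]

/-- The bilinear product with values `m i j` on pairs of unit vectors. -/
noncomputable def bil [CompleteSpace V] (m : I → J → V) (hm : ∀ i j, ‖m i j‖ ≤ 1) :
    L1 I →L[ℝ] L1 J →L[ℝ] V :=
  lift (fun i => lift (m i) (hm i)) fun i => norm_lift_le (m i) (hm i)

lemma bil_dl [CompleteSpace V] (m : I → J → V) (hm : ∀ i j, ‖m i j‖ ≤ 1) (i : I) (j : J) :
    bil m hm (dl i) (dl j) = m i j := by
  unfold bil
  rw [lift_dl, lift_dl]

lemma bil_apply [CompleteSpace V] (m : I → J → V) (hm : ∀ i j, ‖m i j‖ ≤ 1) (f : L1 I)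
    (g : L1 J) : bil m hm f g = ∑' i, f i • ∑' j, g j • m i j := by
  have h1 : HasSum (fun i => bil m hm (f i • dl i) g) (bil m hm f g) :=
    (hasSum_dl f).mapL ((bil m hm).flip g)
  rw [← h1.tsum_eq]
  refine tsum_congr fun i => ?_
  rw [map_smul, smul_apply]
  unfold bil
  rw [lift_dl, lift_apply]

lemma norm_bil_le [CompleteSpace V] (m : I → J → V) (hm : ∀ i j, ‖m i j‖ ≤ 1) (f : L1 I)
    (g : L1 J) : ‖bil m hm f g‖ ≤ ‖f‖ * ‖g‖ := by
  refine ((bil m hm f).le_opNorm g).trans ?_
  exact mul_le_mul_of_nonneg_right (norm_lift_apply_le _ _ f) (norm_nonneg _)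

/-- Associativity can be checked on unit vectors. -/
lemma bil_assoc (m : I → I → L1 I) (hm : ∀ i j, ‖m i j‖ ≤ 1)
    (h : ∀ i j k, bil m hm (m i j) (dl k) = bil m hm (dl i) (m j k)) (f g e : L1 I) :
    bil m hm (bil m hm f g) e = bil m hm f (bil m hm g e) := by
  set B := bil m hm with hB
  have h1 : ∀ i j e, B (B (dl i) (dl j)) e = B (dl i) (B (dl j) e) := fun i j e =>
    ext_clm (B (B (dl i) (dl j))) ((B (dl i)).comp (B (dl j))) (fun k => by
      rw [ContinuousLinearMap.comp_apply, hB, bil_dl, bil_dl]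
      exact h i j k) e
  have h2 : ∀ i g e, B (B (dl i) g) e = B (dl i) (B g e) := fun i g e =>
    ext_clm ((B.flip e).comp (B (dl i))) ((B (dl i)).comp (B.flip e)) (fun j => by
      exact h1 i j e) g
  exact ext_clm ((B.flip e).comp (B.flip g)) (B.flip (B g e)) (fun i => h2 i g e) f

/-- The evaluation functional. -/
noncomputable def ev (i : I) : L1 I →L[ℝ] ℝ := lp.evalCLM ℝ (fun _ : I => ℝ) 1 i

lemma ev_apply (i : I) (f : L1 I) : ev i f = f i := rfl

lemma tsum_apply {K : Type} (F : K → L1 I) (hF : Summable F) (i : I) :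
    (∑' k, F k : L1 I) i = ∑' k, F k i := by
  have h := (ev i).map_tsum hF
  exact h

end Pool.Agent.R608.EllOneR
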