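import Mathlib
import Pool.Agent.R608.EllOneR

/-!
# Embedding `ℓ₁(ι)` into `L₁(μ)` as the span of disjoint atoms
-/

set_option autoImplicit false
set_option linter.unusedSectionVars false

open MeasureTheory Set Filter Topology
open Pool.Agent.R608.EllOneR
open scoped ENNReal

namespace Pool.Agent.R608.AtomEmbed

noncomputable section

/-- A countable measurable partition into pieces of positive measure. -/
structure Part {X : Type} [MeasurableSpace X] (μ : Measure X) (ι : Type) where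
  /-- the index of the piece -/
  i : X → ι
  meas : ∀ s : Set ι, MeasurableSet (i ⁻¹' s)
  pos : ∀ j, μ (i ⁻¹' {j}) ≠ 0

variable {X : Type} [MeasurableSpace X] {μ : Measure X} [IsFiniteMeasure μ] {ι : Type}
  [Countable ι] (p : Part μ ι)

/-- The normalizing constant. -/
def Part.c (j : ι) : ℝ := (μ (p.i ⁻¹' {j})).toReal⁻¹

lemma Part.c_pos (j : ι) : 0 < p.c j :=
  inv_pos.2 (ENNReal.toReal_pos (p.pos j) (measure_ne_top _ _))

lemma Part.enorm_c (j : ι) : ‖p.c j‖ₑ * μ (p.i ⁻¹' {j}) = 1 := by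
  have h0 := p.pos j
  have h1 : μ (p.i ⁻¹' {j}) ≠ ⊤ := measure_ne_top _ _
  have h2 : μ (p.i ⁻¹' {j}) = ENNReal.ofReal (μ (p.i ⁻¹' {j})).toReal :=
    (ENNReal.ofReal_toReal h1).symm
  rw [Real.enorm_eq_ofReal (p.c_pos j).le]
  conv_lhs => rw [h2]
  rw [← ENNReal.ofReal_mul (p.c_pos j).le]
  unfold Part.c
  rw [inv_mul_cancel₀ (ENNReal.toReal_pos h0 h1).ne', ENNReal.ofReal_one]

lemma Part.measurable_comp {β : Type} [MeasurableSpace β] (F : ι → β) :
    Measurable fun t => F (p.i t) := by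
  intro s _
  exact p.meas (F ⁻¹' s)

lemma Part.lintegral_comp (F : ι → ℝ≥0∞) :
    ∫⁻ t, F (p.i t) ∂μ = ∑' j, F j * μ (p.i ⁻¹' {j}) := by
  let _ : MeasurableSpace ι := ⊤
  have _ : DiscreteMeasurableSpace ι := ⟨fun _ => trivial⟩
  have hi : Measurable p.i := fun s _ => p.meas s
  rw [← lintegral_map (f := F) (fun s _ => trivial) hi, lintegral_countable']
  refine tsum_congr fun j => ?_
  rw [Measure.map_apply hi trivial]

lemma Part.lintegral_coord (a : ι → ℝ) :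
    ∫⁻ t, ‖p.c (p.i t) * a (p.i t)‖ₑ ∂μ = ∑' j, ‖a j‖ₑ := by
  rw [p.lintegral_comp fun j => ‖p.c j * a j‖ₑ]
  refine tsum_congr fun j => ?_
  rw [enorm_mul, mul_right_comm, p.enorm_c, one_mul]

lemma tsum_enorm_ne_top (a : L1 ι) : ∑' j, ‖a j‖ₑ ≠ ⊤ := by
  have h : ∀ j, ‖a j‖ₑ = ENNReal.ofReal ‖a j‖ := fun j => (ofReal_norm _).symm
  simp only [h]
  rw [← ENNReal.ofReal_tsum_of_nonneg (fun _ => norm_nonneg _) (summable_norm a)]
  exact ENNReal.ofReal_ne_top

lemma tsum_enorm_toReal (a : L1 ι) : (∑' j, ‖a j‖ₑ).toReal = ‖a‖ := by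
  have h : ∀ j, ‖a j‖ₑ = ENNReal.ofReal ‖a j‖ := fun j => (ofReal_norm _).symm
  simp only [h]
  rw [← ENNReal.ofReal_tsum_of_nonneg (fun _ => norm_nonneg _) (summable_norm a),
    ENNReal.toReal_ofReal (tsum_nonneg fun _ => norm_nonneg _), norm_eq]

lemma Part.memLp (a : L1 ι) : MemLp (fun t => p.c (p.i t) * a (p.i t)) 1 μ := by
  refine ⟨(p.measurable_comp fun j => p.c j * a j).aestronglyMeasurable, ?_⟩
  rw [eLpNorm_one_eq_lintegral_enorm, p.lintegral_coord]
  exact (tsum_enorm_ne_top a).lt_top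

/-- The embedding. -/
def Part.G (a : L1 ι) : Lp ℝ 1 μ := (p.memLp a).toLp _

lemma Part.coeFn_G (a : L1 ι) : (p.G a : X → ℝ) =ᵐ[μ] fun t => p.c (p.i t) * a (p.i t) :=
  (p.memLp a).coeFn_toLp

lemma Part.norm_G (a : L1 ι) : ‖p.G a‖ = ‖a‖ := by
  unfold Part.G
  rw [Lp.norm_toLp, eLpNorm_one_eq_lintegral_enorm, p.lintegral_coord, tsum_enorm_toReal]

lemma Part.G_add (a b : L1 ι) : p.G (a + b) = p.G a + p.G b := by
  refine Lp.ext ?_
  filter_upwards [p.coeFn_G (a + b), p.coeFn_G a, p.coeFn_G b, Lp.coeFn_add (p.G a) (p.G b)]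
    with t h1 h2 h3 h4
  rw [h1, h4, Pi.add_apply, h2, h3, lp.coeFn_add, Pi.add_apply, mul_add]

lemma Part.G_smul (r : ℝ) (a : L1 ι) : p.G (r • a) = r • p.G a := by
  refine Lp.ext ?_
  filter_upwards [p.coeFn_G (r • a), p.coeFn_G a, Lp.coeFn_smul r (p.G a)] with t h1 h2 h3
  rw [h1, h3, Pi.smul_apply, h2, lp.coeFn_smul, Pi.smul_apply, smul_eq_mul, smul_eq_mul]
  ring

/-- The coordinatewise absolute value. -/
def absL (a : L1 ι) : L1 ι := ⟨fun j => |a j|, by
  refine memℓp_gen ?_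
  simpa using (summable_norm a)⟩

lemma absL_apply (a : L1 ι) (j : ι) : absL a j = |a j| := rfl

lemma Part.G_abs (a : L1 ι) : p.G (absL a) = |p.G a| := by
  refine Lp.ext ?_
  filter_upwards [p.coeFn_G (absL a), p.coeFn_G a, Lp.coeFn_abs (p.G a)] with t h1 h2 h3
  rw [h1, h3, h2, absL_apply, abs_mul, abs_of_pos (p.c_pos _)]

lemma Part.G_le_iff (a b : L1 ι) : p.G a ≤ p.G b ↔ ∀ j, a j ≤ b j := by
  rw [← Lp.coeFn_le]
  constructor
  · intro h j
    by_contra hj
    push Not at hj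
    apply p.pos j
    have h1 : ∀ᵐ t ∂μ, p.c (p.i t) * a (p.i t) ≤ p.c (p.i t) * b (p.i t) := by
      filter_upwards [h, p.coeFn_G a, p.coeFn_G b] with t h1 h2 h3
      rwa [h2, h3] at h1
    rw [ae_iff] at h1
    refine measure_mono_null ?_ h1
    intro t ht
    have ht' : p.i t = j := ht
    change ¬ (p.c (p.i t) * a (p.i t) ≤ p.c (p.i t) * b (p.i t))
    rw [ht', not_le]
    exact mul_lt_mul_of_pos_left hj (p.c_pos j)
  · intro h
    filter_upwards [p.coeFn_G a, p.coeFn_G b] with t h2 h3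
    rw [h2, h3]
    exact mul_le_mul_of_nonneg_left (h _) (p.c_pos _).le

/-- The norm of a difference as an integral. -/
lemma Part.enorm_sub_G (x : Lp ℝ 1 μ) (a : L1 ι) :
    ‖x - p.G a‖ₑ = ∫⁻ t, ‖x t - p.c (p.i t) * a (p.i t)‖ₑ ∂μ := by
  rw [Lp.enorm_def, eLpNorm_one_eq_lintegral_enorm]
  refine lintegral_congr_ae ?_
  filter_upwards [Lp.coeFn_sub x (p.G a), p.coeFn_G a] with t h1 h2
  rw [h1, Pi.sub_apply, h2]

/-- Lower semicontinuity under pointwise convergence. -/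
lemma Part.isClosed_le {Z : Type} [TopologicalSpace Z]
    [SequentialSpace Z] (x : Lp ℝ 1 μ) (f : Z → ι → ℝ) (hf : ∀ j, Continuous fun z => f z j)
    (C : ℝ≥0∞) : IsClosed {z | ∫⁻ t, ‖x t - p.c (p.i t) * f z (p.i t)‖ₑ ∂μ ≤ C} := by
  refine IsSeqClosed.isClosed fun z z0 hz hlim => ?_
  change ∫⁻ t, ‖x t - p.c (p.i t) * f z0 (p.i t)‖ₑ ∂μ ≤ C
  have h1 : ∀ t, ‖x t - p.c (p.i t) * f z0 (p.i t)‖ₑ =
      liminf (fun n => ‖x t - p.c (p.i t) * f (z n) (p.i t)‖ₑ) atTop := by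
    intro t
    have h2 : Tendsto (fun n => ‖x t - p.c (p.i t) * f (z n) (p.i t)‖ₑ) atTop
        (𝓝 ‖x t - p.c (p.i t) * f z0 (p.i t)‖ₑ) := by
      have h3 : Tendsto (fun n => f (z n) (p.i t)) atTop (𝓝 (f z0 (p.i t))) :=
        ((hf (p.i t)).tendsto z0).comp hlim
      exact (continuous_enorm.tendsto _).comp
        (tendsto_const_nhds.sub (tendsto_const_nhds.mul h3))
    exact h2.liminf_eq.symm
  rw [lintegral_congr h1]
  refine (lintegral_liminf_le' fun n => ?_).trans ?_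
  · exact ((Lp.aestronglyMeasurable x).sub
      (p.measurable_comp fun j => p.c j * f (z n) j).aestronglyMeasurable).enorm
  · have h4 : liminf (fun n => ∫⁻ t, ‖x t - p.c (p.i t) * f (z n) (p.i t)‖ₑ ∂μ) atTop ≤
        liminf (fun _ : ℕ => C) atTop := liminf_le_liminf (Eventually.of_forall fun n => hz n)
    rwa [liminf_const] at h4

/-- The partition of the unit interval. -/
def unitPart (e : ι ≃ ℕ) : Part (volume.restrict (Icc (0 : ℝ) 1)) ι where
  i := fun t => e.symm (⌊1 / t⌋₊ - 1)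
  meas := fun s => by
    have h1 : Measurable fun t : ℝ => ⌊1 / t⌋₊ := Nat.measurable_floor.comp (measurable_const.div measurable_id)
    have h2 : (fun t : ℝ => e.symm (⌊1 / t⌋₊ - 1)) ⁻¹' s =
        (fun t : ℝ => ⌊1 / t⌋₊) ⁻¹' {n | e.symm (n - 1) ∈ s} := rfl
    rw [h2]
    exact h1 trivial
  pos := fun j => by
    set n := e j with hn
    have hsub : Ioc (1 / ((n : ℝ) + 2)) (1 / ((n : ℝ) + 1)) ⊆
        (fun t : ℝ => e.symm (⌊1 / t⌋₊ - 1)) ⁻¹' {j} ∩ Icc 0 1 := by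
      rintro t ⟨h1, h2⟩
      have ht : 0 < t := lt_trans (by positivity) h1
      have h3 : 1 / t < (n : ℝ) + 2 := by
        rw [div_lt_iff₀ (by positivity)] at h1
        rw [div_lt_iff₀ ht]
        linarith
      have h4 : (n : ℝ) + 1 ≤ 1 / t := by
        rw [le_div_iff₀ (by positivity)] at h2
        rw [le_div_iff₀ ht]
        linarith
      have h5 : ⌊1 / t⌋₊ = n + 1 := by
        rw [Nat.floor_eq_iff (by positivity)]
        push_cast
        exact ⟨h4, by linarith⟩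
      refine ⟨?_, ht.le, h2.trans ?_⟩
      · change e.symm (⌊1 / t⌋₊ - 1) = j
        rw [h5, Nat.add_sub_cancel, hn, Equiv.symm_apply_apply]
      · rw [div_le_one (by positivity)]
        linarith [(Nat.cast_nonneg n : (0 : ℝ) ≤ n)]
    intro h
    have h6 : volume (Ioc (1 / ((n : ℝ) + 2)) (1 / ((n : ℝ) + 1))) = 0 := by
      refine measure_mono_null hsub ?_
      have h7 := Measure.le_restrict_apply (μ := (volume : Measure ℝ)) (Icc (0 : ℝ) 1)
        ((fun t : ℝ => e.symm (⌊1 / t⌋₊ - 1)) ⁻¹' {j})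
      exact le_antisymm (h7.trans h.le) bot_le
    rw [Real.volume_Ioc, ENNReal.ofReal_eq_zero, sub_nonpos] at h6
    have h8 : 1 / ((n : ℝ) + 2) < 1 / ((n : ℝ) + 1) :=
      one_div_lt_one_div_of_lt (by positivity) (by linarith)
    linarith

end

end Pool.Agent.R608.AtomEmbed
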