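import Mathlib

/-!
# Difference sets of Borel sets

For a suitable thin set `Λ ⊆ ℝ` every Borel symmetric set `E ⊆ Λ` with `0 ∉ E` is the complement of
the difference set `B - B` of a Borel set `B`.
-/

set_option autoImplicit false

open Set Filter Topology MeasureTheory

namespace Pool.Agent.R608.BorelDifference

/-! ## The distance to the nearest integer -/

/-- The distance to the nearest integer. -/
noncomputable def nd (x : ℝ) : ℝ := ‖(x : UnitAddCircle)‖

lemma nd_add_le (x y : ℝ) : nd (x + y) ≤ nd x + nd y := by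
  unfold nd
  rw [AddCircle.coe_add]
  exact norm_add_le _ _

lemma nd_sub_le (x y : ℝ) : nd (x - y) ≤ nd x + nd y := by
  unfold nd
  rw [AddCircle.coe_sub]
  exact norm_sub_le _ _

lemma nd_neg (x : ℝ) : nd (-x) = nd x := by
  unfold nd
  rw [AddCircle.coe_neg, norm_neg]

lemma nd_sub_comm (x y : ℝ) : nd (x - y) = nd (y - x) := by
  rw [← nd_neg, neg_sub]

lemma nd_eq (x : ℝ) : nd x = |x - round x| := UnitAddCircle.norm_eq

lemma nd_le_abs (x : ℝ) : nd x ≤ |x| := by
  rw [nd_eq]
  have h := round_le x 0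
  simpa using h

lemma nd_add_int (x : ℝ) (n : ℤ) : nd (x + n) = nd x := by
  rw [nd_eq, nd_eq, round_add_intCast]
  push_cast
  congr 1
  ring

lemma measurable_nd : Measurable nd := by
  have h : Continuous nd := (AddCircle.continuous_mk' 1).norm
  exact h.measurable

/-- Integers are recovered from the position modulo one. -/
lemma sep {J : ℤ} (hJ : |(J : ℝ)| ≤ 50) (h : nd ((1000 * J : ℝ) / 100000) ≤ 20 / 100000) :
    J = 0 := by
  rw [nd_eq] at h
  set r : ℤ := round ((1000 * J : ℝ) / 100000) with hr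
  have h1 : |(1000 * J : ℝ) - r * 100000| ≤ 20 := by
    have e : (1000 * J : ℝ) - r * 100000 = ((1000 * J : ℝ) / 100000 - r) * 100000 := by ring
    rw [e, abs_mul, abs_of_pos (by norm_num : (0 : ℝ) < 100000)]
    linarith
  have h2 : |((1000 * J - r * 100000 : ℤ) : ℝ)| ≤ 20 := by
    push_cast
    exact h1
  have h3 : |(1000 * J - r * 100000 : ℤ)| ≤ 20 := by exact_mod_cast h2
  have h4 : |J| ≤ 50 := by exact_mod_cast hJ
  rw [abs_le] at h3 h4
  omega

/-! ## Digits -/

/-- A digit is recovered up to `1 / 100000`. -/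
lemma nd_digit (a : ℕ → Fin 100000) (i : ℕ) :
    nd (100000 ^ i * Real.ofDigits a - ((a i : ℕ) : ℝ) / 100000) ≤ 1 / 100000 := by
  have h1 := Real.ofDigits_eq_sum_add_ofDigits a (i + 1)
  rw [Finset.sum_range_succ] at h1
  set R : ℝ := Real.ofDigits (fun k => a (k + (i + 1))) with hR
  have hR0 : 0 ≤ R := Real.ofDigits_nonneg _
  have hR1 : R ≤ 1 := Real.ofDigits_le_one _
  have hint : ∃ N : ℤ, (100000 : ℝ) ^ i * ∑ k ∈ Finset.range i, Real.ofDigitsTerm a k = N := by
    refine ⟨∑ k ∈ Finset.range i, ((a k : ℕ) : ℤ) * 100000 ^ (i - (k + 1)), ?_⟩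
    push_cast
    rw [Finset.mul_sum]
    refine Finset.sum_congr rfl fun k hk => ?_
    rw [Finset.mem_range] at hk
    unfold Real.ofDigitsTerm
    have e : (100000 : ℝ) ^ i = 100000 ^ (i - (k + 1)) * 100000 ^ (k + 1) := by
      rw [← pow_add]
      congr 1
      omega
    push_cast
    rw [e]
    field_simp
  obtain ⟨N, hN⟩ := hint
  have e : (100000 : ℝ) ^ i * Real.ofDigits a - ((a i : ℕ) : ℝ) / 100000 = R / 100000 + N := by
    rw [h1, ← hN]
    unfold Real.ofDigitsTerm
    push_cast
    have hp : (100000 : ℝ) ^ i ≠ 0 := by positivity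
    rw [pow_succ]
    field_simp
    ring
  rw [e, nd_add_int]
  refine (nd_le_abs _).trans ?_
  rw [abs_of_nonneg (by positivity)]
  linarith

/-! ## Tags -/

/-- The four tags, a Sidon set. -/
def tg : Bool → Bool → ℕ
  | false, false => 0
  | true, false => 1
  | false, true => 3
  | true, true => 7

lemma tg_le (b ε : Bool) : tg b ε ≤ 7 := by
  cases b <;> cases ε <;> decide

lemma tg_sidon (b1 e1 b2 e2 b : Bool)
    (h : (tg b1 e1 : ℤ) - tg b false - (tg b2 e2 - tg b true) = 0) :
    b1 = b ∧ e1 = false ∧ b2 = b ∧ e2 = true := by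
  revert h
  cases b1 <;> cases e1 <;> cases b2 <;> cases e2 <;> cases b <;> decide

lemma tg_inj (b1 e1 b2 e2 : Bool) (h : (tg b1 e1 : ℤ) - tg b2 e2 = 0) : b1 = b2 := by
  revert h
  cases b1 <;> cases e1 <;> cases b2 <;> cases e2 <;> decide

/-- The code of a real number. -/
noncomputable def bit (n : ℕ) (d : ℝ) : Bool := MeasurableSpace.mapNatBool ℝ d n

lemma measurable_bit (n : ℕ) : Measurable (bit n) :=
  (measurable_pi_apply n).comp (MeasurableSpace.measurable_mapNatBool ℝ)

lemma eq_of_bit {d d' : ℝ} (h : ∀ n, bit n d = bit n d') : d = d' :=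
  MeasurableSpace.injective_mapNatBool ℝ (funext h)

open Classical in
/-- The option chosen at the window `3 n + 1`. -/
noncomputable def opt (n : ℕ) (d : ℝ) : Bool :=
  decide (∃ b e : Bool, nd (100000 ^ (3 * n + 1) * d -
    (1000 * (((tg b e : ℤ) - tg (bit n d) false : ℤ) : ℝ)) / 100000) ≤ 8 / 100000)

lemma opt_eq_true (n : ℕ) (d : ℝ) : opt n d = true ↔ ∃ b e : Bool, nd (100000 ^ (3 * n + 1) * d -
    (1000 * (((tg b e : ℤ) - tg (bit n d) false : ℤ) : ℝ)) / 100000) ≤ 8 / 100000 := by
  classical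
  unfold opt
  exact decide_eq_true_iff

lemma measurable_opt (n : ℕ) : Measurable (opt n) := by
  refine measurable_to_bool ?_
  have e : opt n ⁻¹' {true} = ⋃ b : Bool, ⋃ e : Bool, {d : ℝ | nd (100000 ^ (3 * n + 1) * d -
      (1000 * (((tg b e : ℤ) - tg (bit n d) false : ℤ) : ℝ)) / 100000) ≤ 8 / 100000} := by
    ext d
    simp only [mem_iUnion]
    exact opt_eq_true n d
  rw [e]
  refine MeasurableSet.iUnion fun b => MeasurableSet.iUnion fun e => ?_
  refine measurableSet_le (measurable_nd.comp ?_) measurable_const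
  refine (measurable_const.mul measurable_id).sub ?_
  have h1 : Measurable fun c : Bool => (1000 * (((tg b e : ℤ) - tg c false : ℤ) : ℝ)) / 100000 :=
    measurable_from_top
  exact h1.comp (measurable_bit n)

/-- The digit at a window `3 n + 2`. -/
noncomputable def bdig (n : ℕ) (d : ℝ) : ℕ :=
  ⌊100000 * Int.fract (((1000 * tg (bit n d) false : ℕ) : ℝ) / 100000 -
    100000 ^ (3 * n + 2) * d)⌋₊

lemma measurable_bdig (n : ℕ) : Measurable (bdig n) := by
  refine Nat.measurable_floor.comp (measurable_const.mul (measurable_fract.comp ?_))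
  refine Measurable.sub ?_ (measurable_const.mul measurable_id)
  have h1 : Measurable fun c : Bool => (((1000 * tg c false : ℕ) : ℝ) / 100000) :=
    measurable_from_top
  exact h1.comp (measurable_bit n)

lemma bdig_lt (n : ℕ) (d : ℝ) : bdig n d < 100000 := by
  unfold bdig
  rw [Nat.floor_lt (mul_nonneg (by norm_num) (Int.fract_nonneg _))]
  have h2 : ((100000 : ℕ) : ℝ) = 100000 := by norm_num
  rw [h2]
  linarith [Int.fract_lt_one (((1000 * tg (bit n d) false : ℕ) : ℝ) / 100000 -
    100000 ^ (3 * n + 2) * d)]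

/-- The digits of `p d`. -/
noncomputable def pd (d : ℝ) (i : ℕ) : ℕ :=
  if i % 3 = 1 then 1000 * tg (bit (i / 3) d) (opt (i / 3) d)
  else if i % 3 = 2 then bdig (i / 3) d else 0

lemma pd_lt (d : ℝ) (i : ℕ) : pd d i < 100000 := by
  unfold pd
  split_ifs
  · have := tg_le (bit (i / 3) d) (opt (i / 3) d)
    omega
  · exact bdig_lt _ _
  · norm_num

lemma measurable_pd (i : ℕ) : Measurable fun d => pd d i := by
  unfold pd
  split_ifs
  · have h1 : Measurable fun c : Bool × Bool => 1000 * tg c.1 c.2 := Measurable.of_discrete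
    exact h1.comp ((measurable_bit _).prodMk (measurable_opt _))
  · exact measurable_bdig _
  · exact measurable_const

/-- The digit sequence of `p d`. -/
noncomputable def pdF (d : ℝ) (i : ℕ) : Fin 100000 := ⟨pd d i, pd_lt d i⟩

lemma measurable_pdF : Measurable pdF := by
  refine measurable_pi_iff.2 fun i => ?_
  have h1 : (fun d => pdF d i) = fun d => (Fin.ofNat 100000 (pd d i)) := by
    funext d
    refine Fin.ext ?_
    change pd d i = pd d i % 100000
    exact (Nat.mod_eq_of_lt (pd_lt d i)).symm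
  have h2 : Measurable fun k : ℕ => (Fin.ofNat 100000 k) := measurable_from_top
  change Measurable fun d => pdF d i
  rw [h1]
  exact h2.comp (measurable_pd i)

/-- The point `p d`. -/
noncomputable def p (d : ℝ) : ℝ := Real.ofDigits (pdF d)

lemma measurable_p : Measurable p :=
  Real.continuous_ofDigits.measurable.comp measurable_pdF

lemma nd_p_one (n : ℕ) (d : ℝ) : nd (100000 ^ (3 * n + 1) * p d -
    (1000 * ((tg (bit n d) (opt n d) : ℤ) : ℝ)) / 100000) ≤ 1 / 100000 := by
  have h := nd_digit (pdF d) (3 * n + 1)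
  have e : ((pdF d (3 * n + 1) : ℕ) : ℝ) = 1000 * ((tg (bit n d) (opt n d) : ℤ) : ℝ) := by
    have e1 : (pdF d (3 * n + 1) : ℕ) = pd d (3 * n + 1) := rfl
    have e2 : pd d (3 * n + 1) = 1000 * tg (bit n d) (opt n d) := by
      unfold pd
      rw [if_pos (by omega), show (3 * n + 1) / 3 = n by omega]
    rw [e1, e2]
    push_cast
    rfl
  rw [e] at h
  exact h

lemma nd_p_two (n : ℕ) (d : ℝ) : nd (100000 ^ (3 * n + 2) * (p d + d) -
    (1000 * ((tg (bit n d) false : ℤ) : ℝ)) / 100000) ≤ 2 / 100000 := by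
  have h := nd_digit (pdF d) (3 * n + 2)
  have e1 : (pdF d (3 * n + 2) : ℕ) = pd d (3 * n + 2) := rfl
  have e2 : pd d (3 * n + 2) = bdig n d := by
    unfold pd
    rw [if_neg (by omega), if_pos (by omega), show (3 * n + 2) / 3 = n by omega]
  rw [e1, e2] at h
  set y : ℝ := ((1000 * tg (bit n d) false : ℕ) : ℝ) / 100000 - 100000 ^ (3 * n + 2) * d with hy
  have hb : nd ((bdig n d : ℝ) / 100000 - y) ≤ 1 / 100000 := by
    have h3 : (bdig n d : ℝ) ≤ 100000 * Int.fract y :=
      Nat.floor_le (mul_nonneg (by norm_num) (Int.fract_nonneg _))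
    have h4 : 100000 * Int.fract y < (bdig n d : ℝ) + 1 := Nat.lt_floor_add_one _
    have e3 : (bdig n d : ℝ) / 100000 - y =
        ((bdig n d : ℝ) / 100000 - Int.fract y) + ((-⌊y⌋ : ℤ) : ℝ) := by
      have := Int.floor_add_fract y
      push_cast
      linarith
    rw [e3, nd_add_int]
    refine (nd_le_abs _).trans ?_
    rw [abs_le]
    constructor <;> linarith
  have e4 : 100000 ^ (3 * n + 2) * (p d + d) - (1000 * ((tg (bit n d) false : ℤ) : ℝ)) / 100000 =
      (100000 ^ (3 * n + 2) * p d - (bdig n d : ℝ) / 100000) + ((bdig n d : ℝ) / 100000 - y) := by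
    rw [hy]
    push_cast
    ring
  rw [e4]
  refine (nd_add_le _ _).trans ?_
  have h5 : nd (100000 ^ (3 * n + 2) * p d - (bdig n d : ℝ) / 100000) ≤ 1 / 100000 := h
  linarith

/-! ## Thin differences -/

/-- The set of thin differences. -/
def Thin (e : ℝ) : Prop := ∀ i : ℕ, i % 3 ≠ 0 → nd (100000 ^ i * e) ≤ 4 / 100000

lemma tg_sub_abs (a b : ℕ) (ha : a ≤ 7) (hb : b ≤ 7) : |(((a : ℤ) - b : ℤ) : ℝ)| ≤ 50 := by
  have h1 : |((a : ℤ) - b : ℤ)| ≤ 7 := by
    rw [abs_le]
    omega
  have h2 : ((|((a : ℤ) - b : ℤ)| : ℤ) : ℝ) ≤ 7 := by exact_mod_cast h1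
  rw [Int.cast_abs] at h2
  linarith

lemma eq_of_thin_00 {d d' : ℝ} (h : Thin (p d - p d')) : d = d' := by
  refine eq_of_bit fun n => ?_
  have h1 := h (3 * n + 1) (by omega)
  have h2 := nd_p_one n d
  have h3 := nd_p_one n d'
  refine tg_inj _ (opt n d) _ (opt n d') (sep (tg_sub_abs _ _ (tg_le _ _) (tg_le _ _)) ?_)
  have e : (1000 * (((tg (bit n d) (opt n d) : ℤ) - tg (bit n d') (opt n d') : ℤ) : ℝ)) / 100000 =
      (100000 ^ (3 * n + 1) * (p d - p d')) -
      ((100000 ^ (3 * n + 1) * p d - (1000 * ((tg (bit n d) (opt n d) : ℤ) : ℝ)) / 100000) -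
       (100000 ^ (3 * n + 1) * p d' - (1000 * ((tg (bit n d') (opt n d') : ℤ) : ℝ)) / 100000)) := by
    push_cast
    ring
  rw [e]
  refine (nd_sub_le _ _).trans ?_
  have h4 := nd_sub_le (100000 ^ (3 * n + 1) * p d -
      (1000 * ((tg (bit n d) (opt n d) : ℤ) : ℝ)) / 100000)
    (100000 ^ (3 * n + 1) * p d' - (1000 * ((tg (bit n d') (opt n d') : ℤ) : ℝ)) / 100000)
  linarith

lemma eq_of_thin_11 {d d' : ℝ} (h : Thin (p d + d - (p d' + d'))) : d = d' := by
  refine eq_of_bit fun n => ?_
  have h1 := h (3 * n + 2) (by omega)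
  have h2 := nd_p_two n d
  have h3 := nd_p_two n d'
  refine tg_inj _ false _ false (sep (tg_sub_abs _ _ (tg_le _ _) (tg_le _ _)) ?_)
  have e : (1000 * (((tg (bit n d) false : ℤ) - tg (bit n d') false : ℤ) : ℝ)) / 100000 =
      (100000 ^ (3 * n + 2) * (p d + d - (p d' + d'))) -
      ((100000 ^ (3 * n + 2) * (p d + d) - (1000 * ((tg (bit n d) false : ℤ) : ℝ)) / 100000) -
       (100000 ^ (3 * n + 2) * (p d' + d') -
          (1000 * ((tg (bit n d') false : ℤ) : ℝ)) / 100000)) := by
    push_cast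
    ring
  rw [e]
  refine (nd_sub_le _ _).trans ?_
  have h4 := nd_sub_le (100000 ^ (3 * n + 2) * (p d + d) -
      (1000 * ((tg (bit n d) false : ℤ) : ℝ)) / 100000)
    (100000 ^ (3 * n + 2) * (p d' + d') - (1000 * ((tg (bit n d') false : ℤ) : ℝ)) / 100000)
  linarith

lemma eq_of_thin_01 {d d' : ℝ} (h : Thin (p d - (p d' + d'))) : d = d' := by
  refine eq_of_bit fun n => ?_
  have h1 := h (3 * n + 1) (by omega)
  have h2 := nd_p_one n d
  have h3 := nd_p_one n d'
  set A : ℝ := 100000 ^ (3 * n + 1) with hA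
  -- the conflict
  have h5 : nd (A * d' - (1000 * (((tg (bit n d) (opt n d) : ℤ) -
      tg (bit n d') (opt n d') : ℤ) : ℝ)) / 100000) ≤ 8 / 100000 := by
    have e : A * d' - (1000 * (((tg (bit n d) (opt n d) : ℤ) -
        tg (bit n d') (opt n d') : ℤ) : ℝ)) / 100000 =
        ((A * p d - (1000 * ((tg (bit n d) (opt n d) : ℤ) : ℝ)) / 100000) -
        (A * p d' - (1000 * ((tg (bit n d') (opt n d') : ℤ) : ℝ)) / 100000)) -
        A * (p d - (p d' + d')) := by
      push_cast
      ring
    rw [e]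
    refine (nd_sub_le _ _).trans ?_
    have h4 := nd_sub_le (A * p d - (1000 * ((tg (bit n d) (opt n d) : ℤ) : ℝ)) / 100000)
      (A * p d' - (1000 * ((tg (bit n d') (opt n d') : ℤ) : ℝ)) / 100000)
    linarith
  cases hε : opt n d' with
  | false =>
    exfalso
    have h6 : opt n d' = true := by
      rw [opt_eq_true]
      refine ⟨bit n d, opt n d, ?_⟩
      rw [hε] at h5
      exact h5
    rw [hε] at h6
    exact Bool.false_ne_true h6
  | true =>
    rw [hε] at h5
    obtain ⟨b, e, h6⟩ := (opt_eq_true n d').1 hε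
    have h7 : (tg b e : ℤ) - tg (bit n d') false - (tg (bit n d) (opt n d) -
        tg (bit n d') true) = 0 := by
      refine sep ?_ ?_
      · have a1 := tg_le b e
        have a2 := tg_le (bit n d') false
        have a3 := tg_le (bit n d) (opt n d)
        have a4 := tg_le (bit n d') true
        have h8 : |((tg b e : ℤ) - tg (bit n d') false - (tg (bit n d) (opt n d) -
            tg (bit n d') true) : ℤ)| ≤ 14 := by
          rw [abs_le]
          omega
        have h9 : ((|((tg b e : ℤ) - tg (bit n d') false - (tg (bit n d) (opt n d) -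
            tg (bit n d') true) : ℤ)| : ℤ) : ℝ) ≤ 14 := by exact_mod_cast h8
        rw [Int.cast_abs] at h9
        linarith
      · have e1 : (1000 * (((tg b e : ℤ) - tg (bit n d') false - (tg (bit n d) (opt n d) -
            tg (bit n d') true) : ℤ) : ℝ)) / 100000 =
            (A * d' - (1000 * (((tg (bit n d) (opt n d) : ℤ) -
              tg (bit n d') true : ℤ) : ℝ)) / 100000) -
            (A * d' - (1000 * (((tg b e : ℤ) - tg (bit n d') false : ℤ) : ℝ)) / 100000) := by
          push_cast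
          ring
        rw [e1]
        refine (nd_sub_le _ _).trans ?_
        have h6' : nd (A * d' - (1000 * (((tg b e : ℤ) - tg (bit n d') false : ℤ) : ℝ)) / 100000) ≤
          8 / 100000 := h6
        linarith
    exact (tg_sidon _ _ _ _ _ h7).2.2.1

lemma Thin.neg {e : ℝ} (h : Thin e) : Thin (-e) := by
  intro i hi
  have h1 := h i hi
  rwa [mul_neg, nd_neg]

lemma thin_zero : Thin 0 := by
  intro i _
  rw [mul_zero]
  refine (nd_le_abs 0).trans ?_
  rw [abs_zero]
  norm_num

/-- **Theorem.** Every Borel symmetric set of thin nonzero reals is the complement of the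
difference set of a Borel set. -/
theorem exists_borel_difference (E : Set ℝ) (hE : MeasurableSet E) (hsymm : ∀ e ∈ E, -e ∈ E)
    (h0 : (0 : ℝ) ∉ E) (hthin : ∀ e ∈ E, Thin e) :
    ∃ B : Set ℝ, MeasurableSet B ∧ ∀ x, (∃ u ∈ B, ∃ v ∈ B, u - v = x) ↔ x ∉ E := by
  have hp : Function.Injective p := fun d d' h => eq_of_thin_00 (by
    rw [h, sub_self]
    exact thin_zero)
  have hq : Function.Injective fun d => p d + d := fun d d' h => eq_of_thin_11 (by
    have h' : p d + d = p d' + d' := h
    rw [h', sub_self]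
    exact thin_zero)
  refine ⟨p '' Eᶜ ∪ (fun d => p d + d) '' Eᶜ, ?_, fun x => ⟨?_, fun hx => ?_⟩⟩
  · exact (hE.compl.image_of_measurable_injOn measurable_p hp.injOn).union
      (hE.compl.image_of_measurable_injOn (measurable_p.add measurable_id) hq.injOn)
  · rintro ⟨u, hu, v, hv, rfl⟩ hx
    have ht := hthin _ hx
    rcases hu with ⟨d, hd, rfl⟩ | ⟨d, hd, rfl⟩ <;> rcases hv with ⟨d', hd', rfl⟩ | ⟨d', hd', rfl⟩
    · obtain rfl := eq_of_thin_00 ht
      rw [sub_self] at hx
      exact h0 hx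
    · change Thin (p d - (p d' + d')) at ht
      obtain rfl := eq_of_thin_01 ht
      apply hd
      have h1 := hsymm _ hx
      change -(p d - (p d + d)) ∈ E at h1
      have e : -(p d - (p d + d)) = d := by ring
      rwa [e] at h1
    · change Thin (p d + d - p d') at ht
      have ht' := ht.neg
      rw [neg_sub] at ht'
      obtain rfl := eq_of_thin_01 ht'
      apply hd'
      change p d' + d' - p d' ∈ E at hx
      rwa [add_sub_cancel_left] at hx
    · change Thin (p d + d - (p d' + d')) at ht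
      obtain rfl := eq_of_thin_11 ht
      change p d + d - (p d + d) ∈ E at hx
      rw [sub_self] at hx
      exact h0 hx
  · exact ⟨p x + x, Or.inr ⟨x, hx, rfl⟩, p x, Or.inl ⟨x, hx, rfl⟩, add_sub_cancel_left _ _⟩

end Pool.Agent.R608.BorelDifference
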