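import Mathlib

/-!
# A finite family of circle homeomorphisms close to the identity that destroys irrational
rotation numbers

For `N, M ≥ 1` there is a family `P` of `M * M` lifts of circle homeomorphisms, all `1 / N`-close
to the identity, such that for every lift `T` of a circle homeomorphism all but `3 * N * M` of the
products `P * T` have a periodic point.
-/

set_option autoImplicit false

open Set

namespace Pool.Agent.R608.CircleFamily

/-- `F` has a periodic point modulo `1`. -/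
def HasPer (F : CircleDeg1Liftˣ) : Prop :=
  ∃ q : ℕ, 0 < q ∧ ∃ (z : ℤ) (x : ℝ), ((F ^ q : CircleDeg1Liftˣ) : CircleDeg1Lift) x = x + z

/-! ## The basic piecewise linear map -/

lemma exists_profile {η c δ : ℝ} (hη : 0 < η) (hη1 : η < 1) (hδ : 0 < δ) (hc : δ < c)
    (hc1 : c + δ < 1) : ∃ q : ℝ → ℝ, StrictMono q ∧ Continuous q ∧ q 0 = 0 ∧ q 1 = 1 ∧
      c - δ ≤ q η ∧ q (1 - η) ≤ c + δ := by
  let s : ℝ := min δ (c - δ)
  have hs : 0 < s := lt_min hδ (by linarith)
  have hs1 : s ≤ δ := min_le_left _ _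
  have hs2 : s ≤ c - δ := min_le_right _ _
  let a1 : ℝ → ℝ := fun x => x / η
  let a2 : ℝ → ℝ := fun x => c - δ + s * (x - η)
  let a3 : ℝ → ℝ := fun x => 1 - (1 - x) / η
  have m1 : StrictMono a1 := fun x y h => div_lt_div_of_pos_right h hη
  have m2 : StrictMono a2 := fun x y h => by
    have := mul_lt_mul_of_pos_left h hs
    change c - δ + s * (x - η) < c - δ + s * (y - η)
    linarith
  have m3 : StrictMono a3 := fun x y h => by
    have : (1 - y) / η < (1 - x) / η := div_lt_div_of_pos_right (by linarith) hη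
    change 1 - (1 - x) / η < 1 - (1 - y) / η
    linarith
  have hdiv : 1 < 1 / η := by rw [lt_div_iff₀ hη]; linarith
  refine ⟨fun x => max (min (a1 x) (a2 x)) (a3 x), ?_, ?_, ?_, ?_, ?_, ?_⟩
  · intro x y h
    exact max_lt_max (min_lt_min (m1 h) (m2 h)) (m3 h)
  · refine Continuous.max (Continuous.min ?_ ?_) ?_
    · exact continuous_id.div_const η
    · exact continuous_const.add (continuous_const.mul (continuous_id.sub continuous_const))
    · exact continuous_const.sub ((continuous_const.sub continuous_id).div_const η)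
  · have h1 : a1 0 = 0 := by simp [a1]
    have h2 : 0 ≤ a2 0 := by
      change 0 ≤ c - δ + s * (0 - η)
      nlinarith
    have h3 : a3 0 ≤ 0 := by
      change 1 - (1 - 0) / η ≤ 0
      rw [sub_zero]; linarith
    change max (min (a1 0) (a2 0)) (a3 0) = 0
    rw [h1, min_eq_left h2, max_eq_left h3]
  · have h3 : a3 1 = 1 := by simp [a3]
    have h2 : a2 1 ≤ 1 := by
      change c - δ + s * (1 - η) ≤ 1
      nlinarith
    change max (min (a1 1) (a2 1)) (a3 1) = 1
    rw [h3]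
    exact max_eq_right ((min_le_right _ _).trans h2)
  · have h1 : a1 η = 1 := by simp [a1, hη.ne']
    have h2 : a2 η = c - δ := by simp [a2]
    change c - δ ≤ max (min (a1 η) (a2 η)) (a3 η)
    rw [h1, h2]
    exact (le_min (by linarith) le_rfl).trans (le_max_left _ _)
  · have h3 : a3 (1 - η) = 0 := by
      change 1 - (1 - (1 - η)) / η = 0
      rw [sub_sub_cancel, div_self hη.ne', sub_self]
    have h2 : a2 (1 - η) ≤ c + δ := by
      change c - δ + s * (1 - η - η) ≤ c + δ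
      nlinarith
    change max (min (a1 (1 - η)) (a2 (1 - η))) (a3 (1 - η)) ≤ c + δ
    rw [h3]
    exact max_le ((min_le_right _ _).trans h2) (by linarith)

/-- The unit given by a profile. -/
lemma exists_unit_of_profile {q : ℝ → ℝ} (hq : StrictMono q) (hc : Continuous q) (h0 : q 0 = 0)
    (h1 : q 1 = 1) : ∃ F : CircleDeg1Liftˣ, ∀ x, F x = ⌊x⌋ + q (Int.fract x) := by
  have hfr : ∀ x : ℝ, 0 ≤ q (Int.fract x) ∧ q (Int.fract x) < 1 := fun x => by
    constructor
    · rw [← h0]; exact hq.monotone (Int.fract_nonneg x)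
    · rw [← h1]; exact hq (Int.fract_lt_one x)
  let F : ℝ → ℝ := fun x => ⌊x⌋ + q (Int.fract x)
  have hmono : StrictMono F := by
    intro x y hxy
    rcases (Int.floor_mono hxy.le).eq_or_lt with h | h
    · have h2 : Int.fract x < Int.fract y := by
        unfold Int.fract
        rw [h]; linarith
      have h3 := hq h2
      change (⌊x⌋ : ℝ) + q (Int.fract x) < ⌊y⌋ + q (Int.fract y)
      rw [h]; linarith
    · have h2 : (⌊x⌋ : ℝ) + 1 ≤ ⌊y⌋ := by exact_mod_cast h
      change (⌊x⌋ : ℝ) + q (Int.fract x) < ⌊y⌋ + q (Int.fract y)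
      linarith [(hfr x).2, (hfr y).1]
  have hadd : ∀ x, F (x + 1) = F x + 1 := by
    intro x
    change (⌊x + 1⌋ : ℝ) + q (Int.fract (x + 1)) = ⌊x⌋ + q (Int.fract x) + 1
    rw [Int.floor_add_one, Int.fract_add_one]
    push_cast; ring
  have hsurj : Function.Surjective F := by
    intro y
    have h2 : Int.fract y ∈ Ico (q 0) (q 1) := by
      rw [h0, h1]; exact ⟨Int.fract_nonneg y, Int.fract_lt_one y⟩
    obtain ⟨x, hx, hxy⟩ := intermediate_value_Ico zero_le_one hc.continuousOn h2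
    refine ⟨⌊y⌋ + x, ?_⟩
    change (⌊(⌊y⌋ : ℝ) + x⌋ : ℝ) + q (Int.fract ((⌊y⌋ : ℝ) + x)) = y
    have h3 : ⌊(⌊y⌋ : ℝ) + x⌋ = ⌊y⌋ := by
      rw [Int.floor_intCast_add, Int.floor_eq_zero_iff.2 hx, add_zero]
    have h4 : Int.fract ((⌊y⌋ : ℝ) + x) = x := by
      rw [Int.fract_intCast_add]
      exact Int.fract_eq_self.2 hx
    rw [h3, h4, hxy]
    exact Int.floor_add_fract y
  let G : CircleDeg1Lift := ⟨⟨F, hmono.monotone⟩, hadd⟩
  have hG : IsUnit G := CircleDeg1Lift.isUnit_iff_bijective.2 ⟨hmono.injective, hsurj⟩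
  obtain ⟨u, hu⟩ := hG
  refine ⟨u, fun x => ?_⟩
  rw [hu]
  rfl

/-- Rescaling: the lift `x ↦ (F (N x - θ) + θ) / N`. -/
lemma exists_rescale (F : CircleDeg1Liftˣ) {N : ℕ} (hN : 0 < N) (θ : ℝ) :
    ∃ P : CircleDeg1Liftˣ, ∀ x, P x = (F (N * x - θ) + θ) / N := by
  have hN' : (0 : ℝ) < N := by exact_mod_cast hN
  let P : ℝ → ℝ := fun x => (F (N * x - θ) + θ) / N
  have hinj : Function.Injective (F : ℝ → ℝ) := fun x y h => by
    rw [← CircleDeg1Lift.units_inv_apply_apply F x, h, CircleDeg1Lift.units_inv_apply_apply]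
  have hmono : Monotone P := by
    intro x y hxy
    have h1 : F (N * x - θ) ≤ F (N * y - θ) := by
      refine (F : CircleDeg1Lift).monotone ?_
      have := mul_le_mul_of_nonneg_left hxy hN'.le
      linarith
    exact div_le_div_of_nonneg_right (by linarith) hN'.le
  have hadd : ∀ x, P (x + 1) = P x + 1 := by
    intro x
    change (F (N * (x + 1) - θ) + θ) / N = (F (N * x - θ) + θ) / N + 1
    have h1 : (N : ℝ) * (x + 1) - θ = (N * x - θ) + N := by ring
    rw [h1, CircleDeg1Lift.map_add_nat]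
    field_simp
    ring
  have hbij : Function.Bijective P := by
    constructor
    · intro x y h
      have h1 : F (N * x - θ) + θ = F (N * y - θ) + θ := by
        have h2 : P x * N = P y * N := by rw [h]
        change (F (N * x - θ) + θ) / N * N = (F (N * y - θ) + θ) / N * N at h2
        rwa [div_mul_cancel₀ _ hN'.ne', div_mul_cancel₀ _ hN'.ne'] at h2
      have h3 := hinj (add_right_cancel h1)
      have h4 : (N : ℝ) * x = N * y := by linarith
      exact mul_left_cancel₀ hN'.ne' h4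
    · intro y
      refine ⟨((F⁻¹ : CircleDeg1Liftˣ) (N * y - θ) + θ) / N, ?_⟩
      change (F (N * (((F⁻¹ : CircleDeg1Liftˣ) (N * y - θ) + θ) / N) - θ) + θ) / N = y
      have h1 : (N : ℝ) * (((F⁻¹ : CircleDeg1Liftˣ) (N * y - θ) + θ) / N) - θ =
          (F⁻¹ : CircleDeg1Liftˣ) (N * y - θ) := by
        rw [mul_div_cancel₀ _ hN'.ne']; ring
      rw [h1, CircleDeg1Lift.units_apply_inv_apply]
      field_simp
      ring
  let G : CircleDeg1Lift := ⟨⟨P, hmono⟩, hadd⟩
  have hG : IsUnit G := CircleDeg1Lift.isUnit_iff_bijective.2 hbij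
  obtain ⟨u, hu⟩ := hG
  refine ⟨u, fun x => ?_⟩
  rw [hu]
  rfl

/-! ## The family -/

/-- The maps of the family: sources at the points `(i M + l + 1/2) / (N M)` and sinks at the points
`(i M + l + r + 1) / (N M)`. -/
lemma exists_family_map {N M : ℕ} (hN : 0 < N) (hM : 0 < M) {l r : ℕ} (hr : r < M) :
    ∃ P : CircleDeg1Liftˣ, (∀ x, |P x - x| ≤ 1 / N) ∧
      ∀ (i : ℤ) (x : ℝ), ((i * M + l : ℤ) + 1 / 2) / (N * M) + 1 / (4 * (N * M)) ≤ x →
        x ≤ (((i + 1) * M + l : ℤ) + 1 / 2) / (N * M : ℝ) - 1 / (4 * (N * M)) →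
        ((i * M + l + r + 1 : ℤ) : ℝ) / (N * M) - 1 / (4 * (N * M)) ≤ P x ∧
          P x ≤ ((i * M + l + r + 1 : ℤ) : ℝ) / (N * M) + 1 / (4 * (N * M)) := by
  have hN' : (0 : ℝ) < N := by exact_mod_cast hN
  have hM' : (0 : ℝ) < M := by exact_mod_cast hM
  have hM1 : (1 : ℝ) ≤ M := by exact_mod_cast hM
  have hr' : (r : ℝ) + 1 ≤ M := by exact_mod_cast hr
  have hr0 : (0 : ℝ) ≤ r := Nat.cast_nonneg r
  have e4 : (0 : ℝ) < 1 / (4 * M) := by positivity
  obtain ⟨q, hq, hqc, hq0, hq1, hq2, hq3⟩ := exists_profile (η := 1 / (4 * M))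
    (c := (r + 1 / 2) / M) (δ := 1 / (4 * M)) e4
    (by rw [div_lt_one (by positivity)]; linarith) e4
    (by
      rw [div_lt_div_iff₀ (by positivity) hM']
      nlinarith)
    (by
      rw [div_add_div _ _ hM'.ne' (by positivity), div_lt_one (by positivity)]
      nlinarith)
  obtain ⟨F, hF⟩ := exists_unit_of_profile hq hqc hq0 hq1
  obtain ⟨P, hP⟩ := exists_rescale F hN ((l + 1 / 2) / M)
  have hqfr : ∀ x : ℝ, 0 ≤ q (Int.fract x) ∧ q (Int.fract x) < 1 := fun x => by
    constructor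
    · rw [← hq0]; exact hq.monotone (Int.fract_nonneg x)
    · rw [← hq1]; exact hq (Int.fract_lt_one x)
  refine ⟨P, fun x => ?_, fun i x hx1 hx2 => ?_⟩
  · set y : ℝ := N * x - (l + 1 / 2) / M with hy
    have h1 : P x - x = (F y - y) / N := by
      rw [hP, eq_div_iff hN'.ne', sub_mul, div_mul_cancel₀ _ hN'.ne', ← hy]
      rw [hy]; ring
    have h2 : F y - y = q (Int.fract y) - Int.fract y := by
      rw [hF]
      have := Int.floor_add_fract y
      linarith
    rw [h1, abs_div, abs_of_pos hN']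
    refine div_le_div_of_nonneg_right ?_ hN'.le
    rw [h2, abs_le]
    constructor
    · linarith [(hqfr y).1, Int.fract_lt_one y]
    · linarith [(hqfr y).2, Int.fract_nonneg y]
  · set y : ℝ := N * x - (l + 1 / 2) / M with hy
    have hy1 : (i : ℝ) + 1 / (4 * M) ≤ y := by
      have h1 : (N : ℝ) * (((i * M + l : ℤ) + 1 / 2) / (N * M) + 1 / (4 * (N * M))) ≤ N * x :=
        mul_le_mul_of_nonneg_left hx1 hN'.le
      have h2 : (N : ℝ) * (((i * M + l : ℤ) + 1 / 2) / (N * M) + 1 / (4 * (N * M))) =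
          i + (l + 1 / 2) / M + 1 / (4 * M) := by
        push_cast
        field_simp
        ring
      rw [hy]; linarith
    have hy2 : y ≤ (i : ℝ) + 1 - 1 / (4 * M) := by
      have h1 : (N : ℝ) * x ≤
          N * ((((i + 1) * M + l : ℤ) + 1 / 2) / (N * M : ℝ) - 1 / (4 * (N * M))) :=
        mul_le_mul_of_nonneg_left hx2 hN'.le
      have h2 : (N : ℝ) * ((((i + 1) * M + l : ℤ) + 1 / 2) / (N * M : ℝ) - 1 / (4 * (N * M))) =
          i + 1 + (l + 1 / 2) / M - 1 / (4 * M) := by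
        push_cast
        field_simp
        ring
      rw [hy]; linarith
    have hfl : ⌊y⌋ = i := by
      rw [Int.floor_eq_iff]
      constructor <;> linarith
    have hfr : Int.fract y = y - i := by
      rw [Int.fract, hfl]
    have h3 : 1 / (4 * M) ≤ Int.fract y := by rw [hfr]; linarith
    have h4 : Int.fract y ≤ 1 - 1 / (4 * M) := by rw [hfr]; linarith
    have h5 : (r + 1 / 2) / M - 1 / (4 * M) ≤ q (Int.fract y) := hq2.trans (hq.monotone h3)
    have h6 : q (Int.fract y) ≤ (r + 1 / 2) / M + 1 / (4 * M) := (hq.monotone h4).trans hq3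
    have h7 : P x = (i + q (Int.fract y) + (l + 1 / 2) / M) / N := by
      rw [hP, ← hy, hF, hfl]
    rw [h7, le_div_iff₀ hN', div_le_iff₀ hN']
    constructor
    · have h8 : (((i * M + l + r + 1 : ℤ) : ℝ) / (N * M) - 1 / (4 * (N * M))) * N =
          i + ((r + 1 / 2) / M - 1 / (4 * M)) + (l + 1 / 2) / M := by
        push_cast
        field_simp
        ring
      rw [h8]; linarith
    · have h8 : (((i * M + l + r + 1 : ℤ) : ℝ) / (N * M) + 1 / (4 * (N * M))) * N =
          i + ((r + 1 / 2) / M + 1 / (4 * M)) + (l + 1 / 2) / M := by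
        push_cast
        field_simp
        ring
      rw [h8]; linarith

/-- The bad pairs for `T`. -/
def Bad (N M : ℕ) (T : CircleDeg1Liftˣ) (l r : ℕ) : Prop :=
  ∃ m n : ℤ, m ≡ l + r + 1 [ZMOD M] ∧ n ≡ l [ZMOD M] ∧
    T ((m : ℝ) / (N * M) - 1 / (4 * (N * M))) - 1 / (4 * (N * M)) < (n + 1 / 2) / (N * M) ∧
    (n + 1 / 2) / (N * M) < T ((m : ℝ) / (N * M) + 1 / (4 * (N * M))) + 1 / (4 * (N * M))

lemma unit_continuous (T : CircleDeg1Liftˣ) : Continuous (T : ℝ → ℝ) := by
  rw [CircleDeg1Lift.continuous_iff_surjective]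
  exact fun y => ⟨(T⁻¹ : CircleDeg1Liftˣ) y, CircleDeg1Lift.units_apply_inv_apply T y⟩

/-- Interval maps with shifts have periodic points. -/
lemma hasPer_of_intervals (F : CircleDeg1Liftˣ) {N : ℕ} (hN : 0 < N) (G : ℤ → ℝ) {δ : ℝ}
    (hδ : 0 ≤ δ) (hG : ∀ j z : ℤ, G (j + N * z) = G j + z) (σ : ℤ → ℤ)
    (hσ : ∀ j x, G j - δ ≤ x → x ≤ G j + δ → G (σ j) - δ ≤ F x ∧ F x ≤ G (σ j) + δ) :
    HasPer F := by
  have : NeZero N := ⟨hN.ne'⟩
  let s : ℕ → ℤ := fun t => σ^[t] 0
  have hs : ∀ t, s (t + 1) = σ (s t) := fun t => Function.iterate_succ_apply' σ t 0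
  have hit : ∀ (t u : ℕ) (x : ℝ), G (s t) - δ ≤ x → x ≤ G (s t) + δ →
      G (s (t + u)) - δ ≤ ((F ^ u : CircleDeg1Liftˣ) : CircleDeg1Lift) x ∧
        ((F ^ u : CircleDeg1Liftˣ) : CircleDeg1Lift) x ≤ G (s (t + u)) + δ := by
    intro t u
    induction u with
    | zero =>
      intro x h1 h2
      exact ⟨h1, h2⟩
    | succ u ih =>
      intro x h1 h2
      obtain ⟨h3, h4⟩ := ih x h1 h2
      rw [pow_succ', ← add_assoc, hs]
      exact hσ _ _ h3 h4
  obtain ⟨a, b, hab, habs⟩ := Finite.exists_ne_map_eq_of_infinite fun t : ℕ => (s t : ZMod N)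
  wlog hlt : a < b generalizing a b
  · exact this b a hab.symm habs.symm (lt_of_le_of_ne (not_lt.1 hlt) hab.symm)
  obtain ⟨z, hz⟩ := (ZMod.intCast_eq_intCast_iff_dvd_sub (s a) (s b) N).1 habs
  have hsb : s b = s a + N * z := by linarith
  have hcont : ContinuousOn (fun x => ((F ^ (b - a) : CircleDeg1Liftˣ) : CircleDeg1Lift) x - z)
      (Icc (G (s a) - δ) (G (s a) + δ)) :=
    ((unit_continuous (F ^ (b - a))).sub continuous_const).continuousOn
  have hmaps : MapsTo (fun x => ((F ^ (b - a) : CircleDeg1Liftˣ) : CircleDeg1Lift) x - z)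
      (Icc (G (s a) - δ) (G (s a) + δ)) (Icc (G (s a) - δ) (G (s a) + δ)) := by
    intro x hx
    obtain ⟨h1, h2⟩ := hit a (b - a) x hx.1 hx.2
    rw [Nat.add_sub_cancel' hlt.le, hsb, hG] at h1 h2
    constructor
    · change _ ≤ ((F ^ (b - a) : CircleDeg1Liftˣ) : CircleDeg1Lift) x - z
      linarith
    · change ((F ^ (b - a) : CircleDeg1Liftˣ) : CircleDeg1Lift) x - z ≤ _
      linarith
  obtain ⟨c, -, hc⟩ := exists_mem_Icc_isFixedPt_of_mapsTo hcont (by linarith) hmaps
  have hc' : ((F ^ (b - a) : CircleDeg1Liftˣ) : CircleDeg1Lift) c - z = c := hc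
  exact ⟨b - a, by omega, z, c, by linarith⟩

lemma hasPer_of_not_bad {N M : ℕ} (hN : 0 < N) (hM : 0 < M) {l r : ℕ}
    {P : CircleDeg1Liftˣ} (hP : ∀ (i : ℤ) (x : ℝ),
        ((i * M + l : ℤ) + 1 / 2) / (N * M) + 1 / (4 * (N * M)) ≤ x →
        x ≤ (((i + 1) * M + l : ℤ) + 1 / 2) / (N * M : ℝ) - 1 / (4 * (N * M)) →
        ((i * M + l + r + 1 : ℤ) : ℝ) / (N * M) - 1 / (4 * (N * M)) ≤ P x ∧
          P x ≤ ((i * M + l + r + 1 : ℤ) : ℝ) / (N * M) + 1 / (4 * (N * M)))
    {T : CircleDeg1Liftˣ} (hT : ¬ Bad N M T l r) : HasPer (P * T) := by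
  have hN' : (0 : ℝ) < N := by exact_mod_cast hN
  have hM' : (0 : ℝ) < M := by exact_mod_cast hM
  have hK : (0 : ℝ) < N * M := by positivity
  have hδ : (0 : ℝ) < 1 / (4 * (N * M)) := by positivity
  let G : ℤ → ℝ := fun j => ((j * M + l + r + 1 : ℤ) : ℝ) / (N * M)
  have hstep : ∀ j : ℤ, ∃ i : ℤ, ∀ x, G j - 1 / (4 * (N * M)) ≤ x →
      x ≤ G j + 1 / (4 * (N * M)) → G i - 1 / (4 * (N * M)) ≤ (P * T : CircleDeg1Liftˣ) x ∧
        (P * T : CircleDeg1Liftˣ) x ≤ G i + 1 / (4 * (N * M)) := by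
    intro j
    let v : ℝ := T (G j - 1 / (4 * (N * M))) - 1 / (4 * (N * M))
    let i : ℤ := ⌊(N * M * v - l - 1 / 2) / M⌋
    have hi1 : ((i * M + l : ℤ) + 1 / 2) / (N * M) ≤ v := by
      have h1 : (i : ℝ) ≤ (N * M * v - l - 1 / 2) / M := Int.floor_le _
      rw [le_div_iff₀ hM'] at h1
      rw [div_le_iff₀ hK]
      push_cast
      linarith
    have hi2 : v < (((i + 1) * M + l : ℤ) + 1 / 2) / (N * M : ℝ) := by
      have h1 : (N * M * v - l - 1 / 2) / M < (i : ℝ) + 1 := Int.lt_floor_add_one _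
      rw [div_lt_iff₀ hM'] at h1
      rw [lt_div_iff₀ hK]
      push_cast
      linarith
    have hi3 : T (G j + 1 / (4 * (N * M))) + 1 / (4 * (N * M)) ≤
        (((i + 1) * M + l : ℤ) + 1 / 2) / (N * M : ℝ) := by
      by_contra hcon
      push Not at hcon
      refine hT ⟨j * M + l + r + 1, (i + 1) * M + l, ?_, ?_, hi2, hcon⟩
      · have h1 : (j * M + l + r + 1 : ℤ) = (l + r + 1) + M * j := by ring
        rw [h1]
        exact Int.modEq_iff_dvd.2 ⟨-j, by ring⟩
      · have h1 : ((i + 1) * M + l : ℤ) = l + M * (i + 1) := by ring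
        rw [h1]
        exact Int.modEq_iff_dvd.2 ⟨-(i + 1), by ring⟩
    refine ⟨i, fun x hx1 hx2 => ?_⟩
    have h1 : T (G j - 1 / (4 * (N * M))) ≤ T x := (T : CircleDeg1Lift).monotone hx1
    have h2 : T x ≤ T (G j + 1 / (4 * (N * M))) := (T : CircleDeg1Lift).monotone hx2
    have hv : v = T (G j - 1 / (4 * (N * M))) - 1 / (4 * (N * M)) := rfl
    have h3 := hP i (T x) (by linarith [hi1]) (by linarith)
    exact h3
  choose σ hσ using hstep
  refine hasPer_of_intervals (P * T) hN G hδ.le ?_ σ hσ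
  intro j z
  change ((((j + N * z) * M + l + r + 1 : ℤ)) : ℝ) / (N * M) =
    ((j * M + l + r + 1 : ℤ) : ℝ) / (N * M) + z
  push_cast
  field_simp
  ring

/-! ## Counting the bad pairs -/

/-- The finite set of the integers `n` with `α < n < β`. -/
noncomputable def between (α β : ℝ) : Finset ℤ := Finset.Icc (⌊α⌋ + 1) (⌈β⌉ - 1)

lemma mem_between {α β : ℝ} {n : ℤ} (h1 : α < n) (h2 : n < β) : n ∈ between α β := by
  unfold between
  rw [Finset.mem_Icc]
  constructor
  · have := Int.floor_lt.2 h1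
    omega
  · have := Int.lt_ceil.2 h2
    omega

lemma card_between {α β : ℝ} (h : α ≤ β) : ((between α β).card : ℝ) ≤ β - α + 1 := by
  unfold between
  rw [Int.card_Icc]
  have h1 := Int.lt_floor_add_one α
  have h2 := Int.ceil_lt_add_one β
  have h3 : (((⌈β⌉ - 1 + 1 - (⌊α⌋ + 1)).toNat : ℤ) : ℝ) ≤ β - α + 1 := by
    rw [Int.toNat_eq_max]
    push_cast
    refine max_le ?_ (by linarith)
    linarith
  exact_mod_cast h3

lemma not_bad_card {N M : ℕ} (hN : 0 < N) (hM : 0 < M) (T : CircleDeg1Liftˣ)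
    (S : Finset (ℕ × ℕ)) (hS : ∀ p ∈ S, p.1 < M ∧ p.2 < M ∧ Bad N M T p.1 p.2) :
    S.card ≤ 3 * (N * M) := by
  classical
  have hN' : (0 : ℝ) < N := by exact_mod_cast hN
  have hM' : (0 : ℝ) < M := by exact_mod_cast hM
  have hK : (0 : ℝ) < N * M := by positivity
  have hKn : 0 < N * M := Nat.mul_pos hN hM
  let A : ℕ → Finset ℤ := fun m =>
    between (N * M * (T ((m : ℝ) / (N * M) - 1 / (4 * (N * M))) - 1 / (4 * (N * M))) - 1 / 2)
      (N * M * (T ((m : ℝ) / (N * M) + 1 / (4 * (N * M))) + 1 / (4 * (N * M))) - 1 / 2)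
  let W : Finset (Σ _ : ℕ, ℤ) := (Finset.range (N * M)).sigma A
  let f : (Σ _ : ℕ, ℤ) → ℕ × ℕ := fun w =>
    ((w.2 % M).toNat, (((w.1 : ℤ) - w.2 - 1) % M).toNat)
  have hMz : (M : ℤ) ≠ 0 := by exact_mod_cast hM.ne'
  -- every bad pair comes from `W`
  have hsub : S ⊆ W.image f := by
    intro p hp
    obtain ⟨hl, hr, m, n, hm, hn, h1, h2⟩ := hS p hp
    -- reduce `m` modulo `N * M`
    let z : ℤ := m / ((N * M : ℕ) : ℤ)
    let m' : ℤ := m % ((N * M : ℕ) : ℤ)
    have hKz : ((N * M : ℕ) : ℤ) ≠ 0 := by exact_mod_cast hKn.ne'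
    have hm0 : 0 ≤ m' := Int.emod_nonneg m hKz
    have hm1 : m' < ((N * M : ℕ) : ℤ) := Int.emod_lt_of_pos m (by exact_mod_cast hKn)
    have hmz : m = m' + ((N * M : ℕ) : ℤ) * z := (Int.emod_add_mul_ediv m _).symm
    let n' : ℤ := n - ((N * M : ℕ) : ℤ) * z
    have hnz : n = n' + ((N * M : ℕ) : ℤ) * z := by simp [n']
    have hmc : (m : ℝ) = m' + N * M * z := by
      have : ((m : ℤ) : ℝ) = ((m' + ((N * M : ℕ) : ℤ) * z : ℤ) : ℝ) := by rw [← hmz]
      push_cast at this
      exact this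
    have hnc : (n : ℝ) = n' + N * M * z := by
      have : ((n : ℤ) : ℝ) = ((n' + ((N * M : ℕ) : ℤ) * z : ℤ) : ℝ) := by rw [← hnz]
      push_cast at this
      exact this
    have e1 : (m : ℝ) / (N * M) - 1 / (4 * (N * M)) =
        ((m' : ℝ) / (N * M) - 1 / (4 * (N * M))) + z := by
      rw [hmc]; field_simp; ring
    have e2 : (m : ℝ) / (N * M) + 1 / (4 * (N * M)) =
        ((m' : ℝ) / (N * M) + 1 / (4 * (N * M))) + z := by
      rw [hmc]; field_simp; ring
    have e3 : ((n : ℝ) + 1 / 2) / (N * M) = (n' + 1 / 2) / (N * M) + z := by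
      rw [hnc]; field_simp; ring
    rw [e1, e3, CircleDeg1Lift.map_add_int] at h1
    rw [e2, e3, CircleDeg1Lift.map_add_int] at h2
    have h1' : T ((m' : ℝ) / (N * M) - 1 / (4 * (N * M))) - 1 / (4 * (N * M)) <
        (n' + 1 / 2) / (N * M) := by linarith
    have h2' : (n' + 1 / 2) / (N * M) <
        T ((m' : ℝ) / (N * M) + 1 / (4 * (N * M))) + 1 / (4 * (N * M)) := by linarith
    rw [lt_div_iff₀ hK] at h1'
    rw [div_lt_iff₀ hK] at h2'
    have hmt : ((m'.toNat : ℕ) : ℤ) = m' := Int.toNat_of_nonneg hm0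
    have hmtr : ((m'.toNat : ℕ) : ℝ) = (m' : ℝ) := by
      have : (((m'.toNat : ℕ) : ℤ) : ℝ) = (m' : ℝ) := by rw [hmt]
      exact_mod_cast this
    have hdvd : (M : ℤ) ∣ ((N * M : ℕ) : ℤ) * z := by
      push_cast
      exact ⟨N * z, by ring⟩
    have hmod1 : m' ≡ p.1 + p.2 + 1 [ZMOD M] := by
      refine Int.ModEq.trans ?_ hm
      refine Int.modEq_iff_dvd.2 ?_
      rw [hmz, add_sub_cancel_left]
      exact hdvd
    have hmod2 : n' ≡ p.1 [ZMOD M] := by
      refine Int.ModEq.trans ?_ hn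
      refine Int.modEq_iff_dvd.2 ?_
      nth_rewrite 1 [hnz]
      rw [add_sub_cancel_left]
      exact hdvd
    refine Finset.mem_image.2 ⟨⟨m'.toNat, n'⟩, ?_, ?_⟩
    · refine Finset.mem_sigma.2 ⟨?_, ?_⟩
      · rw [Finset.mem_range]
        have : ((m'.toNat : ℕ) : ℤ) < ((N * M : ℕ) : ℤ) := by rw [hmt]; exact hm1
        exact_mod_cast this
      · refine mem_between ?_ ?_
        · change (N * M * (T (((m'.toNat : ℕ) : ℝ) / (N * M) - 1 / (4 * (N * M))) -
            1 / (4 * (N * M))) - 1 / 2 : ℝ) < n'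
          rw [hmtr]
          linarith
        · change (n' : ℝ) < (N * M * (T (((m'.toNat : ℕ) : ℝ) / (N * M) + 1 / (4 * (N * M))) +
            1 / (4 * (N * M))) - 1 / 2 : ℝ)
          rw [hmtr]
          linarith
    · have k1 : n' % M = p.1 := by
        rw [hmod2, Int.emod_eq_of_lt (by positivity) (by exact_mod_cast hl)]
      have k2 : (((m'.toNat : ℕ) : ℤ) - n' - 1) % M = p.2 := by
        rw [hmt]
        have h5 : m' - n' - 1 ≡ (p.1 + p.2 + 1) - p.1 - 1 [ZMOD M] :=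
          (hmod1.sub hmod2).sub_right 1
        have h6 : ((p.1 : ℤ) + p.2 + 1) - p.1 - 1 = p.2 := by ring
        rw [h6] at h5
        rw [h5, Int.emod_eq_of_lt (by positivity) (by exact_mod_cast hr)]
      change ((n' % M).toNat, ((((m'.toNat : ℕ) : ℤ) - n' - 1) % M).toNat) = p
      rw [k1, k2]
      simp
  have hcard : S.card ≤ ∑ m ∈ Finset.range (N * M), (A m).card := by
    calc S.card ≤ (W.image f).card := Finset.card_le_card hsub
      _ ≤ W.card := Finset.card_image_le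
      _ = _ := Finset.card_sigma _ _
  have hreal : (S.card : ℝ) ≤ 3 * (N * M) := by
    let u : ℕ → ℝ := fun m => T (((m : ℝ) - 1 / 2) / (N * M))
    have hA : ∀ m ∈ Finset.range (N * M), ((A m).card : ℝ) ≤
        N * M * (u (m + 1) - u m) + (1 / 2 + 1) := by
      intro m _
      have h1 : T ((m : ℝ) / (N * M) - 1 / (4 * (N * M))) ≤
          T ((m : ℝ) / (N * M) + 1 / (4 * (N * M))) := by
        refine (T : CircleDeg1Lift).monotone ?_
        have : (0 : ℝ) < 1 / (4 * (N * M)) := by positivity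
        linarith
      have hpos : (0 : ℝ) < 1 / (4 * (N * M)) := by positivity
      have h2 := card_between (α := N * M * (T ((m : ℝ) / (N * M) - 1 / (4 * (N * M))) -
        1 / (4 * (N * M))) - 1 / 2) (β := N * M * (T ((m : ℝ) / (N * M) + 1 / (4 * (N * M))) +
        1 / (4 * (N * M))) - 1 / 2) (by
          have := mul_le_mul_of_nonneg_left (show T ((m : ℝ) / (N * M) - 1 / (4 * (N * M))) -
            1 / (4 * (N * M)) ≤ T ((m : ℝ) / (N * M) + 1 / (4 * (N * M))) +
            1 / (4 * (N * M)) by linarith) hK.le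
          linarith)
      refine h2.trans ?_
      have h3 : T ((m : ℝ) / (N * M) + 1 / (4 * (N * M))) ≤ u (m + 1) := by
        refine (T : CircleDeg1Lift).monotone ?_
        push_cast
        rw [div_add_div _ _ hK.ne' (by positivity), div_le_div_iff₀ (by positivity) hK]
        nlinarith [hK]
      have h4 : u m ≤ T ((m : ℝ) / (N * M) - 1 / (4 * (N * M))) := by
        refine (T : CircleDeg1Lift).monotone ?_
        rw [div_sub_div _ _ hK.ne' (by positivity), div_le_div_iff₀ hK (by positivity)]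
        nlinarith [hK]
      have h5 : N * M * (1 / (4 * (N * M)) : ℝ) = 1 / 4 := by field_simp
      have h6 := mul_le_mul_of_nonneg_left h3 hK.le
      have h7 := mul_le_mul_of_nonneg_left h4 hK.le
      nlinarith
    have h1 : (S.card : ℝ) ≤ ∑ m ∈ Finset.range (N * M), ((A m).card : ℝ) := by
      exact_mod_cast hcard
    have h2 := Finset.sum_le_sum hA
    rw [Finset.sum_add_distrib, ← Finset.mul_sum, Finset.sum_range_sub, Finset.sum_const,
      Finset.card_range, nsmul_eq_mul] at h2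
    have h3 : u (N * M) - u 0 = 1 := by
      change T ((((N * M : ℕ) : ℝ) - 1 / 2) / (N * M)) - T ((((0 : ℕ) : ℝ) - 1 / 2) / (N * M)) = 1
      have h4 : (((N * M : ℕ) : ℝ) - 1 / 2) / (N * M) =
          (((0 : ℕ) : ℝ) - 1 / 2) / (N * M) + 1 := by
        push_cast
        field_simp
        ring
      rw [h4, CircleDeg1Lift.map_add_one, add_sub_cancel_left]
    rw [h3] at h2
    push_cast at h2
    nlinarith
  exact_mod_cast hreal

/-- **The finite family.** -/
theorem exists_family {N : ℕ} (hN : 0 < N) (a : ℕ) : ∃ (k : ℕ) (P : ℕ → CircleDeg1Liftˣ),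
    0 < k ∧ (∀ j x, |P j x - x| ≤ 1 / N) ∧
      ∀ (T : CircleDeg1Liftˣ) (S : Finset ℕ), (∀ j ∈ S, j < k ∧ ¬ HasPer (P j * T)) →
        S.card * a ≤ k := by
  classical
  let M : ℕ := 3 * N * (a + 1)
  have hM : 0 < M := by positivity
  have hex : ∀ j : ℕ, ∃ P : CircleDeg1Liftˣ, (∀ x, |P x - x| ≤ 1 / N) ∧
      ∀ (i : ℤ) (x : ℝ), ((i * M + (j / M : ℕ) : ℤ) + 1 / 2) / (N * M) + 1 / (4 * (N * M)) ≤ x →
        x ≤ (((i + 1) * M + (j / M : ℕ) : ℤ) + 1 / 2) / (N * M : ℝ) - 1 / (4 * (N * M)) →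
        ((i * M + (j / M : ℕ) + (j % M : ℕ) + 1 : ℤ) : ℝ) / (N * M) - 1 / (4 * (N * M)) ≤ P x ∧
          P x ≤ ((i * M + (j / M : ℕ) + (j % M : ℕ) + 1 : ℤ) : ℝ) / (N * M) +
            1 / (4 * (N * M)) := fun j =>
    exists_family_map hN hM (l := j / M) (r := j % M) (Nat.mod_lt j hM)
  choose P hP1 hP2 using hex
  refine ⟨M * M, P, Nat.mul_pos hM hM, hP1, fun T S hS => ?_⟩
  let f : ℕ → ℕ × ℕ := fun j => (j / M, j % M)
  have hf : Function.Injective f := by
    intro i j hij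
    have h1 : i / M = j / M := congrArg Prod.fst hij
    have h2 : i % M = j % M := congrArg Prod.snd hij
    rw [← Nat.div_add_mod i M, h1, h2, Nat.div_add_mod]
  have hcard := not_bad_card hN hM T (S.image f) (by
    intro p hp
    obtain ⟨j, hj, rfl⟩ := Finset.mem_image.1 hp
    obtain ⟨hjk, hper⟩ := hS j hj
    refine ⟨(Nat.div_lt_iff_lt_mul hM).2 hjk, Nat.mod_lt j hM, ?_⟩
    by_contra hbad
    exact hper (hasPer_of_not_bad hN hM (hP2 j) hbad))
  rw [Finset.card_image_of_injective _ hf] at hcard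
  calc S.card * a ≤ 3 * (N * M) * a := Nat.mul_le_mul_right a hcard
    _ = (3 * N * a) * M := by ring
    _ ≤ M * M := Nat.mul_le_mul_right M (by
      change 3 * N * a ≤ 3 * N * (a + 1)
      exact Nat.mul_le_mul_left _ (Nat.le_succ a))

end Pool.Agent.R608.CircleFamily
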