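import Mathlib
import Pool.Agent.R608.CircleFamily

/-!
# Infinite random products of circle homeomorphisms
-/

set_option autoImplicit false

open Set Filter Topology
open Pool.Agent.R608.CircleFamily

namespace Pool.Agent.R608.CircleLimit

/-- The product `P 0 (s 0) * ... * P (n - 1) (s (n - 1))`. -/
noncomputable def prd (P : ℕ → ℕ → CircleDeg1Liftˣ) (s : ℕ → ℕ) : ℕ → CircleDeg1Liftˣ
  | 0 => 1
  | n + 1 => prd P s n * P n (s n)

lemma exists_modulus_one (F : CircleDeg1Liftˣ) {ε : ℝ} (hε : 0 < ε) :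
    ∃ N : ℕ, 0 < N ∧ ∀ x y : ℝ, |x - y| ≤ 1 / N → |F x - F y| ≤ ε := by
  have hu : UniformContinuousOn (F : ℝ → ℝ) (Icc (-1) 2) :=
    isCompact_Icc.uniformContinuousOn_of_continuous (unit_continuous F).continuousOn
  obtain ⟨δ, hδ, h⟩ := Metric.uniformContinuousOn_iff.1 hu ε hε
  obtain ⟨N, hN⟩ := exists_nat_one_div_lt (lt_min hδ one_pos)
  refine ⟨N + 1, Nat.succ_pos N, fun x y hxy => ?_⟩
  push_cast at hxy
  have h1 : |x - y| < δ := lt_of_le_of_lt hxy (lt_of_lt_of_le hN (min_le_left _ _))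
  have h2 : |x - y| < 1 := lt_of_le_of_lt hxy (lt_of_lt_of_le hN (min_le_right _ _))
  rw [abs_lt] at h2
  have e1 : F (x - ⌊x⌋) = F x - ⌊x⌋ := (F : CircleDeg1Lift).map_sub_int x ⌊x⌋
  have e2 : F (y - ⌊x⌋) = F y - ⌊x⌋ := (F : CircleDeg1Lift).map_sub_int y ⌊x⌋
  have h3 := Int.floor_le x
  have h4 := Int.lt_floor_add_one x
  have h5 := h (x - ⌊x⌋) (by constructor <;> linarith) (y - ⌊x⌋) (by constructor <;> linarith)
    (by rw [Real.dist_eq, sub_sub_sub_cancel_right]; exact h1)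
  rw [Real.dist_eq, e1, e2, sub_sub_sub_cancel_right] at h5
  exact h5.le

lemma exists_modulus (𝓕 : Finset CircleDeg1Liftˣ) {ε : ℝ} (hε : 0 < ε) :
    ∃ N : ℕ, 0 < N ∧ ∀ F ∈ 𝓕, ∀ x y : ℝ, |x - y| ≤ 1 / N → |F x - F y| ≤ ε := by
  classical
  induction 𝓕 using Finset.induction_on with
  | empty => exact ⟨1, Nat.one_pos, by simp⟩
  | insert F 𝓕 _ ih =>
    obtain ⟨N1, hN1, h1⟩ := ih
    obtain ⟨N2, hN2, h2⟩ := exists_modulus_one F hε
    refine ⟨N1 + N2, by omega, fun G hG x y hxy => ?_⟩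
    have hN1' : (0 : ℝ) < N1 := by exact_mod_cast hN1
    have hN2' : (0 : ℝ) < N2 := by exact_mod_cast hN2
    rw [Finset.mem_insert] at hG
    rcases hG with rfl | hG
    · refine h2 x y (hxy.trans ?_)
      push_cast
      exact one_div_le_one_div_of_le hN2' (by linarith)
    · refine h1 G hG x y (hxy.trans ?_)
      push_cast
      exact one_div_le_one_div_of_le hN1' (by linarith)

/-- The data of the random product. -/
structure Scheme where
  /-- the number of choices at each stage -/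
  k : ℕ → ℕ
  /-- the maps -/
  P : ℕ → ℕ → CircleDeg1Liftˣ
  /-- the distance to the identity -/
  r : ℕ → ℝ
  k_pos : ∀ n, 0 < k n
  r_le : ∀ n, r n ≤ (1 / 2) ^ n
  close : ∀ n j x, |P n j x - x| ≤ r n
  modulus : ∀ n (s : ℕ → ℕ), (∀ i < n, s i < k i) → ∀ x y : ℝ, |x - y| ≤ r n →
    |prd P s n x - prd P s n y| ≤ (1 / 2) ^ n
  few : ∀ n (T : CircleDeg1Liftˣ) (S : Finset ℕ), (∀ j ∈ S, j < k n ∧ ¬ HasPer (P n j * T)) →
    S.card * 2 ^ n ≤ k n

theorem exists_scheme : Nonempty Scheme := by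
  classical
  have hstep : ∀ (n : ℕ) (𝓕 : Finset CircleDeg1Liftˣ), ∃ (N k : ℕ) (P : ℕ → CircleDeg1Liftˣ),
      (1 : ℝ) / N ≤ (1 / 2) ^ n ∧
      (∀ F ∈ 𝓕, ∀ x y : ℝ, |x - y| ≤ 1 / N → |F x - F y| ≤ (1 / 2) ^ n) ∧
      0 < k ∧ (∀ j x, |P j x - x| ≤ 1 / N) ∧
      ∀ (T : CircleDeg1Liftˣ) (S : Finset ℕ), (∀ j ∈ S, j < k ∧ ¬ HasPer (P j * T)) →
        S.card * 2 ^ n ≤ k := by
    intro n 𝓕
    obtain ⟨N1, hN1, h1⟩ := exists_modulus 𝓕 (ε := (1 / 2 : ℝ) ^ n) (by positivity)
    have hN1' : (0 : ℝ) < N1 := by exact_mod_cast hN1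
    obtain ⟨k, P, hk, hP1, hP2⟩ := exists_family (N := N1 + 2 ^ n) (by positivity) (2 ^ n)
    refine ⟨N1 + 2 ^ n, k, P, ?_, ?_, hk, hP1, hP2⟩
    · rw [one_div_pow]
      refine one_div_le_one_div_of_le (by positivity) ?_
      push_cast
      linarith
    · intro F hF x y hxy
      refine h1 F hF x y (hxy.trans ?_)
      refine one_div_le_one_div_of_le hN1' ?_
      push_cast
      have : (0 : ℝ) < 2 ^ n := by positivity
      linarith
  choose N K P h1 h2 h3 h4 h5 using hstep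
  let 𝓕 : ℕ → Finset CircleDeg1Liftˣ := fun n =>
    Nat.rec ({1} : Finset CircleDeg1Liftˣ) (fun n f =>
      Finset.image₂ (· * ·) f ((Finset.range (K n f)).image (P n f))) n
  have h𝓕 : ∀ n, 𝓕 (n + 1) = Finset.image₂ (· * ·) (𝓕 n)
      ((Finset.range (K n (𝓕 n))).image (P n (𝓕 n))) := fun n => rfl
  have hmem : ∀ n (s : ℕ → ℕ), (∀ i < n, s i < K i (𝓕 i)) →
      prd (fun n => P n (𝓕 n)) s n ∈ 𝓕 n := by
    intro n s
    induction n with
    | zero =>
      intro _
      exact Finset.mem_singleton_self _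
    | succ n ih =>
      intro hs
      rw [h𝓕]
      refine Finset.mem_image₂.2 ⟨_, ih fun i hi => hs i (by omega), _,
        Finset.mem_image_of_mem _ (Finset.mem_range.2 (hs n (Nat.lt_succ_self n))), rfl⟩
  exact ⟨{
    k := fun n => K n (𝓕 n)
    P := fun n => P n (𝓕 n)
    r := fun n => 1 / (N n (𝓕 n) : ℝ)
    k_pos := fun n => h3 n _
    r_le := fun n => h1 n _
    close := fun n => h4 n _
    modulus := fun n s hs x y hxy => h2 n _ _ (hmem n s hs) x y hxy
    few := fun n => h5 n _ }⟩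

/-! ## Limits -/

lemma exists_limit {X : Type} (f : ℕ → X → ℝ) (h : ∀ n x, |f (n + 1) x - f n x| ≤ (1 / 2) ^ n) :
    ∃ g : X → ℝ, (∀ x, Tendsto (fun n => f n x) atTop (𝓝 (g x))) ∧
      ∀ n x, |f n x - g x| ≤ 2 * (1 / 2) ^ n := by
  have h1 : ∀ x n, dist (f n x) (f (n + 1) x) ≤ 2 / 2 / 2 ^ n := by
    intro x n
    rw [dist_comm, Real.dist_eq]
    refine (h n x).trans ?_
    rw [one_div_pow]
    norm_num
  have h2 : ∀ x, ∃ a, Tendsto (fun n => f n x) atTop (𝓝 a) := fun x =>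
    cauchySeq_tendsto_of_complete (cauchySeq_of_le_geometric_two (h1 x))
  choose g hg using h2
  refine ⟨g, hg, fun n x => ?_⟩
  have h3 := dist_le_of_le_geometric_two_of_tendsto (h1 x) (hg x) n
  rw [Real.dist_eq] at h3
  refine h3.trans ?_
  rw [one_div_pow]
  exact (by ring_nf; exact le_rfl)

lemma continuous_of_limit {X : Type} [TopologicalSpace X] (f : ℕ → X → ℝ) (g : X → ℝ)
    (hf : ∀ n, Continuous (f n)) (h : ∀ n x, |f n x - g x| ≤ 2 * (1 / 2) ^ n) : Continuous g := by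
  have hu : TendstoUniformly f g atTop := by
    rw [Metric.tendstoUniformly_iff]
    intro ε hε
    have h1 : Tendsto (fun n : ℕ => 2 * (1 / 2 : ℝ) ^ n) atTop (𝓝 (2 * 0)) :=
      (tendsto_pow_atTop_nhds_zero_of_lt_one (by norm_num) (by norm_num)).const_mul 2
    rw [mul_zero] at h1
    filter_upwards [h1.eventually (gt_mem_nhds hε)] with n hn x
    rw [dist_comm, Real.dist_eq]
    exact (h n x).trans_lt hn
  exact hu.continuous (Frequently.of_forall hf)

lemma comp_limit (f g : ℕ → ℝ → ℝ) (F G : ℝ → ℝ) (hF : Continuous F)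
    (hf : ∀ n x, |f n x - F x| ≤ 2 * (1 / 2) ^ n) (hg : ∀ x, Tendsto (fun n => g n x) atTop (𝓝 (G x)))
    (hfg : ∀ n x, f n (g n x) = x) (x : ℝ) : F (G x) = x := by
  have h1 : Tendsto (fun n => F (g n x)) atTop (𝓝 (F (G x))) := (hF.tendsto _).comp (hg x)
  have h2 : Tendsto (fun n => F (g n x)) atTop (𝓝 x) := by
    rw [Metric.tendsto_atTop]
    intro ε hε
    have h3 : Tendsto (fun n : ℕ => 2 * (1 / 2 : ℝ) ^ n) atTop (𝓝 (2 * 0)) :=
      (tendsto_pow_atTop_nhds_zero_of_lt_one (by norm_num) (by norm_num)).const_mul 2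
    rw [mul_zero] at h3
    obtain ⟨N, hN⟩ := eventually_atTop.1 (h3.eventually (gt_mem_nhds hε))
    refine ⟨N, fun n hn => ?_⟩
    rw [dist_comm, Real.dist_eq]
    have h4 := hf n (g n x)
    rw [hfg] at h4
    exact h4.trans_lt (hN n hn)
  exact tendsto_nhds_unique h1 h2

instance instNeZero (S : Scheme) (n : ℕ) : NeZero (S.k n) := ⟨(S.k_pos n).ne'⟩

/-- The compact parameter group. -/
abbrev Par (S : Scheme) : Type := (n : ℕ) → ZMod (S.k n)

/-- The finite products. -/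
noncomputable def fin (S : Scheme) (θ : Par S) (n : ℕ) : CircleDeg1Liftˣ :=
  prd S.P (fun i => (θ i).val) n

lemma fin_succ (S : Scheme) (θ : Par S) (n : ℕ) : fin S θ (n + 1) = fin S θ n * S.P n (θ n).val :=
  rfl

lemma fin_step (S : Scheme) (θ : Par S) (n : ℕ) (x : ℝ) :
    |fin S θ (n + 1) x - fin S θ n x| ≤ (1 / 2) ^ n := by
  rw [fin_succ]
  exact S.modulus n _ (fun i _ => ZMod.val_lt (θ i)) _ _ (S.close n _ x)

lemma fin_step_inv (S : Scheme) (θ : Par S) (n : ℕ) (x : ℝ) :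
    |((fin S θ (n + 1))⁻¹ : CircleDeg1Liftˣ) x - ((fin S θ n)⁻¹ : CircleDeg1Liftˣ) x| ≤
      (1 / 2) ^ n := by
  rw [fin_succ, mul_inv_rev]
  set y := ((fin S θ n)⁻¹ : CircleDeg1Liftˣ) x with hy
  set w := ((S.P n (θ n).val)⁻¹ : CircleDeg1Liftˣ) y with hw
  have h1 : S.P n (θ n).val w = y := CircleDeg1Lift.units_apply_inv_apply _ y
  change |w - y| ≤ (1 / 2) ^ n
  rw [← h1, abs_sub_comm]
  exact (S.close n _ w).trans (S.r_le n)

lemma continuous_P (S : Scheme) (n : ℕ) :
    Continuous fun p : Par S × ℝ => S.P n (p.1 n).val p.2 := by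
  have h : Continuous fun p : ZMod (S.k n) × ℝ => S.P n p.1.val p.2 :=
    continuous_prod_of_discrete_left.2 fun j => unit_continuous (S.P n j.val)
  have hc : Continuous fun p : Par S × ℝ => (p.1 n, p.2) :=
    ((continuous_apply n).comp continuous_fst).prodMk continuous_snd
  exact Continuous.comp h hc

lemma continuous_P_inv (S : Scheme) (n : ℕ) :
    Continuous fun p : Par S × ℝ => ((S.P n (p.1 n).val)⁻¹ : CircleDeg1Liftˣ) p.2 := by
  have h : Continuous fun p : ZMod (S.k n) × ℝ => ((S.P n p.1.val)⁻¹ : CircleDeg1Liftˣ) p.2 :=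
    continuous_prod_of_discrete_left.2 fun j => unit_continuous ((S.P n j.val)⁻¹)
  have hc : Continuous fun p : Par S × ℝ => (p.1 n, p.2) :=
    ((continuous_apply n).comp continuous_fst).prodMk continuous_snd
  exact Continuous.comp h hc

lemma continuous_fin (S : Scheme) (n : ℕ) :
    Continuous fun p : Par S × ℝ => fin S p.1 n p.2 := by
  induction n with
  | zero => exact continuous_snd
  | succ n ih =>
    exact ih.comp (continuous_fst.prodMk (continuous_P S n))

lemma continuous_fin_inv (S : Scheme) (n : ℕ) :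
    Continuous fun p : Par S × ℝ => ((fin S p.1 n)⁻¹ : CircleDeg1Liftˣ) p.2 := by
  induction n with
  | zero => exact continuous_snd
  | succ n ih =>
    have h := (continuous_P_inv S n).comp (continuous_fst.prodMk ih)
    refine h.congr fun p => ?_
    rw [fin_succ, mul_inv_rev]
    rfl

theorem exists_limit_map (S : Scheme) : ∃ Ψ : Par S → CircleDeg1Liftˣ,
    Continuous (fun p : Par S × ℝ => Ψ p.1 p.2) ∧
    Continuous (fun p : Par S × ℝ => ((Ψ p.1)⁻¹ : CircleDeg1Liftˣ) p.2) ∧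
    ∀ θ x, Tendsto (fun n => fin S θ n x) atTop (𝓝 (Ψ θ x)) := by
  obtain ⟨g, hg1, hg2⟩ := exists_limit (fun n (p : Par S × ℝ) => fin S p.1 n p.2)
    (fun n p => fin_step S p.1 n p.2)
  obtain ⟨h, hh1, hh2⟩ := exists_limit
    (fun n (p : Par S × ℝ) => ((fin S p.1 n)⁻¹ : CircleDeg1Liftˣ) p.2)
    (fun n p => fin_step_inv S p.1 n p.2)
  have hgc : Continuous g := continuous_of_limit _ g (continuous_fin S) hg2
  have hhc : Continuous h := continuous_of_limit _ h (continuous_fin_inv S) hh2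
  have hgmono : ∀ θ, Monotone fun x => g (θ, x) := fun θ x y hxy =>
    le_of_tendsto_of_tendsto' (hg1 (θ, x)) (hg1 (θ, y)) fun n =>
      (fin S θ n : CircleDeg1Lift).monotone hxy
  have hhmono : ∀ θ, Monotone fun x => h (θ, x) := fun θ x y hxy =>
    le_of_tendsto_of_tendsto' (hh1 (θ, x)) (hh1 (θ, y)) fun n =>
      (((fin S θ n)⁻¹ : CircleDeg1Liftˣ) : CircleDeg1Lift).monotone hxy
  have hgadd : ∀ θ x, g (θ, x + 1) = g (θ, x) + 1 := fun θ x => by
    refine tendsto_nhds_unique (hg1 (θ, x + 1)) ?_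
    refine ((hg1 (θ, x)).add_const 1).congr fun n => ?_
    exact ((fin S θ n : CircleDeg1Lift).map_add_one x).symm
  have hhadd : ∀ θ x, h (θ, x + 1) = h (θ, x) + 1 := fun θ x => by
    refine tendsto_nhds_unique (hh1 (θ, x + 1)) ?_
    refine ((hh1 (θ, x)).add_const 1).congr fun n => ?_
    exact ((((fin S θ n)⁻¹ : CircleDeg1Liftˣ) : CircleDeg1Lift).map_add_one x).symm
  have hgh : ∀ θ x, g (θ, h (θ, x)) = x := fun θ x =>
    comp_limit (fun n x => fin S θ n x) (fun n x => ((fin S θ n)⁻¹ : CircleDeg1Liftˣ) x)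
      (fun x => g (θ, x)) (fun x => h (θ, x)) (hgc.comp (continuous_const.prodMk continuous_id))
      (fun n x => hg2 n (θ, x)) (fun x => hh1 (θ, x))
      (fun n x => CircleDeg1Lift.units_apply_inv_apply _ x) x
  have hhg : ∀ θ x, h (θ, g (θ, x)) = x := fun θ x =>
    comp_limit (fun n x => ((fin S θ n)⁻¹ : CircleDeg1Liftˣ) x) (fun n x => fin S θ n x)
      (fun x => h (θ, x)) (fun x => g (θ, x)) (hhc.comp (continuous_const.prodMk continuous_id))
      (fun n x => hh2 n (θ, x)) (fun x => hg1 (θ, x))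
      (fun n x => CircleDeg1Lift.units_inv_apply_apply _ x) x
  let Ψ : Par S → CircleDeg1Liftˣ := fun θ =>
    { val := ⟨⟨fun x => g (θ, x), hgmono θ⟩, hgadd θ⟩
      inv := ⟨⟨fun x => h (θ, x), hhmono θ⟩, hhadd θ⟩
      val_inv := CircleDeg1Lift.ext fun x => hgh θ x
      inv_val := CircleDeg1Lift.ext fun x => hhg θ x }
  exact ⟨Ψ, hgc, hhc, fun θ x => hg1 (θ, x)⟩

lemma fin_congr (S : Scheme) {θ θ' : Par S} {n : ℕ} (h : ∀ i < n, θ i = θ' i) :
    fin S θ n = fin S θ' n := by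
  induction n with
  | zero => rfl
  | succ n ih =>
    rw [fin_succ, fin_succ, ih fun i hi => h i (by omega), h n (Nat.lt_succ_self n)]

lemma fin_tail (S : Scheme) {θ θ' : Par S} {n : ℕ} (h : ∀ i, i ≠ n → θ i = θ' i) {m : ℕ}
    (hm : n + 1 ≤ m) :
    (fin S θ (n + 1))⁻¹ * fin S θ m = (fin S θ' (n + 1))⁻¹ * fin S θ' m := by
  induction m, hm using Nat.le_induction with
  | base => rw [inv_mul_cancel, inv_mul_cancel]
  | succ m hm ih =>
    rw [fin_succ S θ m, fin_succ S θ' m, ← mul_assoc, ih, ← mul_assoc, h m (by omega)]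

/-- The limit map as a function of the `n`-th coordinate. -/
lemma limit_update (S : Scheme) {Ψ : Par S → CircleDeg1Liftˣ}
    (hΨ : ∀ θ x, Tendsto (fun n => fin S θ n x) atTop (𝓝 (Ψ θ x))) (θ : Par S) (n : ℕ)
    (j : ZMod (S.k n)) : Ψ (Function.update θ n j) =
      fin S θ n * S.P n j.val * ((fin S θ (n + 1))⁻¹ * Ψ θ) := by
  refine Units.ext (CircleDeg1Lift.ext fun x => ?_)
  refine tendsto_nhds_unique (hΨ (Function.update θ n j) x) ?_
  have hcont : Continuous fun y : ℝ => (fin S θ n * S.P n j.val * (fin S θ (n + 1))⁻¹ :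
      CircleDeg1Liftˣ) y := unit_continuous _
  have h1 := (hcont.tendsto _).comp (hΨ θ x)
  have h2 : (fin S θ n * S.P n j.val * ((fin S θ (n + 1))⁻¹ * Ψ θ) : CircleDeg1Liftˣ) x =
      (fin S θ n * S.P n j.val * (fin S θ (n + 1))⁻¹ : CircleDeg1Liftˣ) (Ψ θ x) := by
    rw [← mul_assoc]
    rfl
  rw [h2]
  refine h1.congr' ?_
  filter_upwards [eventually_ge_atTop (n + 1)] with m hm
  have h3 := fin_tail S (θ := Function.update θ n j) (θ' := θ) (n := n)
    (fun i hi => Function.update_of_ne hi _ _) hm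
  have h4 : fin S (Function.update θ n j) m =
      fin S θ n * S.P n j.val * (fin S θ (n + 1))⁻¹ * fin S θ m := by
    have h5 : fin S (Function.update θ n j) n = fin S θ n :=
      fin_congr S fun i hi => Function.update_of_ne (by omega) _ _
    rw [mul_assoc _ _ (fin S θ m), ← h3, fin_succ, h5, Function.update_self]
    group
  rw [h4]
  rfl

lemma hasPer_comm {X Y : CircleDeg1Liftˣ} (h : HasPer (X * Y)) : HasPer (Y * X) := by
  obtain ⟨q, hq, z, x, hx⟩ := h
  refine ⟨q, hq, z, Y x, ?_⟩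
  have h1 : (Y * X) ^ q * Y = Y * (X * Y) ^ q := by
    rw [mul_pow_mul]
  have h2 : (((Y * X) ^ q : CircleDeg1Liftˣ) : CircleDeg1Lift) (Y x) =
      Y ((((X * Y) ^ q : CircleDeg1Liftˣ) : CircleDeg1Lift) x) := by
    change ((((Y * X) ^ q * Y : CircleDeg1Liftˣ)) : CircleDeg1Lift) x =
      ((Y * (X * Y) ^ q : CircleDeg1Liftˣ) : CircleDeg1Lift) x
    rw [h1]
  rw [h2, hx, CircleDeg1Lift.map_add_int]

lemma continuous_pow_apply {Z : Type} [TopologicalSpace Z] (f : Z → CircleDeg1Liftˣ)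
    (hf : Continuous fun p : Z × ℝ => f p.1 p.2) (q : ℕ) :
    Continuous fun p : Z × ℝ => ((f p.1 ^ q : CircleDeg1Liftˣ) : CircleDeg1Lift) p.2 := by
  induction q with
  | zero => exact continuous_snd
  | succ q ih =>
    have h := ih.comp (continuous_fst.prodMk hf)
    refine h.congr fun p => ?_
    rw [pow_succ]
    rfl

/-- The set of parameters with a periodic point is a countable union of closed sets. -/
lemma measurableSet_hasPer {Z : Type} [TopologicalSpace Z] [MeasurableSpace Z] [BorelSpace Z]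
    (f : Z → CircleDeg1Liftˣ) (hf : Continuous fun p : Z × ℝ => f p.1 p.2) :
    MeasurableSet {θ | HasPer (f θ)} := by
  have h : {θ | HasPer (f θ)} = ⋃ q : ℕ, ⋃ z : ℤ, {θ | 0 < q ∧ ∃ x : ℝ, x ∈ Icc (0 : ℝ) 1 ∧
      ((f θ ^ q : CircleDeg1Liftˣ) : CircleDeg1Lift) x = x + z} := by
    ext θ
    simp only [mem_iUnion]
    constructor
    · rintro ⟨q, hq, z, x, hx⟩
      refine ⟨q, z, hq, x - ⌊x⌋, ⟨?_, ?_⟩, ?_⟩
      · linarith [Int.floor_le x]
      · linarith [Int.lt_floor_add_one x]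
      · rw [CircleDeg1Lift.map_sub_int, hx]; ring
    · rintro ⟨q, z, hq, x, -, hx⟩
      exact ⟨q, hq, z, x, hx⟩
  rw [h]
  refine MeasurableSet.iUnion fun q => MeasurableSet.iUnion fun z => ?_
  by_cases hq : 0 < q
  · have hcl : IsClosed {θ : Z | ∃ x : ℝ, x ∈ Icc (0 : ℝ) 1 ∧
        ((f θ ^ q : CircleDeg1Liftˣ) : CircleDeg1Lift) x = x + z} := by
      have hB : IsClosed {p : Z × Icc (0 : ℝ) 1 |
          ((f p.1 ^ q : CircleDeg1Liftˣ) : CircleDeg1Lift) p.2 = p.2 + z} := by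
        refine isClosed_eq ?_ ?_
        · exact (continuous_pow_apply f hf q).comp
            (continuous_fst.prodMk (continuous_subtype_val.comp continuous_snd))
        · exact (continuous_subtype_val.comp continuous_snd).add continuous_const
      have h1 := isClosedMap_fst_of_compactSpace _ hB
      convert h1 using 1
      ext θ
      constructor
      · rintro ⟨x, hx, hx2⟩
        exact ⟨(θ, ⟨x, hx⟩), hx2, rfl⟩
      · rintro ⟨⟨θ', x⟩, hx, rfl⟩
        exact ⟨x, x.2, hx⟩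
    have h2 : {θ : Z | 0 < q ∧ ∃ x : ℝ, x ∈ Icc (0 : ℝ) 1 ∧
        ((f θ ^ q : CircleDeg1Liftˣ) : CircleDeg1Lift) x = x + z} = {θ : Z | ∃ x : ℝ,
        x ∈ Icc (0 : ℝ) 1 ∧ ((f θ ^ q : CircleDeg1Liftˣ) : CircleDeg1Lift) x = x + z} := by
      ext θ
      exact ⟨fun h => h.2, fun h => ⟨hq, h⟩⟩
    rw [h2]
    exact hcl.measurableSet
  · have h2 : {θ : Z | 0 < q ∧ ∃ x : ℝ, x ∈ Icc (0 : ℝ) 1 ∧
        ((f θ ^ q : CircleDeg1Liftˣ) : CircleDeg1Lift) x = x + z} = ∅ := by
      ext θ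
      exact ⟨fun h => absurd h.1 hq, fun h => absurd h (notMem_empty _)⟩
    rw [h2]
    exact MeasurableSet.empty

open MeasureTheory in
/-- Double counting for a finite family of measurable sets. -/
lemma avg_le {Θ : Type} [MeasurableSpace Θ] (μ : Measure Θ) [IsProbabilityMeasure μ] {ι : Type}
    (s : Finset ι) (B : ι → Set Θ) (hB : ∀ j, MeasurableSet (B j)) (c K : ℕ)
    (h : ∀ (θ : Θ) (t : Finset ι), t ⊆ s → (∀ j ∈ t, θ ∈ B j) → t.card * c ≤ K) :
    (∑ j ∈ s, μ (B j)) * c ≤ K := by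
  classical
  have e1 : ∀ j ∈ s, μ (B j) = ∫⁻ θ, (B j).indicator (fun _ => (1 : ENNReal)) θ ∂μ := by
    intro j _
    rw [lintegral_indicator_const (hB j), one_mul]
  rw [Finset.sum_congr rfl e1, ← lintegral_finsetSum s fun j _ =>
    measurable_const.indicator (hB j), ← lintegral_mul_const _
    (Finset.measurable_fun_sum s fun j _ => measurable_const.indicator (hB j))]
  calc ∫⁻ θ, (∑ j ∈ s, (B j).indicator (fun _ => (1 : ENNReal)) θ) * c ∂μ
      ≤ ∫⁻ _, (K : ENNReal) ∂μ := by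
        refine lintegral_mono fun θ => ?_
        have h2 : (∑ j ∈ s, (B j).indicator (fun _ => (1 : ENNReal)) θ) =
            ((s.filter fun j => θ ∈ B j).card : ENNReal) := by
          rw [Finset.card_filter, Nat.cast_sum]
          refine Finset.sum_congr rfl fun j _ => ?_
          rw [Set.indicator_apply]
          split_ifs <;> simp
        change (∑ j ∈ s, (B j).indicator (fun _ => (1 : ENNReal)) θ) * c ≤ K
        rw [h2]
        exact_mod_cast h θ _ (Finset.filter_subset _ _) fun j hj => (Finset.mem_filter.1 hj).2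
    _ = K := by rw [lintegral_const, measure_univ, mul_one]

open MeasureTheory in
lemma null_of_bounds {x : ENNReal} (h : ∀ n : ℕ, (2 : ENNReal) ^ n * x ≤ 1) : x = 0 := by
  by_contra hne
  obtain ⟨n, hn⟩ := ENNReal.exists_nat_mul_gt hne ENNReal.one_ne_top
  have h9 : (n : ENNReal) * x ≤ 2 ^ n * x := by
    refine mul_le_mul_left ?_ _
    exact_mod_cast Nat.lt_two_pow_self.le
  exact absurd (hn.trans_le (h9.trans (h n))) (lt_irrefl _)

lemma few_bad (S : Scheme) {Ψ : Par S → CircleDeg1Liftˣ}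
    (hΨ : ∀ θ x, Tendsto (fun n => fin S θ n x) atTop (𝓝 (Ψ θ x))) (g h : CircleDeg1Liftˣ)
    (n : ℕ) (θ : Par S) (t : Finset (ZMod (S.k n)))
    (ht : ∀ j ∈ t, ¬ HasPer (g * Ψ (Function.update θ n j) * h)) : t.card * 2 ^ n ≤ S.k n := by
  classical
  let T : CircleDeg1Liftˣ := ((fin S θ (n + 1))⁻¹ * Ψ θ) * h * (g * fin S θ n)
  have hV := S.few n T (t.image ZMod.val) (by
    intro v hv
    obtain ⟨j, hj, rfl⟩ := Finset.mem_image.1 hv
    refine ⟨ZMod.val_lt j, fun hper => ?_⟩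
    apply ht j hj
    rw [limit_update S hΨ θ n j]
    have e1 : S.P n j.val * T =
        (S.P n j.val * ((fin S θ (n + 1))⁻¹ * Ψ θ) * h) * (g * fin S θ n) := by
      simp only [T, mul_assoc]
    rw [e1] at hper
    have h4 := hasPer_comm hper
    have e2 : g * fin S θ n * (S.P n j.val * ((fin S θ (n + 1))⁻¹ * Ψ θ) * h) =
        g * (fin S θ n * S.P n j.val * ((fin S θ (n + 1))⁻¹ * Ψ θ)) * h := by
      simp only [mul_assoc]
    rw [e2] at h4
    exact h4)
  rwa [Finset.card_image_of_injective _ (ZMod.val_injective (S.k n))] at hV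

/-- The parameter with `n`-th coordinate `j` and all other coordinates `0`. -/
def sg (S : Scheme) (n : ℕ) (j : ZMod (S.k n)) : Par S := Pi.single n j

lemma single_add (S : Scheme) (θ : Par S) (n : ℕ) (j : ZMod (S.k n)) :
    sg S n j + θ = Function.update θ n (j + θ n) := by
  unfold sg
  funext i
  by_cases hi : i = n
  · subst hi
    rw [Function.update_self, Pi.add_apply, Pi.single_eq_same]
  · rw [Function.update_of_ne hi, Pi.add_apply, Pi.single_eq_of_ne hi, zero_add]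

lemma few_bad_translate (S : Scheme) {Ψ : Par S → CircleDeg1Liftˣ}
    (hΨ : ∀ θ x, Tendsto (fun n => fin S θ n x) atTop (𝓝 (Ψ θ x))) (g h : CircleDeg1Liftˣ)
    (n : ℕ) (θ : Par S) (t : Finset (ZMod (S.k n)))
    (ht : ∀ j ∈ t, ¬ HasPer (g * Ψ (sg S n j + θ) * h)) : t.card * 2 ^ n ≤ S.k n := by
  classical
  have h1 := few_bad S hΨ g h n θ (t.image fun j => j + θ n) (by
    intro v hv
    obtain ⟨j, hj, rfl⟩ := Finset.mem_image.1 hv
    rw [← single_add]
    exact ht j hj)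
  rwa [Finset.card_image_of_injective _ (add_left_injective (θ n))] at h1

open MeasureTheory in
lemma measure_abs (S : Scheme) (μ : Measure (Par S)) [IsProbabilityMeasure μ]
    [μ.IsAddLeftInvariant] (p : Par S → Prop) (hp : MeasurableSet {θ | p θ}) (n : ℕ)
    (hfew : ∀ (θ : Par S) (t : Finset (ZMod (S.k n))), (∀ j ∈ t, p (sg S n j + θ)) →
      t.card * 2 ^ n ≤ S.k n) : (2 : ENNReal) ^ n * μ {θ | p θ} ≤ 1 := by
  have hk : (S.k n : ENNReal) ≠ 0 := by exact_mod_cast (S.k_pos n).ne'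
  have hk' : (S.k n : ENNReal) ≠ ⊤ := ENNReal.natCast_ne_top _
  have hmeas : ∀ j : ZMod (S.k n), Measurable fun θ : Par S => sg S n j + θ := by
    intro j
    have hc1 : Continuous fun θ : Par S => sg S n j + θ := continuous_const.add continuous_id
    exact hc1.measurable
  have h1 := avg_le μ (Finset.univ : Finset (ZMod (S.k n)))
    (fun j => {θ : Par S | p (sg S n j + θ)})
    (fun j => hmeas j hp) (2 ^ n) (S.k n)
    (fun θ t _ ht => hfew θ t ht)
  have h2 : ∀ j : ZMod (S.k n), μ {θ : Par S | p (sg S n j + θ)} = μ {θ | p θ} := fun j =>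
    measure_preimage_add μ (sg S n j) _
  rw [Finset.sum_congr rfl fun j _ => h2 j, Finset.sum_const, Finset.card_univ, ZMod.card,
    nsmul_eq_mul] at h1
  have h3 : (S.k n : ENNReal) * (2 ^ n * μ {θ | p θ}) ≤ S.k n * 1 := by
    rw [mul_one]
    refine le_trans (le_of_eq ?_) h1
    push_cast
    ring
  exact (ENNReal.mul_le_mul_iff_right hk hk').1 h3

open MeasureTheory in
lemma measurable_bad {Z : Type} [TopologicalSpace Z] [MeasurableSpace Z] [BorelSpace Z]
    (f : Z → CircleDeg1Liftˣ) (hf : Continuous fun p : Z × ℝ => f p.1 p.2)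
    (g h : CircleDeg1Liftˣ) : MeasurableSet {θ | ¬ HasPer (g * f θ * h)} := by
  have h1 : Continuous fun p : Z × ℝ => g (f p.1 (h p.2)) :=
    (unit_continuous g).comp
      (hf.comp (continuous_fst.prodMk ((unit_continuous h).comp continuous_snd)))
  have h2 : Continuous fun p : Z × ℝ => (g * f p.1 * h : CircleDeg1Liftˣ) p.2 := h1
  exact (measurableSet_hasPer (fun θ => g * f θ * h) h2).compl

open MeasureTheory in
lemma bad_null (S : Scheme) {Ψ : Par S → CircleDeg1Liftˣ}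
    (hc : Continuous fun p : Par S × ℝ => Ψ p.1 p.2)
    (hΨ : ∀ θ x, Tendsto (fun n => fin S θ n x) atTop (𝓝 (Ψ θ x)))
    (μ : Measure (Par S)) [IsProbabilityMeasure μ] [μ.IsAddLeftInvariant]
    (g h : CircleDeg1Liftˣ) : μ {θ | ¬ HasPer (g * Ψ θ * h)} = 0 :=
  null_of_bounds fun n => measure_abs S μ (fun θ => ¬ HasPer (g * Ψ θ * h))
    (measurable_bad Ψ hc g h) n fun θ t ht => few_bad_translate S hΨ g h n θ t ht

open MeasureTheory in
lemma exists_haar (S : Scheme) :
    ∃ μ : Measure (Par S), IsProbabilityMeasure μ ∧ μ.IsAddLeftInvariant := by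
  refine ⟨Measure.addHaarMeasure ⊤, ⟨?_⟩, inferInstance⟩
  have := Measure.addHaarMeasure_self (K₀ := (⊤ : TopologicalSpace.PositiveCompacts (Par S)))
  simpa using this

open MeasureTheory in
/-- A probability measure on a compact space of orientation preserving homeomorphisms of the
circle, all of whose two-sided translates give measure zero to the maps without periodic points. -/
theorem exists_measure : ∃ (Θ : Type) (_ : TopologicalSpace Θ) (_ : CompactSpace Θ)
    (_ : MeasurableSpace Θ) (_ : BorelSpace Θ) (μ : Measure Θ) (Ψ : Θ → CircleDeg1Liftˣ),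
    IsProbabilityMeasure μ ∧
    Continuous (fun p : Θ × ℝ => Ψ p.1 p.2) ∧
    Continuous (fun p : Θ × ℝ => ((Ψ p.1)⁻¹ : CircleDeg1Liftˣ) p.2) ∧
    ∀ g h : CircleDeg1Liftˣ, μ {θ | ¬ HasPer (g * Ψ θ * h)} = 0 := by
  obtain ⟨S⟩ := exists_scheme
  obtain ⟨Ψ, h1, h2, h3⟩ := exists_limit_map S
  obtain ⟨μ, hμ, hμ'⟩ := exists_haar S
  exact ⟨Par S, inferInstance, inferInstance, inferInstance, inferInstance, μ, Ψ, hμ, h1, h2,
    fun g h => bad_null S h1 h3 μ g h⟩

end Pool.Agent.R608.CircleLimit
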