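import Mathlib

/-!
# A colouring theorem in the style of Davies

For a system of sets `T g n` (`g ∈ G`, `n ∈ ℕ`) such that sets of different kinds `n ≠ m` meet in
a countable set, and two distinct points lie in only countably many sets of a given kind, the
whole of `G` can be coloured by `ℕ` such that the points of `T g n` with colour `n` form a
countable set, for all `g` and `n`. No assumption on the cardinality of `G` is made.
-/

set_option autoImplicit false

open Set Cardinal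

namespace Pool.Agent.R608.DaviesColoring

variable {G : Type}

/-- One step of the closure under a binary operation with set values. -/
def stp (F : G → G → Set G) (A : Set G) : Set G := A ∪ ⋃ x ∈ A, ⋃ y ∈ A, F x y

/-- The closure under a binary operation with set values. -/
def cl (F : G → G → Set G) (A : Set G) : Set G := ⋃ k, (stp F)^[k] A

lemma subset_stp (F : G → G → Set G) (A : Set G) : A ⊆ stp F A := subset_union_left

lemma stp_mono (F : G → G → Set G) {A B : Set G} (h : A ⊆ B) : stp F A ⊆ stp F B := by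
  refine union_subset_union h ?_
  intro z hz
  simp only [mem_iUnion] at hz ⊢
  obtain ⟨x, hx, y, hy, hz⟩ := hz
  exact ⟨x, h hx, y, h hy, hz⟩

lemma subset_cl (F : G → G → Set G) (A : Set G) : A ⊆ cl F A := subset_iUnion_of_subset 0 (by simp)

lemma iter_mono (F : G → G → Set G) {A B : Set G} (h : A ⊆ B) (k : ℕ) :
    (stp F)^[k] A ⊆ (stp F)^[k] B := by
  induction k with
  | zero => exact h
  | succ k ih =>
    rw [Function.iterate_succ_apply', Function.iterate_succ_apply']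
    exact stp_mono F ih

lemma cl_mono (F : G → G → Set G) {A B : Set G} (h : A ⊆ B) : cl F A ⊆ cl F B :=
  iUnion_mono fun k => iter_mono F h k

lemma iter_le (F : G → G → Set G) (A : Set G) {k m : ℕ} (h : k ≤ m) :
    (stp F)^[k] A ⊆ (stp F)^[m] A := by
  induction m, h using Nat.le_induction with
  | base => exact subset_rfl
  | succ m _ ih =>
    rw [Function.iterate_succ_apply']
    exact ih.trans (subset_stp F _)

lemma cl_closed (F : G → G → Set G) (A : Set G) {x y : G} (hx : x ∈ cl F A) (hy : y ∈ cl F A) :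
    F x y ⊆ cl F A := by
  obtain ⟨k, hk⟩ := mem_iUnion.1 hx
  obtain ⟨m, hm⟩ := mem_iUnion.1 hy
  intro z hz
  refine mem_iUnion.2 ⟨max k m + 1, ?_⟩
  rw [Function.iterate_succ_apply']
  refine Or.inr ?_
  simp only [mem_iUnion]
  exact ⟨x, iter_le F A (le_max_left k m) hk, y, iter_le F A (le_max_right k m) hm, hz⟩

lemma card_stp (F : G → G → Set G) (hF : ∀ x y, (F x y).Countable) {κ : Cardinal.{0}}
    (hκ : ℵ₀ ≤ κ) {A : Set G} (hA : Cardinal.mk A ≤ κ) : Cardinal.mk (stp F A) ≤ κ := by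
  refine (mk_union_le _ _).trans (add_le_of_le hκ hA ?_)
  have h1 : (⋃ x ∈ A, ⋃ y ∈ A, F x y) = ⋃ p : A × A, F p.1 p.2 := by
    ext z
    simp only [mem_iUnion]
    constructor
    · rintro ⟨x, hx, y, hy, hz⟩
      exact ⟨(⟨x, hx⟩, ⟨y, hy⟩), hz⟩
    · rintro ⟨⟨⟨x, hx⟩, ⟨y, hy⟩⟩, hz⟩
      exact ⟨x, hx, y, hy, hz⟩
  rw [h1]
  refine (mk_iUnion_le _).trans ?_
  refine mul_le_of_le hκ ?_ ?_
  · have h2 : Cardinal.mk (A × A) = Cardinal.mk A * Cardinal.mk A := by simp [mk_prod]
    rw [h2]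
    exact mul_le_of_le hκ hA hA
  · refine ciSup_le' fun p => ?_
    exact (hF p.1 p.2).le_aleph0.trans hκ

lemma card_cl (F : G → G → Set G) (hF : ∀ x y, (F x y).Countable) {κ : Cardinal.{0}}
    (hκ : ℵ₀ ≤ κ) {A : Set G} (hA : Cardinal.mk A ≤ κ) : Cardinal.mk (cl F A) ≤ κ := by
  refine (mk_iUnion_le _).trans ?_
  refine mul_le_of_le hκ (by rw [mk_nat]; exact hκ) ?_
  refine ciSup_le' fun k => ?_
  induction k with
  | zero => exact hA
  | succ k ih =>
    rw [Function.iterate_succ_apply']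
    exact card_stp F hF hκ ih

theorem coloring_aux (T : G → ℕ → Set G)
    (h1 : ∀ n m g h, n ≠ m → (T g n ∩ T h m).Countable)
    (h2 : ∀ x y n, x ≠ y → {g | x ∈ T g n ∧ y ∈ T g n}.Countable) (κ : Cardinal.{0}) :
    ∀ Z : Set G, Cardinal.mk Z = κ → ∀ b : G → Set ℕ, (∀ x, (b x).Finite) →
      ∃ c : G → ℕ, (∀ x ∈ Z, c x ∉ b x) ∧ ∀ g ∈ Z, ∀ n, {x ∈ Z | x ∈ T g n ∧ c x = n}.Countable := by
  classical
  induction κ using WellFoundedLT.induction with
  | ind κ ih =>
  intro Z hZ b hb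
  rcases le_or_gt κ ℵ₀ with hκ | hκ
  · -- countable case
    have hex : ∀ x, ∃ n, n ∉ b x := fun x => (hb x).exists_notMem
    choose c hc using hex
    refine ⟨c, fun x _ => hc x, fun g _ n => ?_⟩
    have hZc : Z.Countable := by
      rw [← le_aleph0_iff_set_countable, hZ]
      exact hκ
    exact hZc.mono fun x hx => hx.1
  · -- uncountable case
    let F : G → G → Set G := fun x y =>
      (⋃ n, ⋃ (_ : x ≠ y), {g | x ∈ T g n ∧ y ∈ T g n}) ∪ ⋃ n, ⋃ m, ⋃ (_ : n ≠ m), T x n ∩ T y m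
    have hF : ∀ x y, (F x y).Countable := by
      intro x y
      refine Countable.union ?_ ?_
      · exact countable_iUnion fun n => countable_iUnion fun h => h2 x y n h
      · exact countable_iUnion fun n => countable_iUnion fun m => countable_iUnion fun h =>
          h1 n m x y h
    have hZne : Nonempty Z := by
      rw [← mk_ne_zero_iff, hZ]
      exact (aleph0_pos.trans hκ).ne'
    let I := (Cardinal.mk Z).ord.ToType
    have hI : Cardinal.mk I = Cardinal.mk Z := mk_ord_toType _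
    obtain ⟨e⟩ := Cardinal.eq.1 hI
    have hIne : Nonempty I := ⟨e.symm (Classical.choice hZne)⟩
    let A : I → Set G := fun i => cl F ((fun j => (e j : G)) '' Iic i)
    have hAmono : ∀ {i j : I}, i ≤ j → A i ⊆ A j := fun hij =>
      cl_mono F (image_mono (Iic_subset_Iic.2 hij))
    have hAcard : ∀ i, Cardinal.mk (A i) < κ := by
      intro i
      have h3 : Cardinal.mk (Iic i) < κ := by
        have h4 : Cardinal.mk (Iio i) < κ := (mk_Iio_toType_ord_lt i).trans_eq hZ
        have h5 : Iic i = insert i (Iio i) := by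
          ext j
          simp [le_iff_lt_or_eq, or_comm]
        rw [h5]
        refine (mk_insert_le).trans_lt ?_
        exact add_lt_of_lt hκ.le h4 (one_lt_aleph0.trans hκ)
      have h6 : Cardinal.mk ((fun j => (e j : G)) '' Iic i) < κ := mk_image_le.trans_lt h3
      refine lt_of_le_of_lt (card_cl F hF (κ := max (Cardinal.mk ((fun j => (e j : G)) '' Iic i)) ℵ₀)
        (le_max_right _ _) (le_max_left _ _)) (max_lt h6 hκ)
    have hmem : ∀ x ∈ Z, ∃ i, x ∈ A i := by
      intro x hx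
      refine ⟨e.symm ⟨x, hx⟩, subset_cl F _ ⟨e.symm ⟨x, hx⟩, mem_Iic.2 le_rfl, ?_⟩⟩
      simp
    have hmin : ∀ x, ∃ i : I, (∃ i, x ∈ A i) → x ∈ A i ∧ ∀ j < i, x ∉ A j := by
      intro x
      by_cases h : ∃ i, x ∈ A i
      · obtain ⟨i, hi, hi'⟩ := (wellFounded_lt (α := I)).has_min {i | x ∈ A i} h
        exact ⟨i, fun _ => ⟨hi, fun j hj hxj => hi' j hxj hj⟩⟩
      · exact ⟨Classical.choice hIne, fun h' => absurd h' h⟩
    choose ρ hρ using hmin
    have hop1 : ∀ {i : I} {g h x : G} {n m : ℕ}, g ∈ A i → h ∈ A i → n ≠ m → x ∈ T g n →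
        x ∈ T h m → x ∈ A i := by
      intro i g h x n m hg hh hnm hx hx'
      refine cl_closed F _ hg hh (Or.inr ?_)
      simp only [mem_iUnion]
      exact ⟨n, m, hnm, hx, hx'⟩
    have hop2 : ∀ {i : I} {g x y : G} {n : ℕ}, x ∈ A i → y ∈ A i → x ≠ y → x ∈ T g n →
        y ∈ T g n → g ∈ A i := by
      intro i g x y n hx hy hxy hxg hyg
      refine cl_closed F _ hx hy (Or.inl ?_)
      simp only [mem_iUnion]
      exact ⟨n, hxy, hxg, hyg⟩
    let b' : G → Set ℕ := fun x =>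
      b x ∪ {n | (∃ i, x ∈ A i) ∧ ∃ j < ρ x, ∃ g ∈ A j, x ∈ T g n}
    have hb' : ∀ x, (b' x).Finite := by
      intro x
      refine (hb x).union (Set.Subsingleton.finite ?_)
      rintro n ⟨hxi, j, hj, g, hg, hxg⟩ m ⟨-, k, hk, h, hh, hxh⟩
      by_contra hnm
      have h3 := hop1 (hAmono (le_max_left j k) hg) (hAmono (le_max_right j k) hh) hnm hxg hxh
      exact (hρ x hxi).2 _ (max_lt hj hk) h3
    have hIH : ∀ i : I, ∃ c : G → ℕ, (∀ x ∈ {x | x ∈ Z ∧ x ∈ A i ∧ ρ x = i}, c x ∉ b' x) ∧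
        ∀ g ∈ {x | x ∈ Z ∧ x ∈ A i ∧ ρ x = i}, ∀ n,
          {x ∈ {x | x ∈ Z ∧ x ∈ A i ∧ ρ x = i} | x ∈ T g n ∧ c x = n}.Countable := by
      intro i
      have hlt : Cardinal.mk {x | x ∈ Z ∧ x ∈ A i ∧ ρ x = i} < κ :=
        (mk_le_mk_of_subset (fun x hx => hx.2.1)).trans_lt (hAcard i)
      exact ih _ hlt _ rfl b' hb'
    choose c hc1 hc2 using hIH
    refine ⟨fun x => c (ρ x) x, fun x hx h => ?_, fun g hg n => ?_⟩
    · exact hc1 (ρ x) x ⟨hx, (hρ x (hmem x hx)).1, rfl⟩ (Or.inl h)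
    · have hg' := hρ g (hmem g hg)
      have hs : {x | x ∈ T g n ∧ ∃ j < ρ g, x ∈ A j}.Subsingleton := by
        rintro x ⟨hx, j, hj, hxj⟩ y ⟨hy, k, hk, hyk⟩
        by_contra hxy
        exact hg'.2 _ (max_lt hj hk)
          (hop2 (hAmono (le_max_left j k) hxj) (hAmono (le_max_right j k) hyk) hxy hx hy)
      refine ((hc2 (ρ g) g ⟨hg, hg'.1, rfl⟩ n).union hs.countable).mono ?_
      rintro x ⟨hxZ, hxT, hxc⟩
      have hx' := hρ x (hmem x hxZ)
      rcases lt_trichotomy (ρ x) (ρ g) with hlt | heq | hgt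
      · exact Or.inr ⟨hxT, ρ x, hlt, hx'.1⟩
      · refine Or.inl ⟨⟨hxZ, ?_, heq⟩, hxT, ?_⟩
        · rw [← heq]; exact hx'.1
        · rw [← heq]; exact hxc
      · refine absurd ?_ (hc1 (ρ x) x ⟨hxZ, hx'.1, rfl⟩)
        refine Or.inr ⟨hmem x hxZ, ρ g, hgt, g, hg'.1, ?_⟩
        change x ∈ T g (c (ρ x) x)
        have h7 : c (ρ x) x = n := hxc
        rw [h7]
        exact hxT

/-- **The colouring theorem.** -/
theorem coloring (T : G → ℕ → Set G)
    (h1 : ∀ n m g h, n ≠ m → (T g n ∩ T h m).Countable)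
    (h2 : ∀ x y n, x ≠ y → {g | x ∈ T g n ∧ y ∈ T g n}.Countable) :
    ∃ c : G → ℕ, ∀ g n, {x | x ∈ T g n ∧ c x = n}.Countable := by
  obtain ⟨c, -, hc⟩ := coloring_aux T h1 h2 _ univ rfl (fun _ => ∅) (fun _ => finite_empty)
  refine ⟨c, fun g n => ?_⟩
  have h := hc g (mem_univ g) n
  refine h.mono fun x hx => ?_
  exact ⟨mem_univ x, hx⟩

end Pool.Agent.R608.DaviesColoring
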