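import Mathlib
import Pool.Agent.R608.EllOne

/-!
# The Munn algebra of a tree
-/

set_option autoImplicit false

open Set Filter Topology
open Pool.Agent.R608.EllOne

namespace Pool.Agent.R608.MunnTree

/-! ## The sandwich matrix -/

/-- The sandwich matrix: `M t u = 1/4` if `t = u`, `-1/2` if `t` is the parent of `u`. Finite
sequences are written in reverse, so the parent of `u` is `u.tail`. -/
noncomputable def M (t u : List ℕ) : ℂ :=
  (if t = u then 1 / 4 else 0) - (if u ≠ [] ∧ t = u.tail then 1 / 2 else 0)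

lemma norm_M_le (t u : List ℕ) : ‖M t u‖ ≤ 1 := by
  unfold M
  refine (norm_sub_le _ _).trans ?_
  have h1 : ‖(if t = u then (1 / 4 : ℂ) else 0)‖ ≤ 1 / 4 := by
    split_ifs
    · norm_num
    · simp
  have h2 : ‖(if u ≠ [] ∧ t = u.tail then (1 / 2 : ℂ) else 0)‖ ≤ 1 / 2 := by
    split_ifs
    · norm_num
    · simp
  linarith

lemma ne_tail {u : List ℕ} (h : u ≠ []) : u ≠ u.tail := by
  intro h1
  have h2 := congrArg List.length h1
  rw [List.length_tail] at h2
  have h3 := List.length_pos_iff.2 h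
  omega

lemma M_self (u : List ℕ) : M u u = 1 / 4 := by
  unfold M
  rw [if_pos rfl, if_neg, sub_zero]
  rintro ⟨h1, h2⟩
  exact ne_tail h1 h2

lemma M_eq_zero {t u : List ℕ} (h1 : t ≠ u) (h2 : ∀ k : ℕ, u ≠ k :: t) : M t u = 0 := by
  unfold M
  rw [if_neg h1, if_neg, sub_zero]
  rintro ⟨h3, h4⟩
  obtain ⟨k, r, rfl⟩ := List.exists_cons_of_ne_nil h3
  rw [List.tail_cons] at h4
  subst h4
  exact h2 k rfl

/-! ## The Munn algebra -/

/-- The index set of the full Munn algebra. -/
abbrev Ix : Type := List ℕ × List ℕ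

/-- The structure constants. -/
noncomputable def mm (p q : Ix) : L1 Ix := M p.2 q.1 • dl (p.1, q.2)

lemma norm_mm_le (p q : Ix) : ‖mm p q‖ ≤ 1 := by
  unfold mm
  rw [norm_smul, norm_dl, mul_one]
  exact norm_M_le _ _

/-- The product of the Munn algebra. -/
noncomputable def mul : L1 Ix →L[ℂ] L1 Ix →L[ℂ] L1 Ix := bil mm norm_mm_le

lemma mul_dl (s t s' t' : List ℕ) : mul (dl (s, t)) (dl (s', t')) = M t s' • dl (s, t') :=
  bil_dl mm norm_mm_le (s, t) (s', t')

lemma mul_assoc' (f g e : L1 Ix) : mul (mul f g) e = mul f (mul g e) := by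
  refine bil_assoc mm norm_mm_le ?_ f g e
  rintro ⟨s, t⟩ ⟨s', t'⟩ ⟨s'', t''⟩
  unfold mm
  rw [map_smul, map_smul, smul_apply, bil_dl, bil_dl]
  rw [smul_smul, smul_smul, mul_comm]

/-- The Munn algebra as a semigroup. -/
def Munn : Type := L1 Ix

noncomputable instance : Semigroup Munn where
  mul f g := mul f g
  mul_assoc f g e := mul_assoc' f g e

/-! ## Row and column functionals -/

/-- The functional `a ↦ ∑ u, M t u * a u`. -/
noncomputable def rowL (t : List ℕ) : L1 (List ℕ) →L[ℂ] ℂ := lift (fun u => M t u) (norm_M_le t)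

/-- The map `y ↦ (∑ v, y (u, v) * M v s')_u`. -/
noncomputable def colR (s' : List ℕ) : L1 Ix →L[ℂ] L1 (List ℕ) :=
  lift (fun p : Ix => M p.2 s' • dl p.1) fun p => by
    rw [norm_smul, norm_dl, mul_one]
    exact norm_M_le _ _

lemma key_formula (s t s' t' : List ℕ) (y : L1 Ix) :
    mul (mul (dl (s, t)) y) (dl (s', t')) = rowL t (colR s' y) • dl (s, t') := by
  refine ext_clm ((mul.flip (dl (s', t'))).comp (mul (dl (s, t))))
    (((rowL t).comp (colR s')).smulRight (dl (s, t'))) ?_ y
  rintro ⟨u, v⟩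
  change mul (mul (dl (s, t)) (dl (u, v))) (dl (s', t')) = rowL t (colR s' (dl (u, v))) • dl (s, t')
  have h1 : colR s' (dl (u, v)) = M v s' • dl u := lift_dl _ _ _
  have h2 : rowL t (dl u) = M t u := lift_dl _ _ _
  rw [mul_dl, map_smul, smul_apply, mul_dl, h1, map_smul, h2, smul_smul,
    smul_eq_mul, mul_comm]

lemma colR_apply (s' u : List ℕ) (y : L1 Ix) :
    colR s' y u = 1 / 4 * y (u, s') - (if s' ≠ [] then 1 / 2 * y (u, s'.tail) else 0) := by
  have h := ext_clm ((ev u).comp (colR s'))
    ((1 / 4 : ℂ) • ev (u, s') - (if s' ≠ [] then (1 / 2 : ℂ) else 0) • ev (u, s'.tail)) ?_ y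
  · change colR s' y u = (1 / 4 : ℂ) * y (u, s') - (if s' ≠ [] then (1 / 2 : ℂ) else 0) *
      y (u, s'.tail) at h
    rw [h, ite_mul, zero_mul]
  · rintro ⟨a, b⟩
    change (colR s' (dl (a, b)) : L1 (List ℕ)) u = (1 / 4 : ℂ) * (dl (a, b) : L1 Ix) (u, s') -
      (if s' ≠ [] then (1 / 2 : ℂ) else 0) * (dl (a, b) : L1 Ix) (u, s'.tail)
    have h1 : colR s' (dl (a, b)) = M b s' • dl a := lift_dl _ _ _
    rw [h1, lp.coeFn_smul, Pi.smul_apply, smul_eq_mul]
    by_cases ha : a = u
    · subst ha
      rw [dl_apply_self, mul_one]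
      unfold M
      by_cases hb : b = s'
      · subst hb
        rw [dl_apply_self, if_pos rfl, mul_one]
        by_cases hb' : b = []
        · rw [if_neg (by simp [hb']), if_neg (by simp [hb'])]
          ring
        · rw [if_neg (fun h => ne_tail h.1 h.2), dl_apply_ne (i := (a, b)) (j := (a, b.tail))
            (fun h => ne_tail hb' (Prod.ext_iff.1 h).2.symm)]
          ring
      · rw [if_neg hb, dl_apply_ne (i := (a, b)) (j := (a, s'))
            (fun h => hb (Prod.ext_iff.1 h).2.symm)]
        by_cases hb' : s' = []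
        · rw [if_neg (by simp [hb']), if_neg (by simp [hb'])]
          ring
        · by_cases hb2 : b = s'.tail
          · rw [if_pos ⟨hb', hb2⟩, if_pos hb', hb2, dl_apply_self]
            ring
          · rw [if_neg (fun h => hb2 h.2), dl_apply_ne (i := (a, b)) (j := (a, s'.tail))
              (fun h => hb2 (Prod.ext_iff.1 h).2.symm)]
            ring
    · rw [dl_apply_ne (i := a) (j := u) (fun h => ha h.symm),
        dl_apply_ne (i := (a, b)) (j := (u, s')) (fun h => ha (Prod.ext_iff.1 h).1.symm),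
        dl_apply_ne (i := (a, b)) (j := (u, s'.tail)) (fun h => ha (Prod.ext_iff.1 h).1.symm)]
      ring

/-- If the functional vanishes at `a` and `a u ≠ 0` then some child of `u` is in the support. -/
lemma exists_child {a : L1 (List ℕ)} {u : List ℕ} (h : rowL u a = 0) (hu : a u ≠ 0) :
    ∃ k : ℕ, a (k :: u) ≠ 0 := by
  by_contra hcon
  push Not at hcon
  have h1 : rowL u a = a u • M u u := by
    unfold rowL
    rw [lift_apply]
    refine tsum_eq_single u fun w hw => ?_
    by_cases hk : ∃ k : ℕ, w = k :: u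
    · obtain ⟨k, rfl⟩ := hk
      rw [hcon k, zero_smul]
    · push Not at hk
      rw [M_eq_zero (fun h => hw h.symm) hk, smul_zero]
  rw [h1, M_self, smul_eq_mul] at h
  rcases mul_eq_zero.1 h with h2 | h2
  · exact hu h2
  · norm_num at h2

/-! ## Trees -/

/-- The space of trees on `ℕ` (with finite sequences written in reverse), a closed subspace of
the Cantor space. -/
def Tree : Type := {T : List ℕ → Bool // T [] = true ∧ ∀ (n : ℕ) (s : List ℕ),
  T (n :: s) = true → T s = true}

instance : TopologicalSpace Tree := instTopologicalSpaceSubtype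

/-- `T` has an infinite branch. -/
def HasBranch (T : Tree) : Prop :=
  ∃ b : ℕ → List ℕ, b 0 = [] ∧ ∀ n, T.1 (b n) = true ∧ ∃ k : ℕ, b (n + 1) = k :: b n

lemma branch_of_chain (T : Tree) (u : List ℕ) (h : ∃ b : ℕ → List ℕ, b 0 = u ∧
    ∀ n, T.1 (b n) = true ∧ ∃ k : ℕ, b (n + 1) = k :: b n) : HasBranch T := by
  induction u with
  | nil => exact h
  | cons k u ih =>
    obtain ⟨b, hb0, hb⟩ := h
    refine ih ⟨fun n => Nat.casesOn n u b, rfl, fun n => ?_⟩
    cases n with
    | zero =>
      refine ⟨T.2.2 k u ?_, k, hb0⟩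
      rw [← hb0]
      exact (hb 0).1
    | succ n => exact hb n

lemma branch_of_step (T : Tree) (A : Set (List ℕ)) (hA : ∀ u ∈ A, T.1 u = true ∧ ∃ k : ℕ, k :: u ∈ A)
    {u : List ℕ} (hu : u ∈ A) : HasBranch T := by
  choose! f hf using fun u hu => (hA u hu).2
  let b : ℕ → List ℕ := fun n => Nat.rec u (fun _ w => f w :: w) n
  have hb : ∀ n, b n ∈ A := by
    intro n
    induction n with
    | zero => exact hu
    | succ n ih => exact hf _ ih
  exact branch_of_chain T u ⟨b, rfl, fun n => ⟨(hA _ (hb n)).1, f (b n), rfl⟩⟩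

/-- For a well-founded tree the pairing with the sandwich matrix is nondegenerate. -/
lemma nondegenerate {T : Tree} (hT : ¬ HasBranch T) {y : L1 Ix}
    (hsupp : ∀ u v, y (u, v) ≠ 0 → T.1 u = true ∧ T.1 v = true)
    (h0 : ∀ t s', T.1 t = true → T.1 s' = true → rowL t (colR s' y) = 0) : y = 0 := by
  have h1 : ∀ s', T.1 s' = true → ∀ u, colR s' y u = 0 := by
    intro s' hs' u
    by_contra hu
    have hsup : ∀ w, colR s' y w ≠ 0 → T.1 w = true := by
      intro w hw
      by_contra hw'
      apply hw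
      have e1 : y (w, s') = 0 := by
        by_contra h; exact hw' (hsupp w s' h).1
      have e2 : y (w, s'.tail) = 0 := by
        by_contra h; exact hw' (hsupp w s'.tail h).1
      rw [colR_apply, e1, e2]
      simp
    exact hT (branch_of_step T {w | colR s' y w ≠ 0} (fun w hw =>
      ⟨hsup w hw, exists_child (h0 w s' (hsup w hw) hs') hw⟩) hu)
  have h2 : ∀ s', T.1 s' = true → ∀ u, y (u, s') = 0 := by
    intro s'
    induction s' with
    | nil =>
      intro hs' u
      have h3 := h1 [] hs' u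
      rw [colR_apply, if_neg (by simp), sub_zero] at h3
      rcases mul_eq_zero.1 h3 with h4 | h4
      · norm_num at h4
      · exact h4
    | cons k r ih =>
      intro hs' u
      have h3 := h1 (k :: r) hs' u
      rw [colR_apply, if_pos (by simp), List.tail_cons, ih (T.2.2 k r hs') u, mul_zero,
        sub_zero] at h3
      rcases mul_eq_zero.1 h3 with h4 | h4
      · norm_num at h4
      · exact h4
  refine lp.ext (funext ?_)
  rintro ⟨u, v⟩
  by_contra h
  exact h (h2 v (hsupp u v h).2 u)

/-! ## The vector of a branch -/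

/-- The vector `(2⁻ⁿ)`. -/
noncomputable def geo : L1 ℕ := ⟨fun n => (1 / 2) ^ n, by
  refine memℓp_gen ?_
  have h : Summable fun n : ℕ => (1 / 2 : ℝ) ^ n :=
    summable_geometric_of_lt_one (by norm_num) (by norm_num)
  simpa using h⟩

lemma geo_apply (n : ℕ) : geo n = (1 / 2) ^ n := rfl

lemma branch_sum {b : ℕ → List ℕ} (h0 : b 0 = []) (hb : ∀ n, ∃ k : ℕ, b (n + 1) = k :: b n)
    (t : List ℕ) : ∑' n, geo n • M t (b n) = 0 := by
  let g : ℕ → ℂ := fun n => if t = b n then 1 / 4 * (1 / 2) ^ n else 0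
  have hg : Summable g := by
    refine Summable.of_norm_bounded (g := fun n : ℕ => (1 / 2 : ℝ) ^ n)
      (summable_geometric_of_lt_one (by norm_num) (by norm_num)) fun n => ?_
    simp only [g]
    split_ifs
    · rw [norm_mul, norm_pow]
      norm_num
    · simp
  let g' : ℕ → ℂ := fun n => Nat.casesOn n 0 g
  have hg' : Summable g' := (summable_nat_add_iff (f := g') 1).1 hg
  have e : (fun n => geo n • M t (b n)) = fun n => g n - g' n := by
    funext n
    rw [geo_apply, smul_eq_mul]
    unfold M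
    cases n with
    | zero =>
      rw [h0]
      simp only [g, g', h0]
      by_cases ht : t = []
      · simp [ht]
      · simp [ht]
    | succ n =>
      obtain ⟨k, hk⟩ := hb n
      simp only [g, g']
      rw [hk, List.tail_cons]
      have h1 : (k :: b n ≠ [] ∧ t = b n) ↔ t = b n := ⟨fun h => h.2, fun h => ⟨by simp, h⟩⟩
      rw [if_congr h1 rfl rfl, pow_succ]
      split_ifs <;> ring
  rw [e, hg.tsum_sub hg', hg'.tsum_eq_zero_add]
  simp [g']

end Pool.Agent.R608.MunnTree
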