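import Mathlib

/-!
# Perfect sets without nontrivial quadruple relations in abelian Polish groups

Every uncountable abelian Polish group `A` contains a homeomorphic copy of the Cantor space
without four distinct elements `a, b, c, d` with `a * d = b * c`. The proof is by Baire category
in the space of continuous maps from the Cantor space to `A`.
-/

set_option autoImplicit false

open Set Topology

namespace Pool.Agent.R608.PerfectSidon

/-- The Cantor space. -/
abbrev Cantor : Type := ℕ → Bool

/-- Pairwise distinctness of four objects. -/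
def Distinct4 {α : Type} (a b c d : α) : Prop :=
  a ≠ b ∧ a ≠ c ∧ a ≠ d ∧ b ≠ c ∧ b ≠ d ∧ c ≠ d

section

variable {A : Type} [CommGroup A] [TopologicalSpace A] [IsTopologicalGroup A]

lemma infinite_of_isOpen [PolishSpace A] (hA : ¬ Countable A) {U : Set A} (hU : IsOpen U)
    (hne : U.Nonempty) : U.Infinite := by
  intro hfin
  obtain ⟨x, hx⟩ := hne
  have h1 : IsOpen ({x} : Set A) := by
    have h2 : ({x} : Set A) = U \ (U \ {x}) := by
      ext y
      constructor
      · rintro rfl
        exact ⟨hx, fun h => h.2 rfl⟩
      · rintro ⟨hy, hy2⟩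
        by_contra hne
        exact hy2 ⟨hy, hne⟩
    rw [h2]
    exact hU.sdiff (hfin.subset sdiff_subset).isClosed
  have h3 : IsOpen ({1} : Set A) := by
    have h4 : ({1} : Set A) = (fun y => x * y) ⁻¹' {x} := by
      ext y
      simp
    rw [h4]
    exact h1.preimage (continuous_const_mul x)
  have h5 : DiscreteTopology A := discreteTopology_of_isOpen_singleton_one h3
  exact hA (TopologicalSpace.separableSpace_iff_countable.1 inferInstance)

/-- Selection of finitely many points in general position. -/
lemma exists_selection [PolishSpace A] (hA : ¬ Countable A) {I : Type} [Fintype I]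
    (O : I → Set A) (hO : ∀ i, IsOpen (O i)) (hne : ∀ i, (O i).Nonempty) :
    ∃ y : I → A, (∀ i, y i ∈ O i) ∧ (∀ i j, i ≠ j → y i ≠ y j) ∧
      ∀ i j k l, Distinct4 i j k l → y i * y l ≠ y j * y k := by
  classical
  have key : ∀ s : Finset I, ∃ y : I → A, (∀ i, y i ∈ O i) ∧
      (∀ i ∈ s, ∀ j ∈ s, i ≠ j → y i ≠ y j) ∧
      ∀ i ∈ s, ∀ j ∈ s, ∀ k ∈ s, ∀ l ∈ s, Distinct4 i j k l → y i * y l ≠ y j * y k := by
    intro s
    induction s using Finset.induction_on with
    | empty =>
      choose y hy using hne
      exact ⟨y, hy, by simp, by simp⟩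
    | insert i0 s hi0 ih =>
      obtain ⟨y, hy1, hy2, hy3⟩ := ih
      have hfin : (y '' s ∪ (fun p : A × A × A => p.1 * p.2.1 * p.2.2⁻¹) ''
          ((y '' s) ×ˢ (y '' s) ×ˢ (y '' s))).Finite :=
        (s.finite_toSet.image y).union (((s.finite_toSet.image y).prod
          ((s.finite_toSet.image y).prod (s.finite_toSet.image y))).image _)
      obtain ⟨x, hx, hxn⟩ := ((infinite_of_isOpen hA (hO i0) (hne i0)).sdiff hfin).nonempty
      rw [mem_union, not_or] at hxn
      obtain ⟨hx1, hx2⟩ := hxn
      have hx3 : ∀ i ∈ s, ∀ j ∈ s, ∀ k ∈ s, x ≠ y i * y j * (y k)⁻¹ := by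
        intro i hi j hj k hk h
        exact hx2 ⟨(y i, y j, y k), ⟨mem_image_of_mem _ hi, mem_image_of_mem _ hj,
          mem_image_of_mem _ hk⟩, h.symm⟩
      have hne' : ∀ i ∈ s, i ≠ i0 := fun i hi h => hi0 (h ▸ hi)
      refine ⟨Function.update y i0 x, ?_, ?_, ?_⟩
      · intro i
        by_cases h : i = i0
        · subst h
          rw [Function.update_self]
          exact hx
        · rw [Function.update_of_ne h]
          exact hy1 i
      · intro i hi j hj hij
        rw [Finset.mem_insert] at hi hj
        rcases hi with rfl | hi <;> rcases hj with rfl | hj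
        · exact absurd rfl hij
        · rw [Function.update_self, Function.update_of_ne hij.symm]
          exact fun h => hx1 ⟨j, hj, h.symm⟩
        · rw [Function.update_self, Function.update_of_ne hij]
          exact fun h => hx1 ⟨i, hi, h⟩
        · rw [Function.update_of_ne (hne' i hi), Function.update_of_ne (hne' j hj)]
          exact hy2 i hi j hj hij
      · intro i hi j hj k hk l hl hd
        obtain ⟨h1, h2, h3, h4, h5, h6⟩ := hd
        rw [Finset.mem_insert] at hi hj hk hl
        rcases hi with rfl | hi
        · have hj' := hj.resolve_left h1.symm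
          have hk' := hk.resolve_left h2.symm
          have hl' := hl.resolve_left h3.symm
          rw [Function.update_self, Function.update_of_ne h1.symm, Function.update_of_ne h2.symm,
            Function.update_of_ne h3.symm]
          intro h
          exact hx3 j hj' k hk' l hl' (eq_mul_inv_of_mul_eq h)
        · rcases hj with rfl | hj
          · have hk' := hk.resolve_left h4.symm
            have hl' := hl.resolve_left h5.symm
            rw [Function.update_self, Function.update_of_ne h1, Function.update_of_ne h4.symm,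
              Function.update_of_ne h5.symm]
            intro h
            exact hx3 i hi l hl' k hk' (eq_mul_inv_of_mul_eq h.symm)
          · rcases hk with rfl | hk
            · have hl' := hl.resolve_left h6.symm
              rw [Function.update_self, Function.update_of_ne h2, Function.update_of_ne h4,
                Function.update_of_ne h6.symm]
              intro h
              refine hx3 i hi l hl' j hj (eq_mul_inv_of_mul_eq ?_)
              rw [mul_comm, h]
            · rcases hl with rfl | hl
              · rw [Function.update_self, Function.update_of_ne h3, Function.update_of_ne h5,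
                  Function.update_of_ne h6]
                intro h
                refine hx3 j hj k hk i hi (eq_mul_inv_of_mul_eq ?_)
                rw [mul_comm, h]
              · rw [Function.update_of_ne (hne' i hi), Function.update_of_ne (hne' j hj),
                  Function.update_of_ne (hne' k hk), Function.update_of_ne (hne' l hl)]
                exact hy3 i hi j hj k hk l hl ⟨h1, h2, h3, h4, h5, h6⟩
  obtain ⟨y, hy1, hy2, hy3⟩ := key Finset.univ
  exact ⟨y, hy1, fun i j => hy2 i (Finset.mem_univ i) j (Finset.mem_univ j),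
    fun i j k l => hy3 i (Finset.mem_univ i) j (Finset.mem_univ j) k (Finset.mem_univ k) l
      (Finset.mem_univ l)⟩

/-- `a` and `b` agree below `N`. -/
def Agree (N : ℕ) (a b : Cantor) : Prop := ∀ i < N, a i = b i

omit [CommGroup A] [TopologicalSpace A] [IsTopologicalGroup A] in
lemma agree_iff (N : ℕ) (a b : Cantor) :
    Agree N a b ↔ (fun i : Fin N => a i) = fun i : Fin N => b i := by
  constructor
  · intro h
    funext i
    exact h i i.2
  · intro h i hi
    exact congrFun h ⟨i, hi⟩

lemma isClopen_agree (N : ℕ) : IsClopen {p : Cantor × Cantor | Agree N p.1 p.2} := by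
  have h : {p : Cantor × Cantor | Agree N p.1 p.2} =
      (fun p : Cantor × Cantor => ((fun i : Fin N => p.1 i), fun i : Fin N => p.2 i)) ⁻¹'
        {q | q.1 = q.2} := by
    ext p
    exact agree_iff N p.1 p.2
  rw [h]
  refine (isClopen_discrete _).preimage ?_
  refine Continuous.prodMk ?_ ?_
  · exact continuous_pi fun i => (continuous_apply (A := fun _ => Bool) (i : ℕ)).comp continuous_fst
  · exact continuous_pi fun i => (continuous_apply (A := fun _ => Bool) (i : ℕ)).comp continuous_snd

lemma agree_mono {N M : ℕ} (h : N ≤ M) {a b : Cantor} (hab : Agree M a b) : Agree N a b :=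
  fun i hi => hab i (lt_of_lt_of_le hi h)

lemma exists_not_agree {a b : Cantor} (h : a ≠ b) : ∃ N, ¬ Agree N a b := by
  by_contra hcon
  push Not at hcon
  exact h (funext fun i => hcon (i + 1) i (Nat.lt_succ_self i))

/-- Uniform continuity of a continuous map on the Cantor space, in terms of initial segments. -/
lemma exists_modulus {Y : Type} [PseudoMetricSpace Y] (f : C(Cantor, Y)) {ε : ℝ} (hε : 0 < ε) :
    ∃ M, ∀ a b, Agree M a b → dist (f a) (f b) < ε := by
  by_contra hcon
  push Not at hcon
  let Bad : ℕ → Set (Cantor × Cantor) := fun M => {p | Agree M p.1 p.2 ∧ ε ≤ dist (f p.1) (f p.2)}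
  have hcl : ∀ M, IsClosed (Bad M) := fun M =>
    (isClopen_agree M).isClosed.inter (isClosed_le continuous_const
      ((f.continuous.comp continuous_fst).dist (f.continuous.comp continuous_snd)))
  have hne : (⋂ M, Bad M).Nonempty := by
    refine IsCompact.nonempty_iInter_of_sequence_nonempty_isCompact_isClosed Bad ?_ ?_
      (hcl 0).isCompact hcl
    · intro M p hp
      exact ⟨agree_mono (Nat.le_succ M) hp.1, hp.2⟩
    · intro M
      obtain ⟨a, b, hab, h⟩ := hcon M
      exact ⟨(a, b), hab, h⟩
  obtain ⟨p, hp⟩ := hne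
  rw [mem_iInter] at hp
  have h1 : p.1 = p.2 := funext fun i => (hp (i + 1)).1 i (Nat.lt_succ_self i)
  have h2 := (hp 0).2
  rw [h1, dist_self] at h2
  exact absurd hε (not_lt.2 h2)

/-- The set of maps in general position up to level `N`. -/
def Good (A : Type) [CommGroup A] [TopologicalSpace A] (N : ℕ) : Set C(Cantor, A) :=
  {f | (∀ a b, ¬ Agree N a b → f a ≠ f b) ∧ ∀ a b c d, ¬ Agree N a b → ¬ Agree N a c →
    ¬ Agree N a d → ¬ Agree N b c → ¬ Agree N b d → ¬ Agree N c d → f a * f d ≠ f b * f c}

lemma isOpen_good [T2Space A] (N : ℕ) : IsOpen (Good A N) := by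
  have hev : ∀ {Z : Type} [TopologicalSpace Z] (u : Z → C(Cantor, A)) (v : Z → Cantor),
      Continuous u → Continuous v → Continuous fun z => u z (v z) :=
    fun u v hu hv => hu.eval hv
  have h1 : IsClosed {f : C(Cantor, A) | ∃ p : Cantor × Cantor, ¬ Agree N p.1 p.2 ∧ f p.1 = f p.2} := by
    have hB : IsClosed {q : C(Cantor, A) × (Cantor × Cantor) | ¬ Agree N q.2.1 q.2.2 ∧
        q.1 q.2.1 = q.1 q.2.2} := by
      refine IsClosed.inter ?_ ?_
      · exact ((isClopen_agree N).compl.isClosed).preimage continuous_snd
      · exact isClosed_eq (hev _ _ continuous_fst (continuous_fst.comp continuous_snd))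
          (hev _ _ continuous_fst (continuous_snd.comp continuous_snd))
    have h := isClosedMap_fst_of_compactSpace _ hB
    convert h using 1
    ext f
    constructor
    · rintro ⟨p, hp⟩
      exact ⟨(f, p), hp, rfl⟩
    · rintro ⟨⟨g, p⟩, hp, rfl⟩
      exact ⟨p, hp⟩
  have h2 : IsClosed {f : C(Cantor, A) | ∃ p : (Cantor × Cantor) × (Cantor × Cantor),
      (¬ Agree N p.1.1 p.1.2 ∧ ¬ Agree N p.1.1 p.2.1 ∧ ¬ Agree N p.1.1 p.2.2 ∧
        ¬ Agree N p.1.2 p.2.1 ∧ ¬ Agree N p.1.2 p.2.2 ∧ ¬ Agree N p.2.1 p.2.2) ∧
        f p.1.1 * f p.2.2 = f p.1.2 * f p.2.1} := by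
    have hB : IsClosed {q : C(Cantor, A) × ((Cantor × Cantor) × (Cantor × Cantor)) |
        (¬ Agree N q.2.1.1 q.2.1.2 ∧ ¬ Agree N q.2.1.1 q.2.2.1 ∧ ¬ Agree N q.2.1.1 q.2.2.2 ∧
        ¬ Agree N q.2.1.2 q.2.2.1 ∧ ¬ Agree N q.2.1.2 q.2.2.2 ∧ ¬ Agree N q.2.2.1 q.2.2.2) ∧
        q.1 q.2.1.1 * q.1 q.2.2.2 = q.1 q.2.1.2 * q.1 q.2.2.1} := by
      have hagr : ∀ (u v : C(Cantor, A) × ((Cantor × Cantor) × (Cantor × Cantor)) → Cantor),
          Continuous u → Continuous v → IsClosed {q | ¬ Agree N (u q) (v q)} := by
        intro u v hu hv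
        exact ((isClopen_agree N).compl.isClosed).preimage (hu.prodMk hv)
      have c1 : Continuous fun q : C(Cantor, A) × ((Cantor × Cantor) × (Cantor × Cantor)) =>
          q.2.1.1 := continuous_fst.comp (continuous_fst.comp continuous_snd)
      have c2 : Continuous fun q : C(Cantor, A) × ((Cantor × Cantor) × (Cantor × Cantor)) =>
          q.2.1.2 := continuous_snd.comp (continuous_fst.comp continuous_snd)
      have c3 : Continuous fun q : C(Cantor, A) × ((Cantor × Cantor) × (Cantor × Cantor)) =>
          q.2.2.1 := continuous_fst.comp (continuous_snd.comp continuous_snd)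
      have c4 : Continuous fun q : C(Cantor, A) × ((Cantor × Cantor) × (Cantor × Cantor)) =>
          q.2.2.2 := continuous_snd.comp (continuous_snd.comp continuous_snd)
      refine IsClosed.inter (IsClosed.inter (hagr _ _ c1 c2) (IsClosed.inter (hagr _ _ c1 c3)
        (IsClosed.inter (hagr _ _ c1 c4) (IsClosed.inter (hagr _ _ c2 c3)
        (IsClosed.inter (hagr _ _ c2 c4) (hagr _ _ c3 c4)))))) ?_
      exact isClosed_eq ((hev _ _ continuous_fst c1).mul (hev _ _ continuous_fst c4))
        ((hev _ _ continuous_fst c2).mul (hev _ _ continuous_fst c3))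
    have h := isClosedMap_fst_of_compactSpace _ hB
    convert h using 1
    ext f
    constructor
    · rintro ⟨p, hp⟩
      exact ⟨(f, p), hp, rfl⟩
    · rintro ⟨⟨g, p⟩, hp, rfl⟩
      exact ⟨p, hp⟩
  convert h1.isOpen_compl.inter h2.isOpen_compl using 1
  ext f
  constructor
  · rintro ⟨hf1, hf2⟩
    refine ⟨?_, ?_⟩
    · rintro ⟨p, hp1, hp2⟩
      exact hf1 _ _ hp1 hp2
    · rintro ⟨p, ⟨h1, h2, h3, h4, h5, h6⟩, hp2⟩
      exact hf2 _ _ _ _ h1 h2 h3 h4 h5 h6 hp2
  · rintro ⟨hf1, hf2⟩
    refine ⟨fun a b hab h => hf1 ⟨(a, b), hab, h⟩, fun a b c d h1 h2 h3 h4 h5 h6 h => ?_⟩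
    exact hf2 ⟨((a, b), (c, d)), ⟨h1, h2, h3, h4, h5, h6⟩, h⟩

/-- Restriction to the first `M` coordinates. -/
def res (M : ℕ) (a : Cantor) : Fin M → Bool := fun i => a i

/-- Extension by `false`. -/
def ext (M : ℕ) (s : Fin M → Bool) : Cantor := fun n => if h : n < M then s ⟨n, h⟩ else false

omit [CommGroup A] [TopologicalSpace A] [IsTopologicalGroup A] in
lemma continuous_res (M : ℕ) : Continuous (res M) :=
  continuous_pi fun i => continuous_apply (A := fun _ => Bool) (i : ℕ)

omit [CommGroup A] [TopologicalSpace A] [IsTopologicalGroup A] in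
lemma agree_ext_res (M : ℕ) (a : Cantor) : Agree M (ext M (res M a)) a := by
  intro i hi
  unfold ext res
  rw [dif_pos hi]

/-- **Perfect sets in general position.** Every uncountable abelian Polish group contains an
injective continuous image of the Cantor space without four pairwise distinct elements
`a, b, c, d` such that `a * d = b * c`. -/
theorem exists_general_position (A : Type) [CommGroup A] [TopologicalSpace A]
    [IsTopologicalGroup A] [PolishSpace A] (hA : ¬ Countable A) :
    ∃ φ : Cantor → A, Continuous φ ∧ Function.Injective φ ∧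
      ∀ a b c d, Distinct4 a b c d → φ a * φ d ≠ φ b * φ c := by
  let _ := TopologicalSpace.upgradeIsCompletelyMetrizable A
  have hdense : ∀ N, Dense (Good A N) := by
    intro N
    rw [Metric.dense_iff]
    intro f ε hε
    obtain ⟨M0, hM0⟩ := exists_modulus f (half_pos hε)
    let M := max M0 N
    obtain ⟨y, hy1, hy2, hy3⟩ := exists_selection hA
      (fun s : Fin M → Bool => Metric.ball (f (ext M s)) (ε / 2)) (fun _ => Metric.isOpen_ball)
      (fun s => ⟨f (ext M s), Metric.mem_ball_self (half_pos hε)⟩)
    let g : C(Cantor, A) := ⟨fun a => y (res M a),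
      continuous_of_discreteTopology.comp (continuous_res M)⟩
    refine ⟨g, ?_, ?_, ?_⟩
    · rw [Metric.mem_ball, ContinuousMap.dist_lt_iff hε]
      intro a
      have h1 : dist (y (res M a)) (f (ext M (res M a))) < ε / 2 := hy1 (res M a)
      have h2 : dist (f (ext M (res M a))) (f a) < ε / 2 :=
        hM0 _ _ (agree_mono (le_max_left _ _) (agree_ext_res M a))
      calc dist (g a) (f a) ≤ dist (y (res M a)) (f (ext M (res M a))) +
            dist (f (ext M (res M a))) (f a) := dist_triangle _ _ _
        _ < ε / 2 + ε / 2 := add_lt_add h1 h2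
        _ = ε := add_halves ε
    · intro a b hab
      refine hy2 _ _ fun h => hab (agree_mono (le_max_right M0 N) ((agree_iff M a b).2 h))
    · intro a b c d h1 h2 h3 h4 h5 h6
      have hn : ∀ {a b : Cantor}, ¬ Agree N a b → res M a ≠ res M b := fun hab h =>
        hab (agree_mono (le_max_right M0 N) ((agree_iff M _ _).2 h))
      exact hy3 _ _ _ _ ⟨hn h1, hn h2, hn h3, hn h4, hn h5, hn h6⟩
  obtain ⟨f, hf⟩ := (dense_iInter_of_isOpen_nat (fun N => isOpen_good (A := A) N) hdense).nonempty
  rw [mem_iInter] at hf
  refine ⟨f, f.continuous, ?_, ?_⟩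
  · intro a b hab
    by_contra hne
    obtain ⟨N, hN⟩ := exists_not_agree hne
    exact (hf N).1 a b hN hab
  · intro a b c d hd
    obtain ⟨h1, h2, h3, h4, h5, h6⟩ := hd
    obtain ⟨N1, hN1⟩ := exists_not_agree h1
    obtain ⟨N2, hN2⟩ := exists_not_agree h2
    obtain ⟨N3, hN3⟩ := exists_not_agree h3
    obtain ⟨N4, hN4⟩ := exists_not_agree h4
    obtain ⟨N5, hN5⟩ := exists_not_agree h5
    obtain ⟨N6, hN6⟩ := exists_not_agree h6
    let N := N1 + N2 + N3 + N4 + N5 + N6
    have hup : ∀ {M : ℕ} {a b : Cantor}, M ≤ N → ¬ Agree M a b → ¬ Agree N a b :=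
      fun hM h h' => h (agree_mono hM h')
    exact (hf N).2 a b c d (hup (by omega) hN1) (hup (by omega) hN2) (hup (by omega) hN3)
      (hup (by omega) hN4) (hup (by omega) hN5) (hup (by omega) hN6)

/-- **Perfect sets in general position in the center.** Every Polish group with uncountable
center contains, in its center, an injective continuous image of the Cantor space without four
pairwise distinct elements `a, b, c, d` such that `a * d = b * c`. -/
theorem exists_central_general_position (G : Type) [Group G] [TopologicalSpace G]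
    [IsTopologicalGroup G] [PolishSpace G] (hG : ¬ (Subgroup.center G : Set G).Countable) :
    ∃ φ : Cantor → G, Continuous φ ∧ Function.Injective φ ∧ (∀ a, φ a ∈ Subgroup.center G) ∧
      ∀ a b c d, Distinct4 a b c d → φ a * φ d ≠ φ b * φ c := by
  have hcl : IsClosed (Subgroup.center G : Set G) := by
    have h : (Subgroup.center G : Set G) = ⋂ g : G, {x | g * x = x * g} := by
      ext x
      rw [SetLike.mem_coe, Subgroup.mem_center_iff, mem_iInter]
      rfl
    rw [h]
    exact isClosed_iInter fun g => isClosed_eq (continuous_const_mul g) (continuous_mul_const g)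
  have hpol : PolishSpace (Subgroup.center G) := hcl.polishSpace
  have hunc : ¬ Countable (Subgroup.center G) := hG
  let _ : CommGroup (Subgroup.center G) :=
    { (inferInstance : Group (Subgroup.center G)) with
      mul_comm := fun x y => Subtype.ext (Subgroup.mem_center_iff.1 y.2 x) }
  obtain ⟨φ, h1, h2, h3⟩ := exists_general_position (Subgroup.center G) hunc
  refine ⟨fun a => φ a, continuous_subtype_val.comp h1, Subtype.val_injective.comp h2,
    fun a => (φ a).2, fun a b c d hd h => h3 a b c d hd (Subtype.ext h)⟩

end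

end Pool.Agent.R608.PerfectSidon
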