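import Mathlib
import Pool.Agent.R608.PerfectSidon

/-!
# Naively Haar null sets: basic definitions and witnesses on perfect subsets of the center
-/

set_option autoImplicit false

open MeasureTheory Set Cardinal
open Pool.Agent.R608.PerfectSidon

namespace Pool.Agent.R608.NaiveHaar

/-- A subset `X` of a topological group `G` with its Borel sets is naively Haar null if there is a
Borel probability measure `μ` with `μ (g X h) = 0` for all `g, h ∈ G`. Here `μ` of an arbitrary
set is its outer measure. -/
def NaivelyHaarNull {G : Type} [Group G] [TopologicalSpace G] [MeasurableSpace G]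
    [BorelSpace G] (X : Set G) : Prop :=
  ∃ μ : Measure G, IsProbabilityMeasure μ ∧ ∀ g h : G, μ ((fun x => g * x * h) '' X) = 0

/-- `non(N)`: the least cardinality of a subset of `[0,1]` that is not Lebesgue null. -/
noncomputable def nonN : Cardinal :=
  sInf {κ | ∃ S : Set unitInterval, Cardinal.mk S = κ ∧ volume S ≠ 0}

/-- `cov(N)`: the least cardinality of a family of Lebesgue null sets covering `[0,1]`. -/
noncomputable def covN : Cardinal :=
  sInf {κ | ∃ F : Set (Set unitInterval), Cardinal.mk F = κ ∧ (∀ N ∈ F, volume N = 0) ∧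
    ⋃₀ F = Set.univ}

lemma mk_cantor : Cardinal.mk Cantor = 𝔠 := by simp

lemma not_countable_cantor : ¬ Countable Cantor := by
  rw [← Cardinal.mk_le_aleph0_iff, mk_cantor]
  exact not_le.2 aleph0_lt_continuum

lemma not_countable_unitInterval : ¬ Countable unitInterval := by
  rw [← Cardinal.mk_le_aleph0_iff]
  have h : Cardinal.mk unitInterval = 𝔠 := Cardinal.mk_Icc_real (by norm_num)
  rw [h]
  exact not_le.2 aleph0_lt_continuum

/-- There is a Borel probability measure on the Cantor space for which all countable sets and all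
sets of size less than `non(N)` are null. -/
lemma exists_measure : ∃ ν : Measure Cantor, IsProbabilityMeasure ν ∧
    (∀ s : Set Cantor, s.Countable → ν s = 0) ∧ ∀ s : Set Cantor, Cardinal.mk s < nonN → ν s = 0 := by
  have hpol : PolishSpace Bool := inferInstance
  let E : unitInterval ≃ᵐ Cantor :=
    PolishSpace.measurableEquivOfNotCountable not_countable_unitInterval not_countable_cantor
  refine ⟨Measure.map E volume, ?_, ?_, ?_⟩
  · exact Measure.isProbabilityMeasure_map E.measurable.aemeasurable
  · intro s hs
    rw [E.map_apply]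
    exact (hs.preimage E.injective).measure_zero _
  · intro s hs
    rw [E.map_apply]
    by_contra hne
    have h1 : nonN ≤ Cardinal.mk (E ⁻¹' s) := csInf_le' ⟨_, rfl, hne⟩
    have h2 : Cardinal.mk (E ⁻¹' s) ≤ Cardinal.mk s := mk_preimage_of_injective _ _ E.injective
    exact absurd hs (not_lt.2 (h1.trans h2))

/-- The codes of the `n`-th piece of the Cantor space. -/
def code (n : ℕ) (x : Cantor) : Cantor := fun i =>
  if i % 2 = 0 then decide (i / 2 = n) else x (i / 2)

lemma code_injective (n : ℕ) : Function.Injective (code n) := by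
  intro x y h
  funext k
  have h1 := congrFun h (2 * k + 1)
  unfold code at h1
  rw [if_neg (by omega), if_neg (by omega), show (2 * k + 1) / 2 = k by omega] at h1
  exact h1

lemma code_ne {n m : ℕ} (hnm : n ≠ m) (x y : Cantor) : code n x ≠ code m y := by
  intro h
  have h1 := congrFun h (2 * n)
  unfold code at h1
  rw [if_pos (by omega), if_pos (by omega), show 2 * n / 2 = n by omega] at h1
  simp only [decide_true] at h1
  exact hnm (of_decide_eq_true h1.symm)

lemma continuous_code (n : ℕ) : Continuous (code n) := by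
  refine continuous_pi fun i => ?_
  unfold code
  split_ifs with h
  · exact continuous_const
  · exact continuous_apply (A := fun _ => Bool) (i / 2)

section

variable {G : Type} [Group G]

/-- The translate by `g` of the `n`-th piece. -/
def T (φ : Cantor → G) (g : G) (n : ℕ) : Set G := {x | ∃ a, x = g * φ (code n a)}

/-- For `d ≠ 1` there are only finitely many `a` with `φ a = d * φ b` for some `b`. -/
lemma finite_diff {φ : Cantor → G} (hinj : Function.Injective φ)
    (hcen : ∀ a, φ a ∈ Subgroup.center G)
    (h4 : ∀ a b c d, Distinct4 a b c d → φ a * φ d ≠ φ b * φ c) {d : G} (hd : d ≠ 1) :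
    {a | ∃ b, φ a = d * φ b}.Finite := by
  rcases {a | ∃ b, φ a = d * φ b}.eq_empty_or_nonempty with h | ⟨a, b, hab⟩
  · rw [h]; exact finite_empty
  · have hs : {a' | φ a' = d * φ a}.Subsingleton := fun x hx y hy =>
      hinj ((show φ x = d * φ a from hx).trans (show φ y = d * φ a from hy).symm)
    refine ((hs.finite.insert b).insert a).subset ?_
    rintro a' ⟨b', hab'⟩
    by_contra hcon
    rw [mem_insert_iff, mem_insert_iff, not_or, not_or] at hcon
    obtain ⟨c1, c2, c3⟩ := hcon
    have hab1 : a ≠ b := by
      rintro rfl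
      exact hd (mul_right_cancel (b := φ a) (by rw [one_mul]; exact hab.symm))
    have hab2 : a' ≠ b' := by
      rintro rfl
      exact hd (mul_right_cancel (b := φ a') (by rw [one_mul]; exact hab'.symm))
    have hbb : b ≠ b' := by
      rintro rfl
      exact c1 (hinj (hab'.trans hab.symm))
    have hab3 : a ≠ b' := by
      rintro rfl
      exact c3 hab'
    refine h4 a b a' b' ⟨hab1, fun h => c1 h.symm, hab3, fun h => c2 h.symm, hbb, hab2⟩ ?_
    have hc := Subgroup.mem_center_iff.1 (hcen b)
    rw [hab, hab', ← mul_assoc, hc d, mul_assoc]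

lemma countable_inter {φ : Cantor → G} (hinj : Function.Injective φ)
    (hcen : ∀ a, φ a ∈ Subgroup.center G)
    (h4 : ∀ a b c d, Distinct4 a b c d → φ a * φ d ≠ φ b * φ c) {n m : ℕ} (g h : G)
    (hnm : n ≠ m) : (T φ g n ∩ T φ h m).Countable := by
  by_cases hgh : g = h
  · subst hgh
    have h0 : T φ g n ∩ T φ g m = ∅ := by
      rw [eq_empty_iff_forall_notMem]
      rintro x ⟨⟨a, rfl⟩, ⟨b, hb⟩⟩
      exact code_ne hnm a b (hinj (mul_left_cancel hb))
    rw [h0]
    exact countable_empty
  · have hd : g⁻¹ * h ≠ 1 := fun h' => hgh (inv_mul_eq_one.1 h')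
    refine (((finite_diff hinj hcen h4 hd).image fun a => g * φ a).subset ?_).countable
    rintro x ⟨⟨a, rfl⟩, ⟨b, hb⟩⟩
    refine ⟨code n a, ⟨code m b, ?_⟩, rfl⟩
    rw [mul_assoc, ← hb, inv_mul_cancel_left]

lemma countable_params {φ : Cantor → G} (hinj : Function.Injective φ)
    (hcen : ∀ a, φ a ∈ Subgroup.center G)
    (h4 : ∀ a b c d, Distinct4 a b c d → φ a * φ d ≠ φ b * φ c) {x y : G} (n : ℕ)
    (hxy : x ≠ y) : {g | x ∈ T φ g n ∧ y ∈ T φ g n}.Countable := by
  have hd : y⁻¹ * x ≠ 1 := fun h' => hxy (inv_mul_eq_one.1 h').symm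
  refine (((finite_diff hinj hcen h4 hd).image fun a => x * (φ a)⁻¹).subset ?_).countable
  rintro g ⟨⟨a, rfl⟩, ⟨b, rfl⟩⟩
  refine ⟨code n a, ⟨code n b, ?_⟩, mul_inv_cancel_right _ _⟩
  have hc := Subgroup.mem_center_iff.1 (hcen (code n b))
  rw [mul_inv_rev, mul_assoc (φ (code n b))⁻¹, inv_mul_cancel_left, mul_assoc, hc,
    inv_mul_cancel_left]

end

/-- Null criterion: if the intersections of `S` with the translates of the `n`-th piece are
countable, or of size less than `non(N)`, then `S` is naively Haar null. -/
lemma naivelyHaarNull_of_small {G : Type} [Group G] [TopologicalSpace G]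
    [IsTopologicalGroup G] [PolishSpace G] [MeasurableSpace G] [BorelSpace G] {φ : Cantor → G}
    (hcont : Continuous φ) (hinj : Function.Injective φ)
    (hcen : ∀ a, φ a ∈ Subgroup.center G) (n : ℕ) (S : Set G)
    (hS : ∀ g, {x | x ∈ T φ g n ∧ x ∈ S}.Countable ∨ Cardinal.mk {x | x ∈ T φ g n ∧ x ∈ S} < nonN) :
    NaivelyHaarNull S := by
  obtain ⟨ν, hν, hν1, hν2⟩ := exists_measure
  have hpol : PolishSpace Bool := inferInstance
  have hφn : Continuous fun a => φ (code n a) := hcont.comp (continuous_code n)
  have hφi : Function.Injective fun a => φ (code n a) := hinj.comp (code_injective n)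
  have hme : MeasurableEmbedding fun a => φ (code n a) := hφn.measurableEmbedding hφi
  refine ⟨Measure.map (fun a => φ (code n a)) ν,
    Measure.isProbabilityMeasure_map hme.measurable.aemeasurable, fun g h => ?_⟩
  rw [hme.map_apply]
  -- the preimage injects in the intersection of `S` with a translate
  let r : Cantor → G := fun a => g⁻¹ * h⁻¹ * φ (code n a)
  have hr : Function.Injective r := fun a b hab => hφi (mul_left_cancel hab)
  have hsub : (fun a => φ (code n a)) ⁻¹' ((fun x => g * x * h) '' S) ⊆
      r ⁻¹' {x | x ∈ T φ (g⁻¹ * h⁻¹) n ∧ x ∈ S} := by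
    rintro a ⟨s, hs, hsa⟩
    have h1 : s = r a := by
      have hc := Subgroup.mem_center_iff.1 (hcen (code n a))
      have h2 : g * s * h = φ (code n a) := hsa
      change s = g⁻¹ * h⁻¹ * φ (code n a)
      rw [mul_assoc, hc, ← h2]
      group
    refine ⟨⟨a, rfl⟩, ?_⟩
    rw [← h1]
    exact hs
  rcases hS (g⁻¹ * h⁻¹) with hc | hc
  · exact hν1 _ ((hc.preimage hr).mono hsub)
  · refine hν2 _ (((mk_le_mk_of_subset hsub).trans (mk_preimage_of_injective _ _ hr)).trans_lt hc)

end Pool.Agent.R608.NaiveHaar
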