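import Mathlib
import Pool.Agent.R608.BorelDifference

/-!
# A thin independent Cantor set of reals
-/

set_option autoImplicit false

open Set Filter Topology MeasureTheory
open Pool.Agent.R608.BorelDifference

namespace Pool.Agent.R608.ThinCantor

/-- The Cantor space. -/
abbrev Can : Type := ℕ → Bool

/-- The cylinder with code `q`. -/
def Cyl (q : ℕ × Finset ℕ) (z : Can) : Prop := ∀ i < q.1, (z i = true ↔ i ∈ q.2)

/-- The enumeration of the codes of cylinders. -/
def code : ℕ ≃ ℕ × Finset ℕ := (Denumerable.eqv (ℕ × Finset ℕ)).symm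

lemma measurableSet_Cyl (q : ℕ × Finset ℕ) : MeasurableSet {z : Can | Cyl q z} := by
  have e : {z : Can | Cyl q z} = ⋂ i : ℕ, ⋂ _ : i < q.1, {z : Can | z i = true ↔ i ∈ q.2} := by
    ext z
    simp only [mem_iInter]
    rfl
  rw [e]
  refine MeasurableSet.iInter fun i => MeasurableSet.iInter fun _ => ?_
  have h : Measurable fun z : Can => z i := measurable_pi_apply i
  exact h (t := {b : Bool | b = true ↔ i ∈ q.2}) (MeasurableSet.of_discrete)

open Classical in
/-- The indicator of a cylinder. -/
noncomputable def ind (n : ℕ) (z : Can) : ℕ := if Cyl (code n) z then 1 else 0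

lemma ind_le (n : ℕ) (z : Can) : ind n z ≤ 1 := by
  unfold ind
  split_ifs <;> omega

lemma measurable_ind (n : ℕ) : Measurable (ind n) := by
  classical
  exact Measurable.ite (measurableSet_Cyl _) measurable_const measurable_const

/-- The digits of `k z`. -/
noncomputable def kd (z : Can) (i : ℕ) : ℕ := if i % 3 = 0 then 1000 * ind (i / 3) z else 0

lemma kd_lt (z : Can) (i : ℕ) : kd z i < 100000 := by
  unfold kd
  split_ifs
  · have := ind_le (i / 3) z
    omega
  · norm_num

lemma measurable_kd (i : ℕ) : Measurable fun z => kd z i := by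
  unfold kd
  split_ifs
  · exact measurable_const.mul (measurable_ind _)
  · exact measurable_const

/-- The digit sequence of `k z`. -/
noncomputable def kF (z : Can) (i : ℕ) : Fin 100000 := ⟨kd z i, kd_lt z i⟩

lemma measurable_kF : Measurable kF := by
  refine measurable_pi_iff.2 fun i => ?_
  have h1 : (fun z => kF z i) = fun z => (Fin.ofNat 100000 (kd z i)) := by
    funext z
    refine Fin.ext ?_
    change kd z i = kd z i % 100000
    exact (Nat.mod_eq_of_lt (kd_lt z i)).symm
  have h2 : Measurable fun k : ℕ => (Fin.ofNat 100000 k) := measurable_from_top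
  change Measurable fun z => kF z i
  rw [h1]
  exact h2.comp (measurable_kd i)

/-- The parametrization of the thin Cantor set. -/
noncomputable def k (z : Can) : ℝ := Real.ofDigits (kF z)

lemma measurable_k : Measurable k := Real.continuous_ofDigits.measurable.comp measurable_kF

lemma nd_k (n : ℕ) (z : Can) :
    nd (100000 ^ (3 * n) * k z - (1000 * ((ind n z : ℤ) : ℝ)) / 100000) ≤ 1 / 100000 := by
  have h := nd_digit (kF z) (3 * n)
  have e : ((kF z (3 * n) : ℕ) : ℝ) = 1000 * ((ind n z : ℤ) : ℝ) := by
    have e1 : (kF z (3 * n) : ℕ) = kd z (3 * n) := rfl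
    have e2 : kd z (3 * n) = 1000 * ind n z := by
      unfold kd
      rw [if_pos (by omega), show (3 * n) / 3 = n by omega]
    rw [e1, e2]
    push_cast
    rfl
  rw [e] at h
  exact h

lemma nd_k_other {i : ℕ} (hi : i % 3 ≠ 0) (z : Can) : nd (100000 ^ i * k z) ≤ 1 / 100000 := by
  have h := nd_digit (kF z) i
  have e1 : (kF z i : ℕ) = kd z i := rfl
  have e2 : kd z i = 0 := by
    unfold kd
    rw [if_neg hi]
  rw [e1, e2, Nat.cast_zero, zero_div, sub_zero] at h
  exact h

lemma thin_k_sub (a b : Can) : Thin (k a - k b) := by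
  intro i hi
  rw [mul_sub]
  refine (nd_sub_le _ _).trans ?_
  linarith [nd_k_other hi a, nd_k_other hi b]

/-- The basic relation between the indicators. -/
lemma rel6 {a b c d e f : Can} (h : k a - k b - (k c - k d) = k e - k f) (n : ℕ) :
    (ind n a : ℤ) + ind n d + ind n f = ind n b + ind n c + ind n e := by
  have ha := nd_k n a
  have hb := nd_k n b
  have hc := nd_k n c
  have hd := nd_k n d
  have he := nd_k n e
  have hf := nd_k n f
  have h1 : (ind n a : ℤ) + ind n d + ind n f - (ind n b + ind n c + ind n e) = 0 := by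
    refine sep ?_ ?_
    · have a1 := ind_le n a
      have a2 := ind_le n b
      have a3 := ind_le n c
      have a4 := ind_le n d
      have a5 := ind_le n e
      have a6 := ind_le n f
      have h8 : |((ind n a : ℤ) + ind n d + ind n f - (ind n b + ind n c + ind n e) : ℤ)| ≤ 3 := by
        rw [abs_le]
        omega
      have h9 : ((|((ind n a : ℤ) + ind n d + ind n f - (ind n b + ind n c + ind n e) : ℤ)| : ℤ) :
        ℝ) ≤ 3 := by exact_mod_cast h8
      rw [Int.cast_abs] at h9
      linarith
    · set A : ℝ := 100000 ^ (3 * n) with hA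
      have e1 : (1000 * (((ind n a : ℤ) + ind n d + ind n f - (ind n b + ind n c + ind n e) : ℤ) :
          ℝ)) / 100000 =
          (((A * k b - (1000 * ((ind n b : ℤ) : ℝ)) / 100000) +
          (A * k c - (1000 * ((ind n c : ℤ) : ℝ)) / 100000)) +
          (A * k e - (1000 * ((ind n e : ℤ) : ℝ)) / 100000)) -
          (((A * k a - (1000 * ((ind n a : ℤ) : ℝ)) / 100000) +
          (A * k d - (1000 * ((ind n d : ℤ) : ℝ)) / 100000)) +
          (A * k f - (1000 * ((ind n f : ℤ) : ℝ)) / 100000)) := by
        have h2 : A * (k a - k b - (k c - k d)) = A * (k e - k f) := by rw [h]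
        push_cast
        linarith
      rw [e1]
      refine (nd_sub_le _ _).trans ?_
      have x1 := nd_add_le ((A * k b - (1000 * ((ind n b : ℤ) : ℝ)) / 100000) +
          (A * k c - (1000 * ((ind n c : ℤ) : ℝ)) / 100000))
          (A * k e - (1000 * ((ind n e : ℤ) : ℝ)) / 100000)
      have x2 := nd_add_le (A * k b - (1000 * ((ind n b : ℤ) : ℝ)) / 100000)
          (A * k c - (1000 * ((ind n c : ℤ) : ℝ)) / 100000)
      have x3 := nd_add_le ((A * k a - (1000 * ((ind n a : ℤ) : ℝ)) / 100000) +
          (A * k d - (1000 * ((ind n d : ℤ) : ℝ)) / 100000))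
          (A * k f - (1000 * ((ind n f : ℤ) : ℝ)) / 100000)
      have x4 := nd_add_le (A * k a - (1000 * ((ind n a : ℤ) : ℝ)) / 100000)
          (A * k d - (1000 * ((ind n d : ℤ) : ℝ)) / 100000)
      linarith
  linarith

lemma exists_isolating (F : Finset Can) : ∃ N : ℕ, ∀ x ∈ F, ∀ y ∈ F, (∀ i < N, x i = y i) → x = y := by
  classical
  have h : ∀ p : Can × Can, ∃ n, p.1 ≠ p.2 → p.1 n ≠ p.2 n := by
    intro p
    by_cases hp : p.1 = p.2
    · exact ⟨0, fun h => absurd hp h⟩
    · obtain ⟨n, hn⟩ := Function.ne_iff.1 hp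
      exact ⟨n, fun _ => hn⟩
  choose g hg using h
  refine ⟨(F ×ˢ F).sup g + 1, fun x hx y hy hxy => ?_⟩
  by_contra hne
  refine hg (x, y) hne (hxy _ ?_)
  have h1 : g (x, y) ≤ (F ×ˢ F).sup g := Finset.le_sup (f := g) (Finset.mk_mem_product hx hy)
  omega

open Classical in
/-- For every point of a finite set there is a cylinder isolating it. -/
lemma exists_ind (F : Finset Can) {x : Can} (hx : x ∈ F) :
    ∃ n, ∀ y ∈ F, ind n y = if y = x then 1 else 0 := by
  obtain ⟨N, hN⟩ := exists_isolating F
  refine ⟨code.symm (N, (Finset.range N).filter fun i => x i = true), fun y hy => ?_⟩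
  unfold ind
  rw [Equiv.apply_symm_apply]
  have h1 : Cyl (N, (Finset.range N).filter fun i => x i = true) y ↔ y = x := by
    constructor
    · intro h
      refine hN y hy x hx fun i hi => ?_
      have h2 := h i hi
      rw [Finset.mem_filter, Finset.mem_range] at h2
      rw [Bool.eq_iff_iff, h2]
      exact ⟨fun h => h.2, fun h => ⟨hi, h⟩⟩
    · rintro rfl i hi
      rw [Finset.mem_filter, Finset.mem_range]
      exact ⟨fun h => ⟨hi, h⟩, fun h => h.2⟩
  simp only [h1]

lemma core6 {a b c d e f : Can} (hab : a ≠ b) (hcd : c ≠ d) (hef : e ≠ f)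
    (h : k a - k b - (k c - k d) = k e - k f) :
    (a = c ∧ e = d ∧ f = b) ∨ (b = d ∧ e = a ∧ f = c) := by
  classical
  have key : ∀ x ∈ ({a, b, c, d, e, f} : Finset Can),
      ((if a = x then 1 else 0 : ℕ) : ℤ) + (if d = x then 1 else 0 : ℕ) +
        (if f = x then 1 else 0 : ℕ) = (if b = x then 1 else 0 : ℕ) +
        (if c = x then 1 else 0 : ℕ) + (if e = x then 1 else 0 : ℕ) := by
    intro x hx
    obtain ⟨n, hn⟩ := exists_ind _ hx
    have h1 := rel6 h n
    rwa [hn a (by simp), hn b (by simp), hn c (by simp), hn d (by simp), hn e (by simp),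
      hn f (by simp)] at h1
  have ka := key a (by simp)
  have kb := key b (by simp)
  have kc := key c (by simp)
  have kd' := key d (by simp)
  have ke := key e (by simp)
  have kf := key f (by simp)
  clear key h
  grind

lemma core4 {a b c d : Can} (hab : a ≠ b) (h : k a - k b = k c - k d) : a = c ∧ b = d := by
  classical
  have h' : k a - k b - (k c - k d) = k a - k a := by
    rw [h]
    ring
  have key : ∀ x ∈ ({a, b, c, d} : Finset Can),
      ((if a = x then 1 else 0 : ℕ) : ℤ) + (if d = x then 1 else 0 : ℕ) =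
        (if b = x then 1 else 0 : ℕ) + (if c = x then 1 else 0 : ℕ) := by
    intro x hx
    obtain ⟨n, hn⟩ := exists_ind _ hx
    have h1 := rel6 h' n
    rw [hn a (by simp), hn b (by simp), hn c (by simp), hn d (by simp)] at h1
    linarith
  have ka := key a (by simp)
  have kb := key b (by simp)
  have kc := key c (by simp)
  have kd' := key d (by simp)
  clear key h h'
  grind

end Pool.Agent.R608.ThinCantor
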