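import Mathlib
import Pool.Agent.R608.EllOneR
import Pool.Agent.R608.MunnTree
import Pool.Agent.R608.AtomEmbed

/-!
# Sublattices of `C(Δ; L₁)` attached to trees
-/

set_option autoImplicit false
set_option linter.unusedSectionVars false

open Set Filter Topology MeasureTheory
open Pool.Agent.R608.EllOneR Pool.Agent.R608.AtomEmbed
open Pool.Agent.R608.MunnTree (Tree HasBranch branch_of_step ne_tail)

namespace Pool.Agent.R608.TreeLattice

/-! ## The sandwich matrix -/

/-- The sandwich matrix: `M t u = 1/4` if `t = u`, `-1/2` if `t` is the parent of `u`. Finite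
sequences are written in reverse, so the parent of `u` is `u.tail`. -/
noncomputable def M (t u : List ℕ) : ℝ :=
  (if t = u then 1 / 4 else 0) - (if u ≠ [] ∧ t = u.tail then 1 / 2 else 0)

lemma norm_M_le (t u : List ℕ) : ‖M t u‖ ≤ 1 := by
  unfold M
  refine (norm_sub_le _ _).trans ?_
  have h1 : ‖(if t = u then (1 / 4 : ℝ) else 0)‖ ≤ 1 / 4 := by
    split_ifs
    · norm_num
    · simp
  have h2 : ‖(if u ≠ [] ∧ t = u.tail then (1 / 2 : ℝ) else 0)‖ ≤ 1 / 2 := by
    split_ifs
    · norm_num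
    · simp
  linarith

lemma ne_tail {u : List ℕ} (h : u ≠ []) : u ≠ u.tail := by
  intro h1
  have h2 := congrArg List.length h1
  rw [List.length_tail] at h2
  have h3 := List.length_pos_iff.2 h
  omega

lemma M_self (u : List ℕ) : M u u = 1 / 4 := by
  unfold M
  rw [if_pos rfl, if_neg, sub_zero]
  rintro ⟨h1, h2⟩
  exact ne_tail h1 h2

lemma M_eq_zero {t u : List ℕ} (h1 : t ≠ u) (h2 : ∀ k : ℕ, u ≠ k :: t) : M t u = 0 := by
  unfold M
  rw [if_neg h1, if_neg, sub_zero]
  rintro ⟨h3, h4⟩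
  obtain ⟨k, r, rfl⟩ := List.exists_cons_of_ne_nil h3
  rw [List.tail_cons] at h4
  subst h4
  exact h2 k rfl

/-! ## The vector of a branch -/

/-- The vector `(2⁻ⁿ)`. -/
noncomputable def geo : L1 ℕ := ⟨fun n => (1 / 2) ^ n, by
  refine memℓp_gen ?_
  have h : Summable fun n : ℕ => (1 / 2 : ℝ) ^ n :=
    summable_geometric_of_lt_one (by norm_num) (by norm_num)
  simpa using h⟩

lemma geo_apply (n : ℕ) : geo n = (1 / 2) ^ n := rfl

lemma branch_sum {b : ℕ → List ℕ} (h0 : b 0 = []) (hb : ∀ n, ∃ k : ℕ, b (n + 1) = k :: b n)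
    (t : List ℕ) : ∑' n, geo n • M t (b n) = 0 := by
  let g : ℕ → ℝ := fun n => if t = b n then 1 / 4 * (1 / 2) ^ n else 0
  have hg : Summable g := by
    refine Summable.of_norm_bounded (g := fun n : ℕ => (1 / 2 : ℝ) ^ n)
      (summable_geometric_of_lt_one (by norm_num) (by norm_num)) fun n => ?_
    simp only [g]
    split_ifs
    · rw [norm_mul, norm_pow]
      norm_num
    · simp
  let g' : ℕ → ℝ := fun n => Nat.casesOn n 0 g
  have hg' : Summable g' := (summable_nat_add_iff (f := g') 1).1 hg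
  have e : (fun n => geo n • M t (b n)) = fun n => g n - g' n := by
    funext n
    rw [geo_apply, smul_eq_mul]
    unfold M
    cases n with
    | zero =>
      rw [h0]
      simp only [g, g', h0]
      by_cases ht : t = []
      · simp [ht]
      · simp [ht]
    | succ n =>
      obtain ⟨k, hk⟩ := hb n
      simp only [g, g']
      rw [hk, List.tail_cons]
      have h1 : (k :: b n ≠ [] ∧ t = b n) ↔ t = b n := ⟨fun h => h.2, fun h => ⟨by simp, h⟩⟩
      rw [if_congr h1 rfl rfl, pow_succ]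
      split_ifs <;> ring
  rw [e, hg.tsum_sub hg', hg'.tsum_eq_zero_add]
  simp [g']


/-! ## The Cantor set and sequences converging to a limit -/

open Classical in
/-- The first index at which `δ` is true. -/
noncomputable def idx (δ : ℕ → Bool) : Option ℕ :=
  if h : ∃ n, δ n = true then some (Nat.find h) else none

/-- The point with index `k`. -/
def pt : Option ℕ → (ℕ → Bool)
  | none => fun _ => false
  | some n => fun k => decide (k = n)

lemma idx_pt (k : Option ℕ) : idx (pt k) = k := by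
  classical
  cases k with
  | none =>
    unfold idx
    rw [dif_neg]
    rintro ⟨n, hn⟩
    exact Bool.false_ne_true hn
  | some n =>
    have h : ∃ m, pt (some n) m = true := ⟨n, by simp [pt]⟩
    have h2 : Nat.find h = n := by
      have h3 := Nat.find_spec h
      simpa [pt] using h3
    unfold idx
    rw [dif_pos h, h2]

lemma eventually_coord (δ : ℕ → Bool) (k : ℕ) : ∀ᶠ δ' in 𝓝 δ, δ' k = δ k := by
  have h : ContinuousAt (fun δ' : ℕ → Bool => δ' k) δ := (continuous_apply k).continuousAt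
  exact h.eventually_mem ((isOpen_discrete {δ k}).mem_nhds rfl)

lemma continuous_idx {E : Type} [TopologicalSpace E] (V : Option ℕ → E)
    (h : Tendsto (fun n => V (some n)) atTop (𝓝 (V none))) : Continuous fun δ => V (idx δ) := by
  classical
  rw [continuous_iff_continuousAt]
  intro δ
  by_cases hδ : ∃ n, δ n = true
  · have h1 : ∀ᶠ δ' in 𝓝 δ, ∀ k ∈ Set.Iic (Nat.find hδ), δ' k = δ k :=
      (Filter.eventually_all_finite (Set.finite_Iic _)).2 fun k _ => eventually_coord δ k
    have h2 : (fun δ' => V (idx δ')) =ᶠ[𝓝 δ] fun _ => V (idx δ) := by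
      filter_upwards [h1] with δ' hδ'
      have h3 : ∃ n, δ' n = true :=
        ⟨Nat.find hδ, by rw [hδ' _ (Set.mem_Iic.2 le_rfl)]; exact Nat.find_spec hδ⟩
      have h4 : Nat.find h3 = Nat.find hδ := by
        rw [Nat.find_eq_iff]
        refine ⟨by rw [hδ' _ (Set.mem_Iic.2 le_rfl)]; exact Nat.find_spec hδ, fun k hk => ?_⟩
        rw [hδ' k (Set.mem_Iic.2 hk.le)]
        exact Nat.find_min hδ hk
      unfold idx
      rw [dif_pos h3, dif_pos hδ, h4]
    exact h2.continuousAt
  · have h0 : idx δ = none := by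
      unfold idx
      rw [dif_neg hδ]
    have hδ0 : ∀ k, δ k = false := by
      intro k
      by_contra hk
      exact hδ ⟨k, by simpa using hk⟩
    intro U hU'
    have hU : U ∈ 𝓝 (V none) := by
      rw [← h0]
      exact hU'
    obtain ⟨N, hN⟩ := eventually_atTop.1 (h.eventually hU)
    have h1 : ∀ᶠ δ' in 𝓝 δ, ∀ k ∈ Set.Iio N, δ' k = δ k :=
      (Filter.eventually_all_finite (Set.finite_Iio _)).2 fun k _ => eventually_coord δ k
    rw [Filter.mem_map]
    filter_upwards [h1] with δ' hδ'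
    change V (idx δ') ∈ U
    by_cases h3 : ∃ n, δ' n = true
    · have h4 : idx δ' = some (Nat.find h3) := by
        unfold idx
        rw [dif_pos h3]
      rw [h4]
      apply hN
      by_contra hlt
      push Not at hlt
      have h5 := hδ' _ (Set.mem_Iio.2 hlt)
      rw [Nat.find_spec h3, hδ0] at h5
      exact Bool.false_ne_true h5.symm
    · have h4 : idx δ' = none := by
        unfold idx
        rw [dif_neg h3]
      rw [h4]
      exact mem_of_mem_nhds hU

/-! ## The weights -/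

/-- The enumeration of the constraints. -/
def q : ℕ ≃ List ℕ × ℕ × ℕ := (Denumerable.eqv (List ℕ × ℕ × ℕ)).symm

/-- The sign. -/
def sgn (b : ℕ) : ℝ := if b = 0 then 1 else -1

lemma abs_sgn (b : ℕ) : |sgn b| = 1 := by
  unfold sgn
  split_ifs <;> simp

/-- The small parameter. -/
noncomputable def eps (n : ℕ) : ℝ := 1 / (((n : ℝ) + 1) * ((q n).2.1 + 2))

lemma eps_pos (n : ℕ) : 0 < eps n := by
  unfold eps
  positivity

lemma eps_mul_lt (n : ℕ) : eps n * ((q n).2.1 + 1) < 1 / ((n : ℝ) + 1) := by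
  unfold eps
  rw [one_div_mul_eq_div, div_lt_div_iff₀ (by positivity) (by positivity)]
  have h1 : (0 : ℝ) ≤ n := Nat.cast_nonneg n
  have h2 : (0 : ℝ) ≤ ((q n).2.1 : ℝ) := Nat.cast_nonneg _
  nlinarith

lemma eps_lt (n : ℕ) : eps n < 1 / ((n : ℝ) + 1) := by
  refine lt_of_le_of_lt ?_ (eps_mul_lt n)
  have h2 : (0 : ℝ) ≤ ((q n).2.1 : ℝ) := Nat.cast_nonneg _
  nlinarith [eps_pos n]

lemma one_div_le_one (n : ℕ) : 1 / ((n : ℝ) + 1) ≤ 1 := by
  rw [div_le_one (by positivity)]
  linarith [(Nat.cast_nonneg n : (0 : ℝ) ≤ n)]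

/-- The sandwich matrix on the extended index set. -/
noncomputable def M' (t : List ℕ) : Option (List ℕ) → ℝ
  | none => 0
  | some u => M t u

lemma norm_M'_le (t : List ℕ) (j : Option (List ℕ)) : ‖M' t j‖ ≤ 1 := by
  cases j with
  | none => simp [M']
  | some u => exact norm_M_le t u

/-- The weights. -/
noncomputable def Wt : Option ℕ → Option (List ℕ) → ℝ
  | none, none => 0
  | none, some _ => 1 / 2
  | some n, none => 1 / 2 * eps n
  | some n, some s => 1 / 2 * (1 + eps n * (sgn (q n).2.2 * (q n).2.1 * M (q n).1 s - 1))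

lemma abs_dev_le (n : ℕ) (s : List ℕ) :
    |eps n * (sgn (q n).2.2 * (q n).2.1 * M (q n).1 s - 1)| < 1 / ((n : ℝ) + 1) := by
  refine lt_of_le_of_lt ?_ (eps_mul_lt n)
  rw [abs_mul, abs_of_pos (eps_pos n)]
  refine mul_le_mul_of_nonneg_left ?_ (eps_pos n).le
  refine (abs_sub _ _).trans ?_
  rw [abs_mul, abs_mul, abs_sgn, one_mul, abs_one, Nat.abs_cast]
  have h1 : |M (q n).1 s| ≤ 1 := norm_M_le _ _
  have h2 : (0 : ℝ) ≤ ((q n).2.1 : ℝ) := Nat.cast_nonneg _
  nlinarith

lemma Wt_some_pos (n : ℕ) (j : Option (List ℕ)) : 0 < Wt (some n) j := by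
  cases j with
  | none =>
    change 0 < 1 / 2 * eps n
    linarith [eps_pos n]
  | some s =>
    change 0 < 1 / 2 * (1 + eps n * (sgn (q n).2.2 * (q n).2.1 * M (q n).1 s - 1))
    have h1 := (abs_lt.1 (abs_dev_le n s)).1
    have h2 := one_div_le_one n
    linarith

lemma Wt_nonneg (k : Option ℕ) (j : Option (List ℕ)) : 0 ≤ Wt k j := by
  cases k with
  | none =>
    cases j with
    | none => exact le_rfl
    | some s =>
      change (0 : ℝ) ≤ 1 / 2
      norm_num
  | some n => exact (Wt_some_pos n j).le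

lemma Wt_le (k : Option ℕ) (j : Option (List ℕ)) : Wt k j ≤ 1 := by
  cases k with
  | none =>
    cases j with
    | none => exact zero_le_one
    | some s =>
      change (1 / 2 : ℝ) ≤ 1
      norm_num
  | some n =>
    cases j with
    | none =>
      change 1 / 2 * eps n ≤ 1
      linarith [eps_lt n, one_div_le_one n]
    | some s =>
      change 1 / 2 * (1 + eps n * (sgn (q n).2.2 * (q n).2.1 * M (q n).1 s - 1)) ≤ 1
      have h1 := (abs_lt.1 (abs_dev_le n s)).2
      have h2 := one_div_le_one n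
      linarith

lemma norm_Wt_le (k : Option ℕ) (j : Option (List ℕ)) : ‖Wt k j‖ ≤ 1 := by
  rw [Real.norm_eq_abs, abs_of_nonneg (Wt_nonneg k j)]
  exact Wt_le k j

lemma abs_Wt_sub_le (n : ℕ) (j : Option (List ℕ)) :
    |Wt (some n) j - Wt none j| ≤ 1 / ((n : ℝ) + 1) := by
  cases j with
  | none =>
    change |1 / 2 * eps n - 0| ≤ _
    rw [sub_zero, abs_of_pos (by linarith [eps_pos n])]
    linarith [eps_lt n, eps_pos n]
  | some s =>
    have h1 := abs_dev_le n s
    change |1 / 2 * (1 + eps n * (sgn (q n).2.2 * (q n).2.1 * M (q n).1 s - 1)) - 1 / 2| ≤ _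
    have e : 1 / 2 * (1 + eps n * (sgn (q n).2.2 * (q n).2.1 * M (q n).1 s - 1)) - 1 / 2 =
        1 / 2 * (eps n * (sgn (q n).2.2 * (q n).2.1 * M (q n).1 s - 1)) := by ring
    rw [e, abs_mul, abs_of_pos (by norm_num : (0 : ℝ) < 1 / 2)]
    have h3 := abs_nonneg (eps n * (sgn (q n).2.2 * (q n).2.1 * M (q n).1 s - 1))
    linarith

/-! ## Multiplication by the weights -/

/-- The index set. -/
abbrev Idx : Type := Option (List ℕ)

/-- Multiplication by a bounded sequence. -/
noncomputable def mulB (u : Idx → ℝ) (hu : ∀ j, ‖u j‖ ≤ 1) : L1 Idx →L[ℝ] L1 Idx :=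
  lift (fun j => u j • dl j) fun j => by
    rw [norm_smul, norm_dl, mul_one]
    exact hu j

lemma mulB_apply (u : Idx → ℝ) (hu : ∀ j, ‖u j‖ ≤ 1) (a : L1 Idx) (j : Idx) :
    mulB u hu a j = a j * u j := by
  have h := ext_clm ((ev j).comp (mulB u hu)) (u j • ev j) (fun i => ?_) a
  · change mulB u hu a j = u j * a j at h
    rw [h, mul_comm]
  · change (mulB u hu (dl i) : L1 Idx) j = u j * (dl i : L1 Idx) j
    have h1 : mulB u hu (dl i) = u i • dl i := lift_dl _ _ _
    rw [h1, lp.coeFn_smul, Pi.smul_apply, smul_eq_mul]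
    by_cases hij : j = i
    · rw [hij]
    · rw [dl_apply_ne hij, mul_zero, mul_zero]

/-- Multiplication by the weights. -/
noncomputable def mulW (k : Option ℕ) : L1 Idx →L[ℝ] L1 Idx := mulB (Wt k) (norm_Wt_le k)

lemma mulW_apply (k : Option ℕ) (a : L1 Idx) (j : Idx) : mulW k a j = a j * Wt k j :=
  mulB_apply _ _ a j

lemma norm_mulB_le (u : Idx → ℝ) (hu : ∀ j, ‖u j‖ ≤ 1) (a : L1 Idx) : ‖mulB u hu a‖ ≤ ‖a‖ := by
  unfold mulB
  exact norm_lift_apply_le _ _ a

lemma norm_mulW_le (k : Option ℕ) (a : L1 Idx) : ‖mulW k a‖ ≤ ‖a‖ := norm_mulB_le _ _ a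

lemma tsum_le_mul {a b : L1 Idx} {C : ℝ} (h : ∀ j, ‖a j‖ ≤ C * ‖b j‖) : ‖a‖ ≤ C * ‖b‖ := by
  rw [norm_eq, norm_eq, ← tsum_mul_left]
  exact (summable_norm a).tsum_le_tsum h ((summable_norm b).mul_left C)

lemma tendsto_mulW (a : L1 Idx) : Tendsto (fun n => mulW (some n) a) atTop (𝓝 (mulW none a)) := by
  rw [tendsto_iff_norm_sub_tendsto_zero]
  have h1 : ∀ n : ℕ, ‖mulW (some n) a - mulW none a‖ ≤ 1 / ((n : ℝ) + 1) * ‖a‖ := by
    intro n
    refine tsum_le_mul fun j => ?_
    rw [lp.coeFn_sub, Pi.sub_apply, mulW_apply, mulW_apply, ← mul_sub, norm_mul, mul_comm]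
    exact mul_le_mul_of_nonneg_right (abs_Wt_sub_le n j) (norm_nonneg _)
  have h2 : Tendsto (fun n : ℕ => 1 / ((n : ℝ) + 1) * ‖a‖) atTop (𝓝 (0 * ‖a‖)) :=
    tendsto_one_div_add_atTop_nhds_zero_nat.mul_const _
  rw [zero_mul] at h2
  exact squeeze_zero (fun n => norm_nonneg _) h1 h2

/-- The functional `∑ j, a j * W k j`. -/
noncomputable def S (k : Option ℕ) : L1 Idx →L[ℝ] ℝ := lift (Wt k) (norm_Wt_le k)

lemma S_apply (k : Option ℕ) (a : L1 Idx) : S k a = ∑' j, a j * Wt k j := rfl

lemma norm_mulW_of_nonneg (k : Option ℕ) {a : L1 Idx} (ha : ∀ j, 0 ≤ a j) :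
    ‖mulW k a‖ = S k a := by
  rw [norm_eq, S_apply]
  refine tsum_congr fun j => ?_
  rw [mulW_apply, Real.norm_eq_abs, abs_of_nonneg (mul_nonneg (ha j) (Wt_nonneg k j))]

/-- The functional of the tree. -/
noncomputable def R (t : List ℕ) : L1 Idx →L[ℝ] ℝ := lift (M' t) (norm_M'_le t)

lemma S_some (n : ℕ) (a : L1 Idx) : S (some n) a = S none a + 1 / 2 * eps n *
    (sgn (q n).2.2 * (q n).2.1 * R (q n).1 a - 2 * S none a + a none) := by
  have h := ext_clm (S (some n)) (S none + (1 / 2 * eps n) •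
    ((sgn (q n).2.2 * (q n).2.1) • R (q n).1 - (2 : ℝ) • S none + ev none)) (fun j => ?_) a
  · exact h
  · change S (some n) (dl j) = S none (dl j) + (1 / 2 * eps n) *
      ((sgn (q n).2.2 * (q n).2.1) * R (q n).1 (dl j) - 2 * S none (dl j) + (dl j : L1 Idx) none)
    have e1 : ∀ k, S k (dl j) = Wt k j := fun k => lift_dl _ _ _
    have e2 : ∀ t, R t (dl j) = M' t j := fun t => lift_dl _ _ _
    rw [e1, e1, e2]
    cases j with
    | none =>
      rw [dl_apply_self]
      change 1 / 2 * eps n = 0 + 1 / 2 * eps n * (sgn (q n).2.2 * (q n).2.1 * 0 - 2 * 0 + 1)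
      ring
    | some s =>
      rw [dl_apply_ne (by simp)]
      change 1 / 2 * (1 + eps n * (sgn (q n).2.2 * (q n).2.1 * M (q n).1 s - 1)) =
        1 / 2 + 1 / 2 * eps n * (sgn (q n).2.2 * (q n).2.1 * M (q n).1 s - 2 * (1 / 2) + 0)
      ring

lemma exists_child {a : L1 Idx} {u : List ℕ} (h : R u a = 0) (hu : a (some u) ≠ 0) :
    ∃ k : ℕ, a (some (k :: u)) ≠ 0 := by
  by_contra hcon
  push Not at hcon
  have h1 : R u a = a (some u) • M' u (some u) := by
    unfold R
    rw [lift_apply]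
    refine tsum_eq_single (some u) fun w hw => ?_
    cases w with
    | none => exact mul_zero _
    | some w =>
      by_cases hk : ∃ k : ℕ, w = k :: u
      · obtain ⟨k, rfl⟩ := hk
        rw [hcon k, zero_smul]
      · push Not at hk
        have h2 : M' u (some w) = 0 := M_eq_zero (fun h => hw (by rw [h])) hk
        rw [h2, smul_zero]
  have h3 : M' u (some u) = 1 / 4 := M_self u
  rw [h1, h3, smul_eq_mul] at h
  rcases mul_eq_zero.1 h with h2 | h2
  · exact hu h2
  · norm_num at h2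

end Pool.Agent.R608.TreeLattice
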