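import Mathlib
import Pool.Agent.R608.EllOneR
import Pool.Agent.R608.MunnTree
import Pool.Agent.R608.AtomEmbed
import Pool.Agent.R608.TreeLattice

/-!
# Sublattices of `C(Δ; L₁)` attached to trees: the embedding
-/

set_option autoImplicit false
set_option linter.unusedSectionVars false

open Set Filter Topology MeasureTheory
open Pool.Agent.R608.EllOneR Pool.Agent.R608.AtomEmbed Pool.Agent.R608.TreeLattice
open Pool.Agent.R608.MunnTree (Tree HasBranch branch_of_step ne_tail)

namespace Pool.Agent.R608.TreeLattice2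

noncomputable section

/-- Lebesgue measure on `[0,1]`. -/
abbrev mu01 : Measure ℝ := volume.restrict (Icc (0 : ℝ) 1)

/-- `L₁[0,1]`. -/
abbrev LOne : Type := Lp ℝ 1 mu01

/-- The Banach lattice `C(Δ; L₁)`. -/
abbrev CC : Type := C(ℕ → Bool, LOne)

/-- The partition of `[0,1]`. -/
def part : Part mu01 Idx := unitPart (Denumerable.eqv Idx)

/-- The isometric embedding of `ℓ₁` in `L₁`. -/
def GI : L1 Idx →ₗᵢ[ℝ] LOne where
  toFun := part.G
  map_add' := part.G_add
  map_smul' := part.G_smul
  norm_map' := part.norm_G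

lemma GI_apply (a : L1 Idx) : GI a = part.G a := rfl

/-- The function on the Cantor set attached to a vector. -/
def PhiF (a : L1 Idx) : CC :=
  ⟨fun δ => GI (mulW (idx δ) a), continuous_idx (fun k => GI (mulW k a))
    ((GI.continuous.tendsto _).comp (tendsto_mulW a))⟩

lemma PhiF_apply (a : L1 Idx) (δ : ℕ → Bool) : PhiF a δ = GI (mulW (idx δ) a) := rfl

/-- The embedding of `ℓ₁` in `C(Δ; L₁)`. -/
def Phi : L1 Idx →L[ℝ] CC :=
  LinearMap.mkContinuous
    { toFun := PhiF
      map_add' := fun a b => by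
        refine ContinuousMap.ext fun δ => ?_
        rw [ContinuousMap.add_apply, PhiF_apply, PhiF_apply, PhiF_apply, map_add, map_add]
      map_smul' := fun r a => by
        refine ContinuousMap.ext fun δ => ?_
        rw [RingHom.id_apply, ContinuousMap.smul_apply, PhiF_apply, PhiF_apply, map_smul,
          map_smul] }
    1 fun a => by
      rw [one_mul]
      refine (ContinuousMap.norm_le _ (norm_nonneg _)).2 fun δ => ?_
      change ‖GI (mulW (idx δ) a)‖ ≤ ‖a‖
      rw [GI.norm_map]
      exact norm_mulW_le _ _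

lemma Phi_apply (a : L1 Idx) (δ : ℕ → Bool) : Phi a δ = GI (mulW (idx δ) a) := rfl

lemma Phi_pt (a : L1 Idx) (k : Option ℕ) : Phi a (pt k) = GI (mulW k a) := by
  rw [Phi_apply, idx_pt]

lemma norm_mulW_le_Phi (k : Option ℕ) (a : L1 Idx) : ‖mulW k a‖ ≤ ‖Phi a‖ := by
  have h := (Phi a).norm_coe_le_norm (pt k)
  rwa [Phi_pt, GI.norm_map] at h

lemma norm_Phi_le {a : L1 Idx} {C : ℝ} (hC : 0 ≤ C) (h : ∀ k, ‖mulW k a‖ ≤ C) :
    ‖Phi a‖ ≤ C := by
  refine (ContinuousMap.norm_le _ hC).2 fun δ => ?_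
  rw [Phi_apply, GI.norm_map]
  exact h _

lemma exists_norm_eq (a : L1 Idx) : ∃ k, ‖Phi a‖ = ‖mulW k a‖ := by
  obtain ⟨δ, -, hδ⟩ := isCompact_univ.exists_isMaxOn (univ_nonempty : (univ : Set (ℕ → Bool)).Nonempty)
    (f := fun δ => ‖Phi a δ‖) (Phi a).continuous.norm.continuousOn
  refine ⟨idx δ, le_antisymm ?_ (norm_mulW_le_Phi _ _)⟩
  refine (ContinuousMap.norm_le _ (norm_nonneg _)).2 fun δ' => ?_
  have h := hδ (mem_univ δ')
  change ‖Phi a δ'‖ ≤ ‖Phi a δ‖ at h
  rw [Phi_apply a δ, GI.norm_map] at h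
  exact h

/-- The constant in the lower bound. -/
def c0 : ℝ := 2 + 2 / eps 0

lemma c0_nonneg : 0 ≤ c0 := by
  unfold c0
  have := eps_pos 0
  positivity

lemma norm_le_Phi (a : L1 Idx) : ‖a‖ ≤ c0 * ‖Phi a‖ := by
  have h1 : a = (2 : ℝ) • mulW none a + a none • (dl none : L1 Idx) := by
    refine lp.ext (funext fun j => ?_)
    rw [lp.coeFn_add, Pi.add_apply, lp.coeFn_smul, Pi.smul_apply, lp.coeFn_smul, Pi.smul_apply,
      mulW_apply, smul_eq_mul, smul_eq_mul]
    cases j with
    | none =>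
      rw [dl_apply_self]
      change a none = 2 * (a none * 0) + a none * 1
      ring
    | some s =>
      rw [dl_apply_ne (by simp)]
      change a (some s) = 2 * (a (some s) * (1 / 2)) + a none * 0
      ring
  have h2 : |a none| ≤ 2 / eps 0 * ‖Phi a‖ := by
    have h3 : ‖mulW (some 0) a none‖ ≤ ‖mulW (some 0) a‖ := lp.norm_apply_le_norm (by simp) _ _
    rw [mulW_apply] at h3
    have h4 : Wt (some 0) none = 1 / 2 * eps 0 := rfl
    rw [h4, norm_mul, Real.norm_eq_abs, Real.norm_eq_abs,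
      abs_of_pos (by linarith [eps_pos 0] : (0 : ℝ) < 1 / 2 * eps 0)] at h3
    have h5 := h3.trans (norm_mulW_le_Phi _ _)
    rw [div_mul_eq_mul_div, le_div_iff₀ (eps_pos 0)]
    linarith
  calc ‖a‖ = ‖(2 : ℝ) • mulW none a + a none • (dl none : L1 Idx)‖ := by rw [← h1]
    _ ≤ ‖(2 : ℝ) • mulW none a‖ + ‖a none • (dl none : L1 Idx)‖ := norm_add_le _ _
    _ = 2 * ‖mulW none a‖ + |a none| := by
        rw [norm_smul, norm_smul, norm_dl, mul_one, Real.norm_eq_abs, Real.norm_eq_abs]
        norm_num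
    _ ≤ 2 * ‖Phi a‖ + 2 / eps 0 * ‖Phi a‖ :=
        add_le_add (mul_le_mul_of_nonneg_left (norm_mulW_le_Phi _ _) (by norm_num)) h2
    _ = c0 * ‖Phi a‖ := by unfold c0; ring

lemma Phi_isClosedEmbedding : IsClosedEmbedding Phi := by
  have h : AntilipschitzWith ⟨c0, c0_nonneg⟩ Phi :=
    ContinuousLinearMap.antilipschitz_of_bound Phi fun a => norm_le_Phi a
  exact h.isClosedEmbedding Phi.uniformContinuous

/-- The index `j` belongs to the tree. -/
def InT (T : Tree) : Idx → Prop
  | none => True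
  | some s => T.1 s = true

/-- The vectors supported on the tree. -/
def Supp (T : Tree) : Submodule ℝ (L1 Idx) where
  carrier := {a | ∀ j, ¬ InT T j → a j = 0}
  add_mem' := fun {a b} ha hb j hj => by
    rw [lp.coeFn_add, Pi.add_apply, ha j hj, hb j hj, add_zero]
  zero_mem' := fun j _ => rfl
  smul_mem' := fun r a ha j hj => by
    rw [lp.coeFn_smul, Pi.smul_apply, ha j hj, smul_zero]

lemma mem_Supp {T : Tree} {a : L1 Idx} : a ∈ Supp T ↔ ∀ j, ¬ InT T j → a j = 0 := Iff.rfl

lemma isClosed_Supp (T : Tree) : IsClosed (Supp T : Set (L1 Idx)) := by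
  have e : (Supp T : Set (L1 Idx)) = ⋂ j : Idx, {a | ¬ InT T j → a j = 0} := by
    ext a
    simp only [mem_iInter]
    rfl
  rw [e]
  refine isClosed_iInter fun j => ?_
  by_cases hj : InT T j
  · have : {a : L1 Idx | ¬ InT T j → a j = 0} = univ := eq_univ_of_forall fun a h => absurd hj h
    rw [this]
    exact isClosed_univ
  · have : {a : L1 Idx | ¬ InT T j → a j = 0} = {a | ev j a = 0} := by
      ext a
      exact ⟨fun h => h hj, fun h _ => h⟩
    rw [this]
    exact isClosed_eq (ev j).continuous continuous_const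

/-- The sublattice attached to a tree. -/
def ET (T : Tree) : Submodule ℝ CC := (Supp T).map (Phi : L1 Idx →ₗ[ℝ] CC)

lemma mem_ET {T : Tree} {x : CC} : x ∈ ET T ↔ ∃ a ∈ Supp T, Phi a = x := Iff.rfl

lemma isClosed_ET (T : Tree) : IsClosed (ET T : Set CC) :=
  Phi_isClosedEmbedding.isClosedMap _ (isClosed_Supp T)

lemma abs_Phi (a : L1 Idx) : |Phi a| = Phi (absL a) := by
  refine ContinuousMap.ext fun δ => ?_
  rw [ContinuousMap.abs_apply, Phi_apply, Phi_apply, GI_apply, GI_apply, ← part.G_abs]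
  congr 1
  refine lp.ext (funext fun j => ?_)
  rw [absL_apply, mulW_apply, mulW_apply, absL_apply, abs_mul, abs_of_nonneg (Wt_nonneg _ _)]

lemma abs_mem_ET {T : Tree} {x : CC} (hx : x ∈ ET T) : |x| ∈ ET T := by
  obtain ⟨a, ha, rfl⟩ := hx
  refine ⟨absL a, fun j hj => ?_, (abs_Phi a).symm⟩
  rw [absL_apply, ha j hj, abs_zero]

lemma Phi_le_iff (a b : L1 Idx) : Phi a ≤ Phi b ↔ ∀ j, a j ≤ b j := by
  constructor
  · intro h j
    have h1 : Phi a (pt (some 0)) ≤ Phi b (pt (some 0)) := h _
    rw [Phi_pt, Phi_pt, GI_apply, GI_apply, part.G_le_iff] at h1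
    have h2 := h1 j
    rw [mulW_apply, mulW_apply] at h2
    exact le_of_mul_le_mul_right h2 (Wt_some_pos 0 j)
  · intro h δ
    change Phi a δ ≤ Phi b δ
    rw [Phi_apply, Phi_apply, GI_apply, GI_apply, part.G_le_iff]
    intro j
    rw [mulW_apply, mulW_apply]
    exact mul_le_mul_of_nonneg_right (h j) (Wt_nonneg _ _)

lemma Phi_injective : Function.Injective Phi := Phi_isClosedEmbedding.injective

/-- Strict monotonicity. -/
def StrictlyMonotone (F : Submodule ℝ CC) : Prop :=
  ∀ x ∈ F, ∀ y ∈ F, 0 < y → y ≤ x → ‖x - y‖ < ‖x‖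

/-- If the tree has no branch then its lattice is strictly monotone. -/
lemma strictlyMonotone_of_wf {T : Tree} (hT : ¬ HasBranch T) : StrictlyMonotone (ET T) := by
  rintro _ ⟨a, ha, rfl⟩ _ ⟨b, hb, rfl⟩ hy hyx
  by_contra hcon
  push Not at hcon
  change 0 < Phi b at hy
  change Phi b ≤ Phi a at hyx
  change ‖Phi a‖ ≤ ‖Phi a - Phi b‖ at hcon
  have hb0 : ∀ j, 0 ≤ b j := by
    have h1 : Phi 0 ≤ Phi b := by rw [map_zero]; exact hy.le
    exact (Phi_le_iff 0 b).1 h1
  have hba : ∀ j, b j ≤ a j := (Phi_le_iff b a).1 hyx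
  have hbne : ∃ j, b j ≠ 0 := by
    by_contra h
    push Not at h
    have h1 : b = 0 := lp.ext (funext h)
    rw [h1, map_zero] at hy
    exact lt_irrefl _ hy
  have ha0 : ∀ j, 0 ≤ a j := fun j => (hb0 j).trans (hba j)
  rw [← map_sub] at hcon
  obtain ⟨k, hk⟩ := exists_norm_eq (a - b)
  have hab0 : ∀ j, 0 ≤ (a - b) j := fun j => by
    rw [lp.coeFn_sub, Pi.sub_apply]
    linarith [hba j]
  rw [hk, norm_mulW_of_nonneg k hab0, map_sub] at hcon
  have hSa : S k a ≤ ‖Phi a‖ := by
    rw [← norm_mulW_of_nonneg k ha0]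
    exact norm_mulW_le_Phi _ _
  have hSb : ‖mulW k b‖ ≤ 0 := by
    rw [norm_mulW_of_nonneg k hb0]
    linarith
  have hSb0 : S k b = 0 := by
    rw [← norm_mulW_of_nonneg k hb0]
    exact le_antisymm hSb (norm_nonneg _)
  have hbW : ∀ j, b j * Wt k j = 0 := by
    intro j
    have h1 : ‖mulW k b j‖ ≤ ‖mulW k b‖ := lp.norm_apply_le_norm (by simp) _ _
    have h2 := norm_le_zero_iff.1 (h1.trans hSb)
    rwa [mulW_apply] at h2
  obtain ⟨j0, hj0⟩ := hbne
  have hk0 : k = none := by
    cases k with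
    | none => rfl
    | some n =>
      rcases mul_eq_zero.1 (hbW j0) with h | h
      · exact absurd h hj0
      · exact absurd h (Wt_some_pos n j0).ne'
  subst hk0
  have hj0n : j0 = none := by
    cases j0 with
    | none => rfl
    | some s =>
      have h : b (some s) * (1 / 2) = 0 := hbW (some s)
      rcases mul_eq_zero.1 h with h | h
      · exact absurd h hj0
      · norm_num at h
  subst hj0n
  have hanone : 0 < a none := lt_of_lt_of_le (lt_of_le_of_ne (hb0 none) (Ne.symm hj0)) (hba none)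
  have hmain : ∀ n, sgn (q n).2.2 * (q n).2.1 * R (q n).1 a ≤ 2 * S none a - a none := by
    intro n
    have h1 : S (some n) a ≤ ‖Phi a‖ := by
      rw [← norm_mulW_of_nonneg _ ha0]
      exact norm_mulW_le_Phi _ _
    rw [S_some] at h1
    have h2 : 1 / 2 * eps n *
        (sgn (q n).2.2 * (q n).2.1 * R (q n).1 a - 2 * S none a + a none) ≤ 0 := by
      linarith
    by_contra h3
    push Not at h3
    have h4 : 0 < 1 / 2 * eps n *
        (sgn (q n).2.2 * (q n).2.1 * R (q n).1 a - 2 * S none a + a none) := by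
      refine mul_pos (by linarith [eps_pos n]) (by linarith)
    linarith
  have hq : ∀ (t : List ℕ) (m z : ℕ), sgn z * m * R t a ≤ 2 * S none a - a none := by
    intro t m z
    have h1 := hmain (q.symm (t, m, z))
    rwa [Equiv.apply_symm_apply] at h1
  have hR : ∀ t, R t a = 0 := by
    intro t
    by_contra hne
    obtain ⟨m, hm⟩ := exists_nat_gt ((2 * S none a - a none) / |R t a|)
    rw [div_lt_iff₀ (abs_pos.2 hne)] at hm
    have h1 : (m : ℝ) * |R t a| ≤ 2 * S none a - a none := by
      rcases le_total 0 (R t a) with h | h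
      · rw [abs_of_nonneg h]
        have h2 := hq t m 0
        have h3 : sgn 0 = 1 := if_pos rfl
        rw [h3] at h2
        linarith
      · rw [abs_of_nonpos h]
        have h2 := hq t m 1
        have h3 : sgn 1 = -1 := if_neg one_ne_zero
        rw [h3] at h2
        linarith
    linarith
  have hSpos : S none a ≠ 0 := by
    have h1 := hq [] 0 0
    rw [Nat.cast_zero, mul_zero, zero_mul] at h1
    intro h2
    linarith
  obtain ⟨s, hs⟩ : ∃ s, a (some s) ≠ 0 := by
    by_contra h
    push Not at h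
    apply hSpos
    rw [S_apply]
    have h1 : (fun j => a j * Wt none j) = fun _ => 0 := by
      funext j
      cases j with
      | none => exact mul_zero _
      | some s => rw [h s, zero_mul]
    rw [h1, tsum_zero]
  refine hT (branch_of_step T {s | a (some s) ≠ 0} (fun u hu => ⟨?_, exists_child (hR u) hu⟩) hs)
  by_contra h
  exact hu (ha (some u) h)

/-! ## The vector of a branch -/

/-- The vector of a branch. -/
def bv (b : ℕ → List ℕ) : L1 ℕ →L[ℝ] L1 Idx := lift (fun n => dl (some (b n))) fun _ => (norm_dl _).le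

lemma bv_dl (b : ℕ → List ℕ) (n : ℕ) : bv b (dl n) = dl (some (b n)) := lift_dl _ _ _

lemma map_bv (A : L1 Idx →L[ℝ] ℝ) (b : ℕ → List ℕ) (g : L1 ℕ) :
    A (bv b g) = ∑' n, g n • A (dl (some (b n))) := by
  have h : HasSum (fun n => A (bv b (g n • dl n))) (A (bv b g)) :=
    (hasSum_dl g).mapL (A.comp (bv b))
  rw [← h.tsum_eq]
  refine tsum_congr fun n => ?_
  rw [map_smul, map_smul, bv_dl]

lemma bv_geo_nonneg (b : ℕ → List ℕ) (j : Idx) : 0 ≤ bv b geo j := by
  have h := map_bv (ev j) b geo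
  rw [ev_apply] at h
  rw [h]
  refine tsum_nonneg fun n => mul_nonneg ?_ ?_
  · rw [geo_apply]; positivity
  · rw [ev_apply]
    by_cases hj : j = some (b n)
    · rw [hj, dl_apply_self]; exact zero_le_one
    · rw [dl_apply_ne hj]

lemma not_strictlyMonotone_of_branch {T : Tree} (hT : HasBranch T) :
    ¬ StrictlyMonotone (ET T) := by
  obtain ⟨b, hb0, hb⟩ := hT
  intro hST
  set a0 := bv b geo with ha0
  have ha0S : a0 ∈ Supp T := by
    intro j hj
    have h := map_bv (ev j) b geo
    rw [ev_apply] at h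
    rw [ha0, h]
    have h1 : (fun n => geo n • ev j (dl (some (b n)))) = fun _ => 0 := by
      funext n
      rw [ev_apply, dl_apply_ne, smul_zero]
      rintro rfl
      exact hj (hb n).1
    rw [h1, tsum_zero]
  have hdS : (dl none : L1 Idx) ∈ Supp T := by
    intro j hj
    rw [dl_apply_ne]
    rintro rfl
    exact hj trivial
  have hSnone : S none a0 = 1 := by
    rw [ha0, map_bv]
    have h1 : (fun n => geo n • S none (dl (some (b n)))) = fun n => (1 / 2 : ℝ) * (1 / 2) ^ n := by
      funext n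
      have h2 : S none (dl (some (b n))) = 1 / 2 := lift_dl _ _ _
      rw [h2, geo_apply, smul_eq_mul, mul_comm]
    rw [h1, tsum_mul_left, tsum_geometric_of_lt_one (by norm_num) (by norm_num)]
    norm_num
  have hR : ∀ t, R t a0 = 0 := by
    intro t
    rw [ha0, map_bv]
    have h1 : (fun n => geo n • R t (dl (some (b n)))) = fun n => geo n • M t (b n) := by
      funext n
      have h2 : R t (dl (some (b n))) = M t (b n) := lift_dl _ _ _
      rw [h2]
    rw [h1]
    exact branch_sum hb0 (fun n => (hb n).2) t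
  have hdnn : ∀ j, 0 ≤ (dl none : L1 Idx) j := by
    intro j
    by_cases hj : j = none
    · rw [hj, dl_apply_self]; exact zero_le_one
    · rw [dl_apply_ne hj]
  have hann : ∀ j, 0 ≤ (a0 + dl none : L1 Idx) j := fun j => by
    rw [lp.coeFn_add, Pi.add_apply]
    exact add_nonneg (bv_geo_nonneg b j) (hdnn j)
  have hx : Phi (a0 + dl none) ∈ ET T := ⟨_, (Supp T).add_mem ha0S hdS, rfl⟩
  have hy : Phi (dl none) ∈ ET T := ⟨_, hdS, rfl⟩
  have hypos : 0 < Phi (dl none) := by
    refine lt_of_le_of_ne ?_ ?_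
    · have h1 : Phi 0 ≤ Phi (dl none) := (Phi_le_iff 0 (dl none)).2 hdnn
      rwa [map_zero] at h1
    · intro h
      have h1 : (0 : L1 Idx) = dl none := Phi_injective (by rw [map_zero]; exact h)
      have h2 : (0 : L1 Idx) none = (dl none : L1 Idx) none := by rw [← h1]
      rw [dl_apply_self] at h2
      exact zero_ne_one h2
  have hyx : Phi (dl none) ≤ Phi (a0 + dl none) := by
    rw [Phi_le_iff]
    intro j
    rw [lp.coeFn_add, Pi.add_apply]
    linarith [bv_geo_nonneg b j]
  have h := hST _ hx _ hy hypos hyx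
  rw [← map_sub, add_sub_cancel_right] at h
  have h1 : 1 ≤ ‖Phi a0‖ := by
    rw [← hSnone, ← norm_mulW_of_nonneg none (bv_geo_nonneg b)]
    exact norm_mulW_le_Phi _ _
  have e0 : a0 none = 0 := by
    have h := map_bv (ev none) b geo
    rw [ev_apply] at h
    rw [ha0, h]
    have h1 : (fun n => geo n • ev none (dl (some (b n)))) = fun _ => 0 := by
      funext n
      rw [ev_apply, dl_apply_ne (by simp), smul_zero]
    rw [h1, tsum_zero]
  have e1 : S none (dl none) = 0 := lift_dl _ _ _
  have e2 : ∀ t, R t (dl none) = 0 := fun t => lift_dl _ _ _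
  have h2 : ‖Phi (a0 + dl none)‖ ≤ 1 := by
    refine norm_Phi_le zero_le_one fun k => ?_
    rw [norm_mulW_of_nonneg k hann]
    cases k with
    | none => rw [map_add, hSnone, e1, add_zero]
    | some n =>
      rw [S_some, map_add, hSnone, e1, map_add, hR, e2, lp.coeFn_add, Pi.add_apply, e0,
        dl_apply_self]
      have := eps_pos n
      nlinarith
  linarith

theorem strictlyMonotone_iff (T : Tree) : StrictlyMonotone (ET T) ↔ ¬ HasBranch T :=
  ⟨fun h1 h2 => not_strictlyMonotone_of_branch h2 h1, strictlyMonotone_of_wf⟩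

end

end Pool.Agent.R608.TreeLattice2
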