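import Mathlib
import Pool.Agent.R608.EllOneR
import Pool.Agent.R608.MunnTree
import Pool.Agent.R608.AtomEmbed
import Pool.Agent.R608.TreeLattice
import Pool.Agent.R608.TreeLattice2

/-!
# Sublattices of `C(Δ; L₁)` attached to trees: continuity of the distances
-/

set_option autoImplicit false
set_option linter.unusedSectionVars false

open Set Filter Topology MeasureTheory
open Pool.Agent.R608.EllOneR Pool.Agent.R608.AtomEmbed Pool.Agent.R608.TreeLattice
  Pool.Agent.R608.TreeLattice2
open Pool.Agent.R608.MunnTree (Tree HasBranch branch_of_step ne_tail)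

namespace Pool.Agent.R608.TreeLattice3

noncomputable section

lemma continuous_coord (s : List ℕ) : Continuous fun T : Tree => T.1 s :=
  (continuous_apply s).comp continuous_subtype_val

lemma isOpen_inT (j : Idx) : IsOpen {T : Tree | InT T j} := by
  cases j with
  | none =>
    have : {T : Tree | InT T none} = univ := eq_univ_of_forall fun T => trivial
    rw [this]
    exact isOpen_univ
  | some s => exact (isOpen_discrete {true}).preimage (continuous_coord s)

lemma ET_nonempty (T : Tree) : (ET T : Set CC).Nonempty := ⟨0, (ET T).zero_mem⟩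

lemma isOpen_lt (α : CC) (r : ℝ) : IsOpen {T : Tree | Metric.infDist α (ET T : Set CC) < r} := by
  rw [isOpen_iff_mem_nhds]
  intro T hT
  obtain ⟨z, hz, hdist⟩ := (Metric.infDist_lt_iff (ET_nonempty T)).1 hT
  obtain ⟨a, ha, rfl⟩ := hz
  change dist α (Phi a) < r at hdist
  have h1 : Tendsto (fun s : Finset Idx => dist α (Phi (∑ j ∈ s, a j • dl j))) atTop
      (𝓝 (dist α (Phi a))) :=
    tendsto_const_nhds.dist ((Phi.continuous.tendsto _).comp (hasSum_dl a))
  obtain ⟨s, hs⟩ := (h1.eventually (gt_mem_nhds hdist)).exists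
  have h2 : ∀ᶠ T' in 𝓝 T, ∀ j ∈ s, InT T j → InT T' j := by
    rw [Filter.eventually_all_finset]
    intro j _
    by_cases hj : InT T j
    · filter_upwards [(isOpen_inT j).mem_nhds hj] with T' hT' _
      exact hT'
    · exact Eventually.of_forall fun T' h => absurd h hj
  filter_upwards [h2] with T' hT'
  rw [Metric.infDist_lt_iff (ET_nonempty T')]
  refine ⟨Phi (∑ j ∈ s, a j • dl j), ⟨_, ?_, rfl⟩, hs⟩
  refine (Supp T').sum_mem fun j hj => ?_
  by_cases haj : a j = 0
  · rw [haj, zero_smul]
    exact (Supp T').zero_mem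
  · refine (Supp T').smul_mem _ ?_
    have hjT : InT T j := by
      by_contra h
      exact haj (ha j h)
    intro i hi
    rw [dl_apply_ne]
    rintro rfl
    exact hi (hT' i hj hjT)

/-- The set of trees for which the distance at most `c` is attained. -/
def D (α : CC) (c : ℝ) : Set Tree := {T | ∃ a ∈ Supp T, ‖α - Phi a‖ ≤ c}

/-- The value at a point as an integral. -/
lemma enorm_sub_Phi (α : CC) (a : L1 Idx) (δ : ℕ → Bool) : ‖α δ - Phi a δ‖ₑ =
    ∫⁻ t, ‖α δ t - part.c (part.i t) * (a (part.i t) * Wt (idx δ) (part.i t))‖ₑ ∂mu01 := by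
  rw [Phi_apply, GI_apply, part.enorm_sub_G]
  refine lintegral_congr fun t => ?_
  rw [mulW_apply]

lemma isClosed_D (α : CC) {c : ℝ} (hc : 0 ≤ c) : IsClosed (D α c) := by
  set R : ℝ := c0 * (‖α‖ + c) with hR
  let W : Set (Tree × (Idx → Icc (-R) R)) := {p | (∀ j, ¬ InT p.1 j → (p.2 j : ℝ) = 0) ∧
    (∀ s : Finset Idx, ∑ j ∈ s, |(p.2 j : ℝ)| ≤ R) ∧
    ∀ δ : ℕ → Bool, ∫⁻ t, ‖α δ t - part.c (part.i t) *
      ((p.2 (part.i t) : ℝ) * Wt (idx δ) (part.i t))‖ₑ ∂mu01 ≤ ENNReal.ofReal c}
  have hcoord : ∀ j, Continuous fun p : Tree × (Idx → Icc (-R) R) => (p.2 j : ℝ) := fun j =>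
    continuous_subtype_val.comp ((continuous_apply j).comp continuous_snd)
  have hW : IsClosed W := by
    have e : W = (⋂ j : Idx, {p : Tree × (Idx → Icc (-R) R) | ¬ InT p.1 j → (p.2 j : ℝ) = 0}) ∩
        ((⋂ s : Finset Idx, {p : Tree × (Idx → Icc (-R) R) | ∑ j ∈ s, |(p.2 j : ℝ)| ≤ R}) ∩
        (⋂ δ : ℕ → Bool, {p : Tree × (Idx → Icc (-R) R) | ∫⁻ t, ‖α δ t - part.c (part.i t) *
          ((p.2 (part.i t) : ℝ) * Wt (idx δ) (part.i t))‖ₑ ∂mu01 ≤ ENNReal.ofReal c})) := by
      ext p
      simp only [mem_inter_iff, mem_iInter]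
      rfl
    rw [e]
    refine IsClosed.inter (isClosed_iInter fun j => ?_) (IsClosed.inter
      (isClosed_iInter fun s => ?_) (isClosed_iInter fun δ => ?_))
    · have h1 : IsClosed {p : Tree × (Idx → Icc (-R) R) | (p.2 j : ℝ) = 0} :=
        isClosed_eq (hcoord j) continuous_const
      cases j with
      | none =>
        have : {p : Tree × (Idx → Icc (-R) R) | ¬ InT p.1 none → (p.2 none : ℝ) = 0} = univ :=
          eq_univ_of_forall fun p h => absurd trivial h
        rw [this]
        exact isClosed_univ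
      | some s =>
        have h2 : IsClosed {p : Tree × (Idx → Icc (-R) R) | p.1.1 s = true} :=
          isClosed_eq ((continuous_coord s).comp continuous_fst) continuous_const
        convert h2.union h1 using 1
        ext p
        constructor
        · intro h
          by_cases hs : p.1.1 s = true
          · exact Or.inl hs
          · exact Or.inr (h hs)
        · rintro (h | h) h'
          · exact absurd h h'
          · exact h
    · exact isClosed_le (continuous_finsetSum s fun j _ => (hcoord j).abs) continuous_const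
    · have h3 := part.isClosed_le (Z := Idx → Icc (-R) R) (α δ)
        (fun b j => (b j : ℝ) * Wt (idx δ) j)
        (fun j => (continuous_subtype_val.comp (continuous_apply j)).mul continuous_const)
        (ENNReal.ofReal c)
      exact h3.preimage continuous_snd
  have himg := isClosedMap_fst_of_compactSpace _ hW
  convert himg using 1
  ext T
  constructor
  · rintro ⟨a, ha, hac⟩
    have hnorm : ‖a‖ ≤ R := by
      refine (norm_le_Phi a).trans (mul_le_mul_of_nonneg_left ?_ c0_nonneg)
      have e1 : Phi a = α - (α - Phi a) := by abel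
      rw [e1]
      exact (norm_sub_le _ _).trans (add_le_add le_rfl hac)
    have hcoordle : ∀ j, |a j| ≤ R := fun j =>
      (lp.norm_apply_le_norm (E := fun _ : Idx => ℝ) (p := 1) (by simp) a j).trans hnorm
    refine ⟨(T, fun j => ⟨a j, abs_le.1 (hcoordle j)⟩), ⟨ha, fun s => ?_, fun δ => ?_⟩, rfl⟩
    · refine le_trans ?_ hnorm
      rw [norm_eq]
      exact (summable_norm a).sum_le_tsum s fun _ _ => abs_nonneg _
    · change ∫⁻ t, ‖α δ t - part.c (part.i t) *
          (a (part.i t) * Wt (idx δ) (part.i t))‖ₑ ∂mu01 ≤ ENNReal.ofReal c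
      rw [← enorm_sub_Phi, ← ofReal_norm]
      refine ENNReal.ofReal_le_ofReal (le_trans ?_ hac)
      exact (α - Phi a).norm_coe_le_norm δ
  · rintro ⟨⟨T', b⟩, ⟨hb1, hb2, hb3⟩, rfl⟩
    have hsum : Summable fun j => |(b j : ℝ)| :=
      summable_of_sum_le (fun j => abs_nonneg _) hb2
    let a : L1 Idx := ⟨fun j => (b j : ℝ), by
      refine memℓp_gen ?_
      simpa using hsum⟩
    refine ⟨a, hb1, ?_⟩
    refine (ContinuousMap.norm_le _ hc).2 fun δ => ?_
    have h4 := hb3 δ
    have h5 : ‖α δ - Phi a δ‖ₑ ≤ ENNReal.ofReal c := by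
      rw [enorm_sub_Phi]
      exact h4
    rw [← ofReal_norm] at h5
    exact (ENNReal.ofReal_le_ofReal_iff hc).1 h5

lemma isClosed_le' (α : CC) (r : ℝ) :
    IsClosed {T : Tree | Metric.infDist α (ET T : Set CC) ≤ r} := by
  by_cases hr : 0 ≤ r
  · have e : {T : Tree | Metric.infDist α (ET T : Set CC) ≤ r} =
        ⋂ k : ℕ, D α (r + 1 / ((k : ℝ) + 1)) := by
      ext T
      rw [mem_iInter]
      constructor
      · intro h k
        have h1 : Metric.infDist α (ET T : Set CC) < r + 1 / ((k : ℝ) + 1) := by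
          have : 0 < 1 / ((k : ℝ) + 1) := by positivity
          have h2 : Metric.infDist α (ET T : Set CC) ≤ r := h
          linarith
        obtain ⟨z, ⟨a, ha, rfl⟩, hz⟩ := (Metric.infDist_lt_iff (ET_nonempty T)).1 h1
        refine ⟨a, ha, ?_⟩
        rw [dist_eq_norm] at hz
        exact hz.le
      · intro h
        change Metric.infDist α (ET T : Set CC) ≤ r
        refine le_of_forall_pos_lt_add fun ε hε => ?_
        obtain ⟨k, hk⟩ := exists_nat_one_div_lt hε
        obtain ⟨a, ha, hac⟩ := h k
        have h1 : Metric.infDist α (ET T : Set CC) ≤ dist α (Phi a) :=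
          Metric.infDist_le_dist_of_mem ⟨a, ha, rfl⟩
        rw [dist_eq_norm] at h1
        linarith
    rw [e]
    exact isClosed_iInter fun k => isClosed_D α (by positivity)
  · have e : {T : Tree | Metric.infDist α (ET T : Set CC) ≤ r} = ∅ := by
      ext T
      refine ⟨fun h => ?_, fun h => absurd h (notMem_empty _)⟩
      have h1 : Metric.infDist α (ET T : Set CC) ≤ r := h
      exact absurd (Metric.infDist_nonneg.trans h1) hr
    rw [e]
    exact isClosed_empty

theorem continuous_infDist (α : CC) :
    Continuous fun T : Tree => Metric.infDist α (ET T : Set CC) := by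
  rw [OrderTopology.continuous_iff]
  intro r
  refine ⟨?_, isOpen_lt α r⟩
  have h := (isClosed_le' α r).isOpen_compl
  convert h using 1
  ext T
  change r < Metric.infDist α (ET T : Set CC) ↔ ¬ (Metric.infDist α (ET T : Set CC) ≤ r)
  rw [not_le]

end

end Pool.Agent.R608.TreeLattice3
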