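import Mathlib
import Pool.Agent.R608.MunnTree

/-!
# Coanalytic sets reduce to the set of well-founded trees
-/

set_option autoImplicit false

open Set Filter Topology MeasureTheory TopologicalSpace
open Pool.Agent.R608.MunnTree (Tree HasBranch)

namespace Pool.Agent.R608.TreeReduction

/-- The infinite sequence `z` extends the finite sequence `s` (written in reverse). -/
def Ext (z : ℕ → ℕ) : List ℕ → Prop
  | [] => True
  | k :: s => z s.length = k ∧ Ext z s

lemma Ext.eq_of {z z' : ℕ → ℕ} {s : List ℕ} (h : Ext z s) (h' : Ext z' s) :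
    ∀ i < s.length, z i = z' i := by
  induction s with
  | nil => intro i hi; exact absurd hi (Nat.not_lt_zero i)
  | cons k s ih =>
    intro i hi
    rw [List.length_cons] at hi
    rcases Nat.lt_succ_iff_lt_or_eq.1 hi with h1 | h1
    · exact ih h.2 h'.2 i h1
    · rw [h1, h.1, h'.1]

open Classical in
/-- The tree of attempts to find a point of the fibre over `y`. -/
noncomputable def attempt {Y : Type} (e : Y → ℕ → Bool) (g : (ℕ → ℕ) → Y) (y : Y) : Tree :=
  ⟨fun s => decide (∃ z, Ext z s ∧ ∀ n < s.length, e (g z) n = e y n), by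
    refine ⟨?_, fun k s h => ?_⟩
    · rw [decide_eq_true_iff]
      exact ⟨fun _ => 0, trivial, fun n hn => absurd hn (Nat.not_lt_zero n)⟩
    · rw [decide_eq_true_iff] at h ⊢
      obtain ⟨z, h1, h2⟩ := h
      exact ⟨z, h1.2, fun n hn => h2 n (by rw [List.length_cons]; omega)⟩⟩

lemma attempt_apply {Y : Type} (e : Y → ℕ → Bool) (g : (ℕ → ℕ) → Y) (y : Y) (s : List ℕ) :
    (attempt e g y).1 s = true ↔ ∃ z, Ext z s ∧ ∀ n < s.length, e (g z) n = e y n := by
  classical
  unfold attempt
  exact decide_eq_true_iff

lemma continuous_attempt {Y : Type} [TopologicalSpace Y] (e : Y → ℕ → Bool)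
    (he : ∀ n, Continuous fun y => e y n) (g : (ℕ → ℕ) → Y) : Continuous (attempt e g) := by
  refine continuous_induced_rng.2 (continuous_pi fun s => ?_)
  rw [continuous_iff_continuousAt]
  intro y
  have h1 : ∀ᶠ y' in 𝓝 y, ∀ n ∈ Set.Iio s.length, e y' n = e y n := by
    refine (Filter.eventually_all_finite (Set.finite_Iio _)).2 fun n _ => ?_
    exact ((he n).continuousAt (x := y)).eventually_mem ((isOpen_discrete {e y n}).mem_nhds rfl)
  have h2 : (fun y' => (attempt e g y').1 s) =ᶠ[𝓝 y] fun _ => (attempt e g y).1 s := by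
    filter_upwards [h1] with y' hy'
    rw [Bool.eq_iff_iff, attempt_apply, attempt_apply]
    constructor
    · rintro ⟨z, hz1, hz2⟩
      exact ⟨z, hz1, fun n hn => by rw [hz2 n hn, hy' n hn]⟩
    · rintro ⟨z, hz1, hz2⟩
      exact ⟨z, hz1, fun n hn => by rw [hz2 n hn, hy' n hn]⟩
  exact h2.continuousAt

lemma hasBranch_attempt {Y : Type} [TopologicalSpace Y] (e : Y → ℕ → Bool)
    (he : ∀ n, Continuous fun y => e y n) (hinj : Function.Injective e) (g : (ℕ → ℕ) → Y)
    (hg : Continuous g) (y : Y) : HasBranch (attempt e g y) ↔ y ∈ range g := by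
  constructor
  · rintro ⟨b, hb0, hb⟩
    have hlen : ∀ n, (b n).length = n := by
      intro n
      induction n with
      | zero => rw [hb0]; rfl
      | succ n ih =>
        obtain ⟨k, hk⟩ := (hb n).2
        rw [hk, List.length_cons, ih]
    choose z hz using fun n => (hb n).2
    have hzext : ∀ n, Ext z (b n) := by
      intro n
      induction n with
      | zero => rw [hb0]; trivial
      | succ n ih =>
        rw [hz n]
        exact ⟨by rw [hlen], ih⟩
    choose w hw1 hw2 using fun n => (attempt_apply e g y (b n)).1 (hb n).1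
    have hlim : Tendsto w atTop (𝓝 z) := by
      rw [tendsto_pi_nhds]
      intro i
      refine tendsto_const_nhds.congr' ?_
      filter_upwards [eventually_gt_atTop i] with n hn
      exact (hzext n).eq_of (hw1 n) i (by rw [hlen]; exact hn)
    have hglim : Tendsto (fun n => g (w n)) atTop (𝓝 (g z)) := (hg.tendsto z).comp hlim
    refine ⟨z, hinj (funext fun m => ?_)⟩
    have h1 : Tendsto (fun n => e (g (w n)) m) atTop (𝓝 (e (g z) m)) :=
      ((he m).tendsto _).comp hglim
    have h2 : Tendsto (fun n => e (g (w n)) m) atTop (𝓝 (e y m)) := by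
      refine tendsto_const_nhds.congr' ?_
      filter_upwards [eventually_gt_atTop m] with n hn
      exact (hw2 n m (by rw [hlen]; exact hn)).symm
    exact tendsto_nhds_unique h1 h2
  · rintro ⟨z, rfl⟩
    let b : ℕ → List ℕ := fun n => Nat.rec [] (fun n s => z n :: s) n
    have hbs : ∀ n, b (n + 1) = z n :: b n := fun n => rfl
    have hlen : ∀ n, (b n).length = n := by
      intro n
      induction n with
      | zero => rfl
      | succ n ih => rw [hbs, List.length_cons, ih]
    have hext : ∀ n, Ext z (b n) := by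
      intro n
      induction n with
      | zero => trivial
      | succ n ih => exact ⟨by rw [hlen], ih⟩
    exact ⟨b, rfl, fun n => ⟨(attempt_apply _ _ _ _).2 ⟨z, hext n, fun _ _ => rfl⟩, z n, hbs n⟩⟩

/-- The tree with only the root. -/
def rootTree : Tree := ⟨fun s => s.isEmpty, rfl, fun _ _ h => by simp at h⟩

lemma not_hasBranch_rootTree : ¬ HasBranch rootTree := by
  rintro ⟨b, -, hb⟩
  obtain ⟨k, hk⟩ := (hb 0).2
  have h1 := (hb 1).1
  rw [zero_add] at hk
  rw [hk] at h1
  exact Bool.false_ne_true h1

/-- A zero-dimensional Polish space has a continuous injection in the Cantor space. -/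
lemma exists_embedding {Y : Type} [TopologicalSpace Y] [PolishSpace Y]
    (hY : IsTopologicalBasis {s : Set Y | IsClopen s}) :
    ∃ e : Y → ℕ → Bool, (∀ n, Continuous fun y => e y n) ∧ Function.Injective e := by
  classical
  obtain ⟨S, hS, hSc, hSb⟩ := hY.exists_countable
  obtain ⟨U, hU⟩ := (hSc.insert univ).exists_eq_range (insert_nonempty _ _)
  have hUcl : ∀ n, IsClopen (U n) := by
    intro n
    have h1 : U n ∈ insert univ S := by rw [hU]; exact mem_range_self n
    rcases h1 with h1 | h1
    · rw [h1]; exact isClopen_univ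
    · exact hS h1
  refine ⟨fun y n => decide (y ∈ U n), fun n => ?_, fun x y hxy => ?_⟩
  · rw [continuous_iff_continuousAt]
    intro y
    have h2 : (fun y' => decide (y' ∈ U n)) =ᶠ[𝓝 y] fun _ => decide (y ∈ U n) := by
      by_cases hy : y ∈ U n
      · filter_upwards [(hUcl n).isOpen.mem_nhds hy] with y' hy'
        rw [decide_eq_true hy, decide_eq_true hy']
      · filter_upwards [(hUcl n).compl.isOpen.mem_nhds hy] with y' hy'
        rw [decide_eq_false hy, decide_eq_false hy']
    exact h2.continuousAt
  · by_contra hne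
    obtain ⟨V, hV, hxV, hVy⟩ := hSb.exists_subset_of_mem_open
      (show x ∈ ({y}ᶜ : Set Y) from hne) isOpen_compl_singleton
    have h3 : V ∈ range U := by rw [← hU]; exact mem_insert_of_mem _ hV
    obtain ⟨n, rfl⟩ := h3
    have h4 := congrFun hxy n
    simp only [decide_eq_decide] at h4
    exact hVy (h4.1 hxV) rfl

/-- Every coanalytic subset of a zero-dimensional Polish space is the preimage of the set of
well-founded trees under a continuous map. -/
theorem exists_reduction {Y : Type} [TopologicalSpace Y] [PolishSpace Y]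
    (hY : IsTopologicalBasis {s : Set Y | IsClopen s}) {B : Set Y} (hB : AnalyticSet Bᶜ) :
    ∃ f : Y → Tree, Continuous f ∧ ∀ y, ¬ HasBranch (f y) ↔ y ∈ B := by
  rw [AnalyticSet] at hB
  rcases hB with hB | ⟨g, hg, hgr⟩
  · refine ⟨fun _ => rootTree, continuous_const, fun y => ⟨fun _ => ?_, fun _ =>
      not_hasBranch_rootTree⟩⟩
    by_contra hy
    have h1 : y ∈ Bᶜ := hy
    rw [hB] at h1
    exact h1
  · obtain ⟨e, he, hinj⟩ := exists_embedding hY
    refine ⟨attempt e g, continuous_attempt e he g, fun y => ?_⟩
    rw [hasBranch_attempt e he hinj g hg, hgr, mem_compl_iff, not_not]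

end Pool.Agent.R608.TreeReduction
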